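import Pool.Agent.Lib.MP_ccdac2_co.Bad6

/-!
Deterministic part: outside the bad events the alternating sum is positive.
-/

set_option linter.unusedSectionVars false
set_option linter.unusedSimpArgs false

namespace RelRoots

open Finset Filter

/-- one term -/
noncomputable def trm (n : ℕ) (u : ℝ) (E : Finset (Sym2 (Fin n))) (π : Finset (Finset (Fin n))) : ℝ :=
  (-1) ^ (n - π.card) * ((π.card - 1).factorial : ℝ) * (-u) ^ (E ∩ intr π).card

/-- the alternating sum over set partitions -/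
noncomputable def Hr (n : ℕ) (u : ℝ) (E : Finset (Sym2 (Fin n))) : ℝ :=
  ∑ π ∈ parts (univ : Finset (Fin n)), trm n u E π

theorem abs_trm {n : ℕ} {u : ℝ} (hu : 0 ≤ u) (E : Finset (Sym2 (Fin n)))
    (π : Finset (Finset (Fin n))) :
    |trm n u E π| = ((π.card - 1).factorial : ℝ) * u ^ (E ∩ intr π).card := by
  unfold trm
  rw [abs_mul, abs_mul, abs_pow, abs_neg, abs_one, one_pow, one_mul, abs_pow, abs_neg,
    abs_of_nonneg hu, abs_of_nonneg (by positivity)]

theorem prod_wt {n : ℕ} (u : ℝ) (E J : Finset (Sym2 (Fin n))) :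
    ∏ e ∈ J, wt (u : ℂ) E e = (((-u) ^ (E ∩ J).card : ℝ) : ℂ) := by
  unfold wt
  rw [prod_ite, prod_const_one, mul_one, prod_const]
  have : (J.filter (fun e => e ∈ E)) = E ∩ J := by
    ext e; simp [and_comm]
  rw [this]
  push_cast
  rfl

/-- the main part of the sum -/
theorem small_eq {n : ℕ} (u : ℝ) (E : Finset (Sym2 (Fin n))) (bm : ℕ) :
    ((∑ π ∈ sparts (univ : Finset (Fin n)) bm, trm n u E π : ℝ) : ℂ) =
      ((n - 1).factorial : ℂ) * Gs bm n (u : ℂ) E := by
  unfold Gs
  rw [mul_sum]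
  push_cast
  refine sum_congr rfl (fun π _ => ?_)
  rw [prod_wt]
  unfold trm cf
  have : ((n - 1).factorial : ℂ) ≠ 0 := by exact_mod_cast (n - 1).factorial_ne_zero
  push_cast
  field_simp

theorem small_lower {n : ℕ} (H : Tech2 n) {E : Finset (Sym2 (Fin n))} (hE : E ⊆ pairs univ)
    (h5 : ¬ Bad5 n E) (h6 : ¬ Bad6 n E) {u : ℝ} (hu : 1 ≤ u) (hu5 : u ≤ uu 5 n) :
    ((n - 1).factorial : ℝ) / n ≤ ∑ π ∈ sparts (univ : Finset (Fin n)) (n / 50), trm n u E π := by
  have hn0 := H.pos
  have hL := H.L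
  set L := Real.log n with hLdef
  set t := n * (u - 1) with ht
  have hut : u = 1 + t / n := by rw [ht]; field_simp; ring
  have ht0 : 0 ≤ t := by rw [ht]; exact mul_nonneg hn0.le (by linarith)
  have ht5 : t ≤ 5 * L := by
    have : u - 1 ≤ 5 * L / n := by unfold uu at hu5; linarith
    calc t ≤ n * (5 * L / n) := mul_le_mul_of_nonneg_left this hn0.le
      _ = 5 * L := by field_simp
  have hF := F_lower H hE h5 ht0 ht5
  rw [← hut] at hF
  set F : ℝ := (1 + u / n) ^ E.card * (1 - 1 / (n : ℝ)) ^ (n.choose 2 - E.card) with hFdef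
  have hFp : Fp n (u : ℂ) E = (F : ℂ) := Fp_real hE u
  have hF0 : 0 < F := lt_of_lt_of_le (Real.exp_pos _) hF
  set T := ⌊t⌋₊ with hT
  have hTt : (T : ℝ) ≤ t := Nat.floor_le ht0
  have hTt2 : t < T + 1 := Nat.lt_floor_add_one t
  have hT5 : T ∈ range (⌊5 * Real.log n⌋₊ + 1) := by
    rw [mem_range, Nat.lt_succ_iff]
    exact Nat.floor_le_floor ht5
  have hdist : ‖(u : ℂ) - (1 + (T : ℂ) / n)‖ ≤ 2 / (n : ℝ) / 2 := by
    have e1 : (u : ℂ) - (1 + (T : ℂ) / n) = ((u - (1 + (T : ℝ) / n) : ℝ) : ℂ) := by push_cast; ring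
    rw [e1, Complex.norm_real, Real.norm_eq_abs]
    have e2 : u - (1 + (T : ℝ) / n) = (t - T) / n := by rw [hut]; ring
    rw [e2, abs_of_nonneg (div_nonneg (by linarith) hn0.le)]
    have e3 : 2 / (n : ℝ) / 2 = 1 / n := by ring
    rw [e3]
    exact div_le_div_of_nonneg_right (by linarith) hn0.le
  have h7 : ‖Gs (n / 50) n (u : ℂ) E - Fp n (u : ℂ) E‖ ^ 2 < qT n T := by
    by_contra hcon
    push Not at hcon
    exact h6 ⟨T, hT5, u, hdist, hcon⟩
  have h8 : qT n T ≤ (F / 2) ^ 2 := by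
    have e1 : Real.exp (t / 4 - L / 20 - 2) ^ 2 ≤ F ^ 2 :=
      pow_le_pow_left₀ (Real.exp_pos _).le hF 2
    rw [← Real.exp_nat_mul] at e1
    unfold qT
    have e2 : Real.exp (((T : ℝ) - 1) / 2 - Real.log n / 10 - 4) ≤
        Real.exp (((2 : ℕ) : ℝ) * (t / 4 - L / 20 - 2)) := by
      refine Real.exp_le_exp.2 ?_
      push_cast
      rw [← hLdef]; linarith
    rw [div_pow]
    linarith
  have h9 : ‖Gs (n / 50) n (u : ℂ) E - (F : ℂ)‖ < F / 2 := by
    rw [← hFp]
    exact lt_of_pow_lt_pow_left₀ 2 (by positivity) (lt_of_lt_of_le h7 h8)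
  -- real part
  have h10 : F / 2 ≤ (Gs (n / 50) n (u : ℂ) E).re := by
    have e1 := Complex.abs_re_le_norm (Gs (n / 50) n (u : ℂ) E - (F : ℂ))
    rw [Complex.sub_re, Complex.ofReal_re] at e1
    have e2 := abs_le.1 (e1.trans h9.le)
    linarith [e2.1]
  have h11 : (∑ π ∈ sparts (univ : Finset (Fin n)) (n / 50), trm n u E π) =
      ((n - 1).factorial : ℝ) * (Gs (n / 50) n (u : ℂ) E).re := by
    have e1 := congrArg Complex.re (small_eq u E (n / 50))
    rw [Complex.ofReal_re] at e1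
    rw [e1]
    have : ((n - 1).factorial : ℂ) = (((n - 1).factorial : ℝ) : ℂ) := by push_cast; rfl
    rw [this, Complex.re_ofReal_mul]
  rw [h11, div_eq_mul_one_div]
  refine mul_le_mul_of_nonneg_left (le_trans ?_ h10) (by positivity)
  have h12 : Real.exp (-(L / 20) - 2) ≤ F := by
    refine le_trans (Real.exp_le_exp.2 ?_) hF
    linarith
  have h13 : 1 / (n : ℝ) = Real.exp (-L) := by
    rw [Real.exp_neg, Real.exp_log hn0, one_div]
  have h14 : 2 * Real.exp (-L) ≤ Real.exp (-(L / 20) - 2) := by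
    have e1 : (2 : ℝ) ≤ Real.exp 1 := by have := Real.exp_one_gt_d9; linarith
    calc 2 * Real.exp (-L) ≤ Real.exp 1 * Real.exp (-L) :=
          mul_le_mul_of_nonneg_right e1 (Real.exp_pos _).le
      _ = Real.exp (1 + -L) := by rw [← Real.exp_add]
      _ ≤ _ := Real.exp_le_exp.2 (by linarith)
  rw [h13]
  linarith

theorem Sd_mono {n : ℕ} {P Q : Finset (Finset (Fin n)) → Prop} {v v' : ℝ} (hv : 0 ≤ v)
    (hvv : v ≤ v') (h : ∀ π ∈ parts univ, P π → Q π) (E : Finset (Sym2 (Fin n))) :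
    Sd n P v E ≤ Sd n Q v' E := by
  classical
  unfold Sd
  calc _ ≤ ∑ π ∈ (parts univ).filter P, ((π.card - 1).factorial : ℝ) * v' ^ (E ∩ intr π).card := by
        refine sum_le_sum (fun π _ => ?_)
        exact mul_le_mul_of_nonneg_left (pow_le_pow_left₀ hv hvv _) (by positivity)
    _ ≤ _ := by
        refine sum_le_sum_of_subset_of_nonneg ?_ (fun π _ _ => ?_)
        · intro π hπ
          rw [mem_filter] at hπ ⊢
          exact ⟨hπ.1, h π hπ.1 hπ.2⟩
        · have : 0 ≤ v' := hv.trans hvv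
          positivity

theorem Sc_mono {n : ℕ} {P : Finset (Finset (Fin n)) → Prop} {v v' : ℝ} (hv : 0 ≤ v)
    (hvv : v ≤ v') (E : Finset (Sym2 (Fin n))) :
    Sc n P v E ≤ Sc n P v' E := by
  unfold Sc
  refine sum_le_sum (fun π _ => ?_)
  exact mul_le_mul_of_nonneg_left (pow_le_pow_left₀ hv hvv _) (by positivity)

/-- sums of terms are controlled by `Sd` -/
theorem abs_sum_trm {n : ℕ} {u : ℝ} (hu : 0 ≤ u) (E : Finset (Sym2 (Fin n)))
    (P : Finset (Finset (Fin n)) → Prop) [DecidablePred P] :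
    |∑ π ∈ (parts univ).filter P, trm n u E π| ≤ Sd n P u E := by
  refine (abs_sum_le_sum_abs _ _).trans (le_of_eq ?_)
  unfold Sd
  refine sum_congr ?_ (fun π _ => abs_trm hu E π)
  ext π; simp

theorem Sd_eq_Sc {n : ℕ} {u : ℝ} (hu : 0 < u) (E : Finset (Sym2 (Fin n)))
    (P : Finset (Finset (Fin n)) → Prop) :
    Sd n P u E = u ^ E.card * Sc n P (1 / u) E := by
  unfold Sd Sc
  rw [mul_sum]
  refine sum_congr rfl (fun π _ => ?_)
  have h1 : E.card = (E ∩ intr π).card + (E \ intr π).card := (card_inter_add_card_sdiff E _).symm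
  rw [h1, pow_add, one_div, inv_pow]
  field_simp

/-- the trivial partition -/
theorem trm_top {n : ℕ} {E : Finset (Sym2 (Fin n))} (hE : E ⊆ pairs univ)
    (hpar : Even (n - 1 + E.card)) (u : ℝ) : trm n u E {univ} = u ^ E.card := by
  unfold trm
  have h1 : intr ({univ} : Finset (Finset (Fin n))) = pairs univ := by
    unfold intr; rw [singleton_biUnion]
  rw [h1, inter_eq_left.2 hE, card_singleton, Nat.sub_self, Nat.factorial_zero, Nat.cast_one,
    mul_one, neg_pow u, ← mul_assoc, ← pow_add, hpar.neg_one_pow, one_mul]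

/-- the positive part coming from the trivial partition -/
theorem large_nonneg {n : ℕ} {E : Finset (Sym2 (Fin n))} (hE : E ⊆ pairs univ)
    (hpar : Even (n - 1 + E.card)) {u : ℝ} (hu : 0 < u) (hn : 0 < n)
    (P : Finset (Finset (Fin n)) → Prop) [DecidablePred P] (hP : P {univ})
    (h : Sc n (fun π => π ≠ {univ} ∧ P π) (1 / u) E < 1) :
    0 < ∑ π ∈ (parts univ).filter P, trm n u E π := by
  have hne : Nonempty (Fin n) := ⟨⟨0, hn⟩⟩
  have hmem : ({univ} : Finset (Finset (Fin n))) ∈ (parts (univ : Finset (Fin n))).filter P :=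
    mem_filter.2 ⟨singleton_mem_parts univ_nonempty, hP⟩
  rw [← Finset.add_sum_erase _ _ hmem, trm_top hE hpar]
  have h1 : ((parts (univ : Finset (Fin n))).filter P).erase {univ} =
      (parts (univ : Finset (Fin n))).filter (fun π => π ≠ {univ} ∧ P π) := by
    ext π
    rw [mem_erase, mem_filter, mem_filter]
    tauto
  rw [h1]
  have h2 := abs_sum_trm hu.le E (fun π => π ≠ {univ} ∧ P π)
  rw [Sd_eq_Sc hu] at h2
  have h3 : u ^ E.card * Sc n (fun π => π ≠ {univ} ∧ P π) (1 / u) E < u ^ E.card := by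
    have : 0 < u ^ E.card := by positivity
    calc _ < u ^ E.card * 1 := mul_lt_mul_of_pos_left h this
      _ = _ := mul_one _
  have h4 := abs_le.1 h2
  linarith [h4.1]

/-- positivity of the alternating sum -/
theorem H_pos {n : ℕ} (H : Tech2 n) {E : Finset (Sym2 (Fin n))} (hE : E ⊆ pairs univ)
    (hpar : Even (n - 1 + E.card)) (h1 : ¬ Bad1 n E) (h2 : ¬ Bad2 n E) (h3 : ¬ Bad3 n E)
    (h4 : ¬ Bad4 n E) (h5 : ¬ Bad5 n E) (h6 : ¬ Bad6 n E) {u : ℝ} (hu : 1 ≤ u) :
    0 < Hr n u E := by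
  classical
  have hn0 := H.pos
  have hn2 := H.T.n2
  have hu0 : 0 < u := by linarith
  have hu5 := uu_pos H (c := 5) (by norm_num)
  have hu7 := uu_pos H (c := 7 / 2) (by norm_num)
  unfold Hr
  rcases le_or_gt (uu 5 n) u with hc | hc
  · -- beyond the first threshold
    have e1 : Sc n (fun π => π ≠ {univ} ∧ True) (1 / u) E < 1 := by
      unfold Bad1 at h1
      push Not at h1
      refine lt_of_le_of_lt ?_ h1
      have : (fun π : Finset (Finset (Fin n)) => π ≠ {univ} ∧ True) = (fun π => π ≠ {univ}) := by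
        funext π; simp
      rw [this]
      exact Sc_mono (by positivity) (one_div_le_one_div_of_le (by linarith) hc) E
    have e2 := large_nonneg hE hpar hu0 (by omega) (fun _ => True) trivial e1
    simpa using e2
  · have hsm := small_lower H hE h5 h6 hu hc.le
    have hsplit : ∑ π ∈ parts (univ : Finset (Fin n)), trm n u E π =
        ∑ π ∈ sparts (univ : Finset (Fin n)) (n / 50), trm n u E π +
        ∑ π ∈ (parts univ).filter (fun π => ¬ ∀ B ∈ π, B.card ≤ n / 50), trm n u E π := by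
      rw [← Finset.sum_filter_add_sum_filter_not (parts univ) (fun π => ∀ B ∈ π, B.card ≤ n / 50)]
      congr 1
      refine sum_congr ?_ (fun _ _ => rfl)
      ext π; simp [sparts]
    rw [hsplit]
    have hne : Nonempty (Fin n) := ⟨⟨0, by omega⟩⟩
    have hmax : ∀ π ∈ parts (univ : Finset (Fin n)), ∃ B ∈ π, ∀ C ∈ π, C.card ≤ B.card := by
      intro π hπ
      exact Finset.exists_max_image π Finset.card (Finset.card_pos.1 (card_pos univ_nonempty hπ))
    rcases le_or_gt (uu (7 / 2) n) u with hd | hd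
    · -- between the thresholds
      have hsplit2 : ∑ π ∈ (parts univ).filter (fun π => ¬ ∀ B ∈ π, B.card ≤ n / 50),
          trm n u E π =
          ∑ π ∈ (parts univ).filter (fun π => ∃ B ∈ π, 2 * n < 3 * B.card), trm n u E π +
          ∑ π ∈ (parts univ).filter (fun π => (¬ ∀ B ∈ π, B.card ≤ n / 50) ∧
            ¬ ∃ B ∈ π, 2 * n < 3 * B.card), trm n u E π := by
        rw [← Finset.sum_filter_add_sum_filter_not
          ((parts univ).filter (fun π => ¬ ∀ B ∈ π, B.card ≤ n / 50))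
          (fun π => ∃ B ∈ π, 2 * n < 3 * B.card), filter_filter, filter_filter]
        congr 1
        refine sum_congr ?_ (fun _ _ => rfl)
        refine filter_congr (fun π _ => ?_)
        constructor
        · exact fun h => h.2
        · rintro ⟨B, hB, hB2⟩
          refine ⟨?_, B, hB, hB2⟩
          intro hall
          have := hall B hB
          omega
      rw [hsplit2]
      have e1 : 0 < ∑ π ∈ (parts univ).filter (fun π => ∃ B ∈ π, 2 * n < 3 * B.card),
          trm n u E π := by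
        refine large_nonneg hE hpar hu0 (by omega) (fun π => ∃ B ∈ π, 2 * n < 3 * B.card)
          ⟨univ, mem_singleton_self _, ?_⟩ ?_
        · rw [card_univ, Fintype.card_fin]; omega
        · unfold Bad2 at h2
          push Not at h2
          refine lt_of_le_of_lt ?_ h2
          exact Sc_mono (by positivity) (one_div_le_one_div_of_le (by linarith) hd) E
      have e2 := abs_sum_trm hu0.le E (fun π => (¬ ∀ B ∈ π, B.card ≤ n / 50) ∧
            ¬ ∃ B ∈ π, 2 * n < 3 * B.card)
      have e3 : Sd n (fun π => (¬ ∀ B ∈ π, B.card ≤ n / 50) ∧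
            ¬ ∃ B ∈ π, 2 * n < 3 * B.card) u E < ((n - 1).factorial : ℝ) / n := by
        unfold Bad3 at h3
        push Not at h3
        refine lt_of_le_of_lt ?_ h3
        refine Sd_mono hu0.le hc.le ?_ E
        rintro π hπ ⟨hA, hB⟩
        obtain ⟨B, hBπ, hBmax⟩ := hmax π hπ
        refine ⟨B, hBπ, ⟨?_, ?_⟩, hBmax⟩
        · push Not at hA
          obtain ⟨C, hC, hC2⟩ := hA
          exact lt_of_lt_of_le hC2 (hBmax C hC)
        · push Not at hB
          exact hB B hBπ
      have e4 := abs_le.1 e2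
      linarith [e4.1]
    · have e2 := abs_sum_trm hu0.le E (fun π => ¬ ∀ B ∈ π, B.card ≤ n / 50)
      have e3 : Sd n (fun π => ¬ ∀ B ∈ π, B.card ≤ n / 50) u E < ((n - 1).factorial : ℝ) / n := by
        unfold Bad4 at h4
        push Not at h4
        refine lt_of_le_of_lt ?_ h4
        refine Sd_mono hu0.le hd.le ?_ E
        rintro π hπ hA
        obtain ⟨B, hBπ, hBmax⟩ := hmax π hπ
        refine ⟨B, hBπ, ?_, hBmax⟩
        push Not at hA
        obtain ⟨C, hC, hC2⟩ := hA
        exact lt_of_lt_of_le hC2 (hBmax C hC)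
      have e4 := abs_le.1 e2
      linarith [e4.1]

end RelRoots
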