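import Pool.Agent.Lib.MP_ccdac2_co.Moments

/-!
Uniform control of a random holomorphic function from its second moment on a circle.
-/

set_option linter.unusedSectionVars false
set_option linter.unusedSimpArgs false

namespace RelRoots

open Finset MeasureTheory

/-- a holomorphic function is bounded on the half disc by its mean over the circle -/
theorem cauchy_bound {f : ℂ → ℂ} (hf : Differentiable ℂ f) {c w : ℂ} {R : ℝ} (hR : 0 < R)
    (hw : ‖w - c‖ ≤ R / 2) :
    ‖f w‖ ≤ (1 / Real.pi) * ∫ θ in (0)..(2 * Real.pi), ‖f (circleMap c R θ)‖ := by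
  have hpi := Real.pi_pos
  have hwb : w ∈ Metric.ball c R := by
    rw [Metric.mem_ball, dist_eq_norm]; linarith
  have h1 := (hf.differentiableOn (s := Metric.closedBall c R)).circleIntegral_sub_inv_smul hwb
  have h2 : ‖∮ z in C(c, R), (z - w)⁻¹ • f z‖ = 2 * Real.pi * ‖f w‖ := by
    rw [h1, norm_smul]
    simp [abs_of_pos hpi]
  have h3 : ‖∮ z in C(c, R), (z - w)⁻¹ • f z‖ ≤
      ∫ θ in (0)..(2 * Real.pi), 2 * ‖f (circleMap c R θ)‖ := by
    unfold circleIntegral
    refine (intervalIntegral.norm_integral_le_integral_norm (by positivity)).trans ?_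
    have hne : ∀ θ : ℝ, circleMap c R θ - w ≠ 0 := by
      intro θ h
      have h4 : ‖circleMap c R θ - c‖ = R := by
        rw [circleMap_sub_center, norm_circleMap_zero, abs_of_pos hR]
      have h5 : circleMap c R θ = w := sub_eq_zero.1 h
      rw [h5] at h4
      linarith
    have hcont : Continuous fun θ : ℝ => f (circleMap c R θ) :=
      hf.continuous.comp (continuous_circleMap c R)
    refine intervalIntegral.integral_mono_on (by positivity) ?_ ?_ ?_
    · refine Continuous.intervalIntegrable ?_ _ _
      have hder : Continuous (fun θ => deriv (circleMap c R) θ) := by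
        have : (fun θ => deriv (circleMap c R) θ) = fun θ => circleMap 0 R θ * Complex.I := by
          funext θ; rw [deriv_circleMap]
        rw [this]
        exact (continuous_circleMap 0 R).mul continuous_const
      have hinv : Continuous (fun θ : ℝ => (circleMap c R θ - w)⁻¹) :=
        Continuous.inv₀ ((continuous_circleMap c R).sub continuous_const) hne
      exact (hder.smul (hinv.smul hcont)).norm
    · exact (hcont.norm.const_mul 2).intervalIntegrable _ _
    · intro θ _
      rw [norm_smul, norm_smul, deriv_circleMap, norm_mul, norm_circleMap_zero, Complex.norm_I,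
        mul_one, abs_of_pos hR, norm_inv, ← mul_assoc]
      refine mul_le_mul_of_nonneg_right ?_ (norm_nonneg _)
      have h4 : ‖circleMap c R θ - c‖ = R := by
        rw [circleMap_sub_center, norm_circleMap_zero, abs_of_pos hR]
      have h5 : R / 2 ≤ ‖circleMap c R θ - w‖ := by
        have : circleMap c R θ - c = (circleMap c R θ - w) + (w - c) := by ring
        have h6 := norm_add_le (circleMap c R θ - w) (w - c)
        rw [← this, h4] at h6
        linarith
      rw [mul_inv_le_iff₀ (by linarith)]
      linarith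
  rw [h2, intervalIntegral.integral_const_mul] at h3
  rw [one_div, inv_mul_eq_div, le_div_iff₀ hpi]
  linarith

/-- the same for the square of the norm -/
theorem cauchy_bound_sq {f : ℂ → ℂ} (hf : Differentiable ℂ f) {c w : ℂ} {R : ℝ} (hR : 0 < R)
    (hw : ‖w - c‖ ≤ R / 2) :
    ‖f w‖ ^ 2 ≤ (1 / Real.pi) * ∫ θ in (0)..(2 * Real.pi), ‖f (circleMap c R θ)‖ ^ 2 := by
  have h := cauchy_bound (f := fun z => f z ^ 2) (hf.pow 2) hR hw
  simpa only [norm_pow] using h

variable {ε : Type*} [DecidableEq ε]

/-- probability that a random holomorphic function is large somewhere in the half disc -/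
theorem Pr_sup_le {E0 : Finset ε} (X : Finset ε → ℂ → ℂ) (hX : ∀ E, Differentiable ℂ (X E))
    {c : ℂ} {R B q : ℝ} (hR : 0 < R) (hq : 0 < q)
    (hB : ∀ z : ℂ, ‖z - c‖ = R → Ex E0 (fun E => ‖X E z‖ ^ 2) ≤ B) :
    Pr E0 (fun E => ∃ w : ℂ, ‖w - c‖ ≤ R / 2 ∧ q ≤ ‖X E w‖ ^ 2) ≤ 2 * B / q := by
  have hpi := Real.pi_pos
  have hcont : ∀ E, Continuous fun θ : ℝ => ‖X E (circleMap c R θ)‖ ^ 2 := fun E =>
    (((hX E).continuous.comp (continuous_circleMap c R)).norm).pow 2
  have h1 : Pr E0 (fun E => ∃ w : ℂ, ‖w - c‖ ≤ R / 2 ∧ q ≤ ‖X E w‖ ^ 2) ≤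
      Pr E0 (fun E => q ≤ (1 / Real.pi) *
        ∫ θ in (0)..(2 * Real.pi), ‖X E (circleMap c R θ)‖ ^ 2) := by
    refine Pr_mono (fun E _ hE => ?_)
    obtain ⟨w, hw, hq'⟩ := hE
    exact hq'.trans (cauchy_bound_sq (hX E) hR hw)
  refine h1.trans ((markov (fun E _ => ?_) hq).trans ?_)
  · refine mul_nonneg (by positivity) ?_
    exact intervalIntegral.integral_nonneg (by positivity) (fun θ _ => by positivity)
  · refine div_le_div_of_nonneg_right ?_ hq.le
    rw [Ex_const_mul]
    have h2 : Ex E0 (fun E => ∫ θ in (0)..(2 * Real.pi), ‖X E (circleMap c R θ)‖ ^ 2) =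
        ∫ θ in (0)..(2 * Real.pi), Ex E0 (fun E => ‖X E (circleMap c R θ)‖ ^ 2) := by
      unfold Ex
      rw [← intervalIntegral.integral_finsetSum, intervalIntegral.integral_div]
      intro E _
      exact (hcont E).intervalIntegrable _ _
    rw [h2]
    have h3 : ∫ θ in (0)..(2 * Real.pi), Ex E0 (fun E => ‖X E (circleMap c R θ)‖ ^ 2) ≤
        ∫ θ in (0)..(2 * Real.pi), B := by
      refine intervalIntegral.integral_mono_on (by positivity) ?_ ?_ ?_
      · refine Continuous.intervalIntegrable ?_ _ _
        unfold Ex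
        refine Continuous.div_const ?_ _
        exact continuous_finsetSum _ (fun E _ => hcont E)
      · exact continuous_const.intervalIntegrable _ _
      · intro θ _
        refine hB _ ?_
        rw [circleMap_sub_center, norm_circleMap_zero, abs_of_pos hR]
    rw [intervalIntegral.integral_const, smul_eq_mul, sub_zero] at h3
    calc _ ≤ 1 / Real.pi * (2 * Real.pi * B) :=
          mul_le_mul_of_nonneg_left h3 (by positivity)
      _ = 2 * B := by field_simp

end RelRoots
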