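import Pool.Agent.Lib.MP_ccdac2_co.Parts

/-!
Uniform random subset of a finite edge set: first and second moments.
-/

set_option linter.unusedSectionVars false
set_option linter.unusedSimpArgs false

namespace RelRoots

open Finset

variable {ε : Type*} [DecidableEq ε]

/-- average over the subsets of `E0` -/
noncomputable def Ex (E0 : Finset ε) (f : Finset ε → ℝ) : ℝ :=
  (∑ E ∈ E0.powerset, f E) / 2 ^ E0.card

theorem Ex_nonneg {E0 : Finset ε} {f : Finset ε → ℝ} (h : ∀ E ⊆ E0, 0 ≤ f E) : 0 ≤ Ex E0 f := by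
  unfold Ex
  refine div_nonneg (sum_nonneg (fun E hE => h E (mem_powerset.1 hE))) (by positivity)

theorem Ex_mono {E0 : Finset ε} {f g : Finset ε → ℝ} (h : ∀ E ⊆ E0, f E ≤ g E) :
    Ex E0 f ≤ Ex E0 g := by
  unfold Ex
  exact div_le_div_of_nonneg_right (sum_le_sum (fun E hE => h E (mem_powerset.1 hE)))
    (by positivity)

theorem Ex_add (E0 : Finset ε) (f g : Finset ε → ℝ) :
    Ex E0 (fun E => f E + g E) = Ex E0 f + Ex E0 g := by
  unfold Ex
  rw [sum_add_distrib, add_div]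

theorem Ex_const_mul (E0 : Finset ε) (c : ℝ) (f : Finset ε → ℝ) :
    Ex E0 (fun E => c * f E) = c * Ex E0 f := by
  unfold Ex
  rw [← mul_sum, mul_div_assoc]

theorem Ex_sum {ι : Type*} (E0 : Finset ε) (I : Finset ι) (f : ι → Finset ε → ℝ) :
    Ex E0 (fun E => ∑ i ∈ I, f i E) = ∑ i ∈ I, Ex E0 (f i) := by
  unfold Ex
  rw [sum_comm, sum_div]

theorem Ex_const (E0 : Finset ε) (c : ℝ) : Ex E0 (fun _ => c) = c := by
  unfold Ex
  rw [sum_const, card_powerset, nsmul_eq_mul]
  push_cast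
  field_simp

/-- the proportion of subsets of `E0` satisfying `P` -/
noncomputable def Pr (E0 : Finset ε) (P : Finset ε → Prop) : ℝ := by
  classical exact Ex E0 (fun E => if P E then 1 else 0)

theorem Pr_nonneg (E0 : Finset ε) (P : Finset ε → Prop) : 0 ≤ Pr E0 P := by
  unfold Pr
  refine Ex_nonneg (fun E _ => ?_)
  split_ifs <;> norm_num

theorem Pr_mono {E0 : Finset ε} {P Q : Finset ε → Prop} (h : ∀ E ⊆ E0, P E → Q E) :
    Pr E0 P ≤ Pr E0 Q := by
  unfold Pr
  refine Ex_mono (fun E hE => ?_)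
  by_cases hP : P E
  · rw [if_pos hP, if_pos (h E hE hP)]
  · rw [if_neg hP]; split_ifs <;> norm_num

theorem Pr_or_le (E0 : Finset ε) (P Q : Finset ε → Prop) :
    Pr E0 (fun E => P E ∨ Q E) ≤ Pr E0 P + Pr E0 Q := by
  unfold Pr
  rw [← Ex_add]
  refine Ex_mono (fun E _ => ?_)
  by_cases hP : P E <;> by_cases hQ : Q E <;> simp [hP, hQ]

theorem Pr_exists_le {ι : Type*} (E0 : Finset ε) (I : Finset ι) (P : ι → Finset ε → Prop) :
    Pr E0 (fun E => ∃ i ∈ I, P i E) ≤ ∑ i ∈ I, Pr E0 (P i) := by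
  classical
  unfold Pr
  rw [← Ex_sum]
  refine Ex_mono (fun E _ => ?_)
  by_cases h : ∃ i ∈ I, P i E
  · rw [if_pos h]
    obtain ⟨i, hi, hP⟩ := h
    calc (1 : ℝ) = (if P i E then (1 : ℝ) else 0) := by rw [if_pos hP]
      _ ≤ _ := single_le_sum (f := fun i => if P i E then (1 : ℝ) else 0)
          (fun j _ => by split_ifs <;> norm_num) hi
  · rw [if_neg h]
    exact sum_nonneg (fun j _ => by split_ifs <;> norm_num)

/-- Markov -/
theorem markov {E0 : Finset ε} {f : Finset ε → ℝ} (h : ∀ E ⊆ E0, 0 ≤ f E) {c : ℝ} (hc : 0 < c) :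
    Pr E0 (fun E => c ≤ f E) ≤ Ex E0 f / c := by
  rw [div_eq_inv_mul, ← Ex_const_mul]
  unfold Pr
  refine Ex_mono (fun E hE => ?_)
  split_ifs with h1
  · rw [inv_mul_eq_div, le_div_iff₀ hc]; simpa using h1
  · exact mul_nonneg (inv_nonneg.2 hc.le) (h E hE)

theorem sum_powerset_prod {R : Type*} [CommRing R] (E0 : Finset ε) (p q : ε → R) :
    ∑ E ∈ E0.powerset, ∏ e ∈ E0, (if e ∈ E then p e else q e) = ∏ e ∈ E0, (p e + q e) := by
  rw [Finset.prod_add]
  refine sum_congr rfl (fun E hE => ?_)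
  rw [mem_powerset] at hE
  rw [← Finset.prod_sdiff hE, mul_comm]
  congr 1
  · exact prod_congr rfl (fun e he => by rw [if_pos he])
  · exact prod_congr rfl (fun e he => by rw [if_neg (mem_sdiff.1 he).2])

/-- extend a product over `J ⊆ E0` to `E0` -/
theorem prod_extend {R : Type*} [CommRing R] {E0 J : Finset ε} (hJ : J ⊆ E0) (f : ε → R) :
    ∏ e ∈ J, f e = ∏ e ∈ E0, (if e ∈ J then f e else 1) := by
  rw [← Finset.prod_sdiff hJ]
  have h1 : ∏ e ∈ E0 \ J, (if e ∈ J then f e else 1) = 1 := by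
    refine prod_eq_one (fun e he => ?_)
    rw [if_neg (mem_sdiff.1 he).2]
  rw [h1, one_mul]
  exact prod_congr rfl (fun e he => by rw [if_pos he])

/-- first moment -/
theorem Ex_pow_inter {E0 J : Finset ε} (hJ : J ⊆ E0) (u : ℝ) :
    Ex E0 (fun E => u ^ (E ∩ J).card) = ((1 + u) / 2) ^ J.card := by
  unfold Ex
  have h1 : ∀ E ∈ E0.powerset, u ^ (E ∩ J).card =
      ∏ e ∈ E0, (if e ∈ E then (if e ∈ J then u else 1) else 1) := by
    intro E hE
    rw [mem_powerset] at hE
    have : u ^ (E ∩ J).card = ∏ e ∈ E ∩ J, u := by rw [prod_const]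
    rw [this, prod_extend (E0 := E0) (J := E ∩ J) (inter_subset_left.trans hE)]
    refine prod_congr rfl (fun e _ => ?_)
    by_cases h : e ∈ E <;> by_cases h' : e ∈ J <;> simp [h, h']
  rw [sum_congr rfl h1, sum_powerset_prod E0 (fun e => if e ∈ J then u else 1) (fun _ => 1)]
  have h2 : ∏ e ∈ E0, ((if e ∈ J then u else 1) + 1) =
      2 ^ E0.card * ((1 + u) / 2) ^ J.card := by
    have h3 : ((1 + u) / 2) ^ J.card = ∏ e ∈ E0, (if e ∈ J then ((1 + u) / 2) else 1) := by
      rw [← prod_extend hJ, prod_const]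
    have h4 : (2 : ℝ) ^ E0.card = ∏ e ∈ E0, (2 : ℝ) := by rw [prod_const]
    rw [h3, h4, ← prod_mul_distrib]
    refine prod_congr rfl (fun e _ => ?_)
    split_ifs <;> ring
  rw [h2]
  field_simp

/-- edge variable -/
noncomputable def wt (u : ℂ) (E : Finset ε) (e : ε) : ℂ := if e ∈ E then -u else 1

/-- second moment bound -/
theorem second_moment {ι : Type*} {E0 : Finset ε} (I : Finset ι) (J : ι → Finset ε)
    (hJ : ∀ i ∈ I, J i ⊆ E0) (d : ι → ℝ) (u : ℂ) {a κ : ℝ}
    (ha : ‖1 - u‖ / 2 ≤ a) (hκ : (1 + ‖u‖ ^ 2) / 2 ≤ κ) :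
    Ex E0 (fun E => ‖∑ i ∈ I, (d i : ℂ) * ∏ e ∈ J i, wt u E e‖ ^ 2) ≤
      ∑ i ∈ I, ∑ j ∈ I, |d i| * |d j| * (κ ^ (J i ∩ J j).card *
        a ^ ((J i \ J j).card + (J j \ J i).card)) := by
  have ha0 : 0 ≤ a := le_trans (by positivity) ha
  have hκ0 : 0 ≤ κ := le_trans (by positivity) hκ
  -- expectation of the product of two monomials
  have key : ∀ i ∈ I, ∀ j ∈ I,
      ‖∑ E ∈ E0.powerset, (∏ e ∈ J i, wt u E e) * (starRingEnd ℂ) (∏ e ∈ J j, wt u E e)‖ ≤
        2 ^ E0.card * (κ ^ (J i ∩ J j).card * a ^ ((J i \ J j).card + (J j \ J i).card)) := by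
    intro i hi j hj
    have h1 : ∀ E ∈ E0.powerset,
        (∏ e ∈ J i, wt u E e) * (starRingEnd ℂ) (∏ e ∈ J j, wt u E e) =
        ∏ e ∈ E0, (if e ∈ E then ((if e ∈ J i then -u else 1) *
          (if e ∈ J j then -(starRingEnd ℂ) u else 1)) else 1) := by
      intro E _
      rw [map_prod, prod_extend (hJ i hi), prod_extend (hJ j hj), ← prod_mul_distrib]
      refine prod_congr rfl (fun e _ => ?_)
      unfold wt
      by_cases h1 : e ∈ E <;> by_cases h2 : e ∈ J i <;> by_cases h3 : e ∈ J j <;>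
        simp [h1, h2, h3]
    rw [sum_congr rfl h1, sum_powerset_prod E0 (fun e => (if e ∈ J i then -u else 1) *
          (if e ∈ J j then -(starRingEnd ℂ) u else 1)) (fun _ => 1), norm_prod]
    have h2 : (2 : ℝ) ^ E0.card * (κ ^ (J i ∩ J j).card *
        a ^ ((J i \ J j).card + (J j \ J i).card)) =
        ∏ e ∈ E0, (2 * ((if e ∈ J i ∩ J j then κ else 1) *
          ((if e ∈ J i \ J j then a else 1) * (if e ∈ J j \ J i then a else 1)))) := by
      rw [prod_mul_distrib, prod_mul_distrib, prod_mul_distrib, prod_const, pow_add]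
      rw [← prod_extend (inter_subset_left.trans (hJ i hi)),
        ← prod_extend (sdiff_subset.trans (hJ i hi)), ← prod_extend (sdiff_subset.trans (hJ j hj))]
      simp only [prod_const]
    rw [h2]
    refine prod_le_prod (fun e _ => norm_nonneg _) (fun e _ => ?_)
    by_cases hi' : e ∈ J i <;> by_cases hj' : e ∈ J j
    · simp only [hi', hj', if_true, mem_inter, mem_sdiff, and_self, not_true_eq_false, and_false,
        if_false, mul_one]
      have : -u * -(starRingEnd ℂ) u + 1 = ((‖u‖ ^ 2 + 1 : ℝ) : ℂ) := by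
        have := Complex.mul_conj' u
        push_cast
        rw [neg_mul_neg, this]
      rw [this, Complex.norm_real, Real.norm_eq_abs, abs_of_nonneg (by positivity)]
      linarith
    · simp only [hi', hj', if_true, mem_inter, mem_sdiff, and_false, false_and,
        if_false, mul_one, one_mul, not_false_eq_true, and_self]
      have : -u + 1 = 1 - u := by ring
      rw [this]; linarith
    · simp only [hi', hj', if_true, mem_inter, mem_sdiff, and_true, false_and,
        if_false, mul_one, one_mul, not_false_eq_true, and_self]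
      have : -(starRingEnd ℂ) u + 1 = (starRingEnd ℂ) (1 - u) := by
        rw [map_sub, map_one]; ring
      rw [this, RCLike.norm_conj]; linarith
    · simp only [hi', hj', mem_inter, mem_sdiff, false_and,
        if_false, mul_one]
      norm_num
  -- expand the square
  have h3 : ∀ E : Finset ε, (‖∑ i ∈ I, (d i : ℂ) * ∏ e ∈ J i, wt u E e‖ ^ 2 : ℝ) =
      (∑ i ∈ I, ∑ j ∈ I, ((d i : ℂ) * (d j : ℂ)) * ((∏ e ∈ J i, wt u E e) *
        (starRingEnd ℂ) (∏ e ∈ J j, wt u E e))).re := by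
    intro E
    have h4 : ((‖∑ i ∈ I, (d i : ℂ) * ∏ e ∈ J i, wt u E e‖ ^ 2 : ℝ) : ℂ) =
        (∑ i ∈ I, (d i : ℂ) * ∏ e ∈ J i, wt u E e) *
          (starRingEnd ℂ) (∑ i ∈ I, (d i : ℂ) * ∏ e ∈ J i, wt u E e) := by
      rw [Complex.mul_conj']; push_cast; rfl
    have h5 := congrArg Complex.re h4
    rw [Complex.ofReal_re] at h5
    rw [h5]
    congr 1
    rw [map_sum, sum_mul_sum]
    refine sum_congr rfl (fun i _ => sum_congr rfl (fun j _ => ?_))
    rw [map_mul, Complex.conj_ofReal]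
    ring
  unfold Ex
  rw [div_le_iff₀ (by positivity)]
  calc ∑ E ∈ E0.powerset, ‖∑ i ∈ I, (d i : ℂ) * ∏ e ∈ J i, wt u E e‖ ^ 2
      = (∑ i ∈ I, ∑ j ∈ I, ((d i : ℂ) * (d j : ℂ)) * ∑ E ∈ E0.powerset,
          ((∏ e ∈ J i, wt u E e) * (starRingEnd ℂ) (∏ e ∈ J j, wt u E e))).re := by
        simp_rw [h3]
        rw [← Complex.re_sum]
        congr 1
        rw [sum_comm]
        refine sum_congr rfl (fun i _ => ?_)
        rw [sum_comm]
        refine sum_congr rfl (fun j _ => ?_)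
        rw [mul_sum]
    _ ≤ ‖∑ i ∈ I, ∑ j ∈ I, ((d i : ℂ) * (d j : ℂ)) * ∑ E ∈ E0.powerset,
          ((∏ e ∈ J i, wt u E e) * (starRingEnd ℂ) (∏ e ∈ J j, wt u E e))‖ :=
        Complex.re_le_norm _
    _ ≤ ∑ i ∈ I, ∑ j ∈ I, |d i| * |d j| * (2 ^ E0.card * (κ ^ (J i ∩ J j).card *
          a ^ ((J i \ J j).card + (J j \ J i).card))) := by
        refine (norm_sum_le _ _).trans (sum_le_sum (fun i hi => ?_))
        refine (norm_sum_le _ _).trans (sum_le_sum (fun j hj => ?_))
        rw [norm_mul, norm_mul, Complex.norm_real, Complex.norm_real, Real.norm_eq_abs,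
          Real.norm_eq_abs]
        exact mul_le_mul_of_nonneg_left (key i hi j hj) (by positivity)
    _ = _ := by
        rw [sum_mul]
        refine sum_congr rfl (fun i _ => ?_)
        rw [sum_mul]
        refine sum_congr rfl (fun j _ => ?_)
        ring

end RelRoots
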