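import Pool.Agent.Lib.MP_ccdac2_co.Count2
import Pool.Agent.Lib.MP_ccdac2_co.Moments

/-!
First moment bounds: the contribution of set partitions with a large block.
-/

set_option linter.unusedSectionVars false
set_option linter.unusedSimpArgs false

namespace RelRoots

open Finset

variable {α : Type*} [DecidableEq α]

theorem Ex_congr {ε : Type*} [DecidableEq ε] {E0 : Finset ε} {f g : Finset ε → ℝ}
    (h : ∀ E ⊆ E0, f E = g E) : Ex E0 f = Ex E0 g := by
  unfold Ex
  congr 1
  exact sum_congr rfl (fun E hE => h E (mem_powerset.1 hE))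

/-- expectation of the complementary monomial -/
theorem Ex_pow_sdiff {S : Finset α} {π : Finset (Finset α)} (hπ : π ∈ parts S) (v : ℝ) :
    Ex (pairs S) (fun E => v ^ (E \ intr π).card) =
      ((1 + v) / 2) ^ ((pairs S).card - (intr π).card) := by
  rw [← card_sdiff_of_subset (intr_subset hπ), ← Ex_pow_inter sdiff_subset]
  refine Ex_congr (fun E hE => ?_)
  congr 2
  ext e
  simp only [mem_sdiff, mem_inter]
  constructor
  · rintro ⟨h1, h2⟩; exact ⟨h1, hE h1, h2⟩
  · rintro ⟨h1, _, h2⟩; exact ⟨h1, h2⟩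

theorem geom_le {δ : ℝ} (h0 : 0 ≤ δ) (h1 : δ ≤ 1 / 2) (k : ℕ) :
    ∑ b ∈ Icc 1 k, δ ^ b ≤ 2 * δ := by
  have h2 : ∀ k : ℕ, ∑ b ∈ Icc 1 k, δ ^ b ≤ 2 * δ * (1 - (1 / 2) ^ k) := by
    intro k
    induction k with
    | zero => simp
    | succ k ih =>
      rw [Finset.sum_Icc_succ_top (by omega)]
      have h3 : δ ^ (k + 1) ≤ δ * (1 / 2) ^ k := by
        rw [pow_succ, mul_comm]
        exact mul_le_mul_of_nonneg_left (pow_le_pow_left₀ h0 h1 k) h0
      have h4 : (1 / 2 : ℝ) ^ (k + 1) = (1 / 2) ^ k / 2 := by rw [pow_succ]; ring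
      rw [h4]
      nlinarith
  refine (h2 k).trans ?_
  have : 0 ≤ (1 / 2 : ℝ) ^ k := by positivity
  nlinarith

/-- the number of ordered set partitions -/
theorem Osum_one_le (S : Finset α) :
    Osum (fun _ => 1) S ≤ (S.card.factorial : ℝ) * 2 ^ S.card := by
  refine Osum_le (fun _ => zero_le_one) two_pos (K := S.card) (fun k _ => ?_) S.card le_rfl S rfl
  calc ∑ b ∈ Icc 1 k, (1 : ℝ) / ((b.factorial : ℝ) * 2 ^ b) ≤ ∑ b ∈ Icc 1 k, (1 / 2 : ℝ) ^ b := by
        refine sum_le_sum (fun b _ => ?_)
        rw [div_pow, one_pow]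
        refine div_le_div_of_nonneg_left zero_le_one (by positivity) ?_
        have : (1 : ℝ) ≤ b.factorial := by exact_mod_cast Nat.one_le_iff_ne_zero.2 b.factorial_ne_zero
        have h2 : (0 : ℝ) < 2 ^ b := by positivity
        nlinarith
    _ ≤ 2 * (1 / 2) := geom_le (by norm_num) (by norm_num) k
    _ = 1 := by norm_num

/-- partitions with a large block, complementary form -/
theorem large_sum {n : ℕ} {S : Finset α} (hS : S.card = n) (hSn : S.Nonempty)
    (P : Finset (Finset α) → Prop)
    [DecidablePred P] (hP : ¬ P {S}) {w z : ℝ} (hw0 : 0 ≤ w) (hz : 0 ≤ z)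
    (h : ∀ B ⊆ S, B.Nonempty → ∀ θ ∈ parts (S \ B), (∀ C ∈ θ, C.card ≤ B.card) →
      P (insert B θ) → w ^ ((pairs S).card - (intr (insert B θ)).card) ≤ z ^ (n - B.card)) :
    ∑ π ∈ (parts S).filter P,
      ((π.card - 1).factorial : ℝ) * w ^ ((pairs S).card - (intr π).card) ≤
      ∑ s ∈ Icc 1 n, (2 * n * z) ^ s := by
  classical
  rw [sum_filter]
  refine (sum_maxblock hSn (fun π => if P π then
    ((π.card - 1).factorial : ℝ) * w ^ ((pairs S).card - (intr π).card) else 0)
    (fun π => by split_ifs; exacts [by positivity, le_rfl])).trans ?_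
  -- each block
  have h1 : ∀ B ∈ S.powerset.erase ∅,
      ∑ θ ∈ (parts (S \ B)).filter (fun θ => ∀ C ∈ θ, C.card ≤ B.card),
        (if P (insert B θ) then (((insert B θ).card - 1).factorial : ℝ) *
          w ^ ((pairs S).card - (intr (insert B θ)).card) else 0) ≤
      (if B.card = 0 ∨ B.card = n then 0 else
        ((n - B.card).factorial : ℝ) * 2 ^ (n - B.card) * z ^ (n - B.card)) := by
    intro B hB
    rw [mem_erase, mem_powerset] at hB
    have hBn : B.Nonempty := Finset.nonempty_iff_ne_empty.2 hB.1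
    have hBc := hBn.card_pos
    have hBle : B.card ≤ n := hS ▸ card_le_card hB.2
    by_cases hBS : B.card = n
    · rw [if_pos (Or.inr hBS)]
      have hBS' : B = S := eq_of_subset_of_card_le hB.2 (by rw [hS, hBS])
      subst hBS'
      refine (sum_nonpos (fun θ hθ => ?_))
      rw [mem_filter, sdiff_self, bot_eq_empty, parts_empty, mem_singleton] at hθ
      rw [hθ.1]
      have : ¬ P (insert B ∅) := by simpa using hP
      rw [if_neg this]
    · rw [if_neg (by omega)]
      calc _ ≤ ∑ θ ∈ (parts (S \ B)).filter (fun θ => ∀ C ∈ θ, C.card ≤ B.card),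
            (θ.card.factorial : ℝ) * z ^ (n - B.card) := by
            refine sum_le_sum (fun θ hθ => ?_)
            rw [mem_filter] at hθ
            split_ifs with hPi
            · rw [card_insert_block hBn hθ.1, Nat.add_sub_cancel]
              exact mul_le_mul_of_nonneg_left (h B hB.2 hBn θ hθ.1 hθ.2 hPi) (by positivity)
            · positivity
        _ ≤ ∑ θ ∈ parts (S \ B), (θ.card.factorial : ℝ) * z ^ (n - B.card) :=
            sum_le_sum_of_subset_of_nonneg (filter_subset _ _) (fun _ _ _ => by positivity)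
        _ = Osum (fun _ => 1) (S \ B) * z ^ (n - B.card) := by
            unfold Osum
            rw [sum_mul]
            refine sum_congr rfl (fun θ _ => ?_)
            simp
        _ ≤ _ := by
            refine mul_le_mul_of_nonneg_right ?_ (by positivity)
            have := Osum_one_le (S \ B)
            rwa [card_sdiff_of_subset hB.2, hS] at this
  refine (sum_le_sum h1).trans ?_
  have h2 : ∑ B ∈ S.powerset.erase ∅, (if B.card = 0 ∨ B.card = n then (0 : ℝ) else
        ((n - B.card).factorial : ℝ) * 2 ^ (n - B.card) * z ^ (n - B.card)) =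
      ∑ B ∈ S.powerset, (if B.card = 0 ∨ B.card = n then (0 : ℝ) else
        ((n - B.card).factorial : ℝ) * 2 ^ (n - B.card) * z ^ (n - B.card)) := by
    apply sum_erase
    simp
  rw [h2, Finset.sum_powerset_apply_card (fun b => if b = 0 ∨ b = n then (0 : ℝ) else
        ((n - b).factorial : ℝ) * 2 ^ (n - b) * z ^ (n - b)), hS, Finset.sum_range_succ]
  have h3 : n.choose n • (if n = 0 ∨ n = n then (0 : ℝ) else
      ((n - n).factorial : ℝ) * 2 ^ (n - n) * z ^ (n - n)) = 0 := by simp
  rw [h3, add_zero]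
  have h4 : ∑ s ∈ Icc 1 n, (2 * n * z) ^ s = ∑ b ∈ range n, (2 * n * z) ^ (n - b) := by
    refine (Finset.sum_nbij' (fun b => n - b) (fun s => n - s) ?_ ?_ ?_ ?_ ?_).symm
    · intro b hb; rw [mem_range] at hb; rw [mem_Icc]; omega
    · intro s hs; rw [mem_Icc] at hs; rw [mem_range]; omega
    · intro b hb; rw [mem_range] at hb; omega
    · intro s hs; rw [mem_Icc] at hs; omega
    · intro b _; rfl
  rw [h4]
  refine sum_le_sum (fun b hb => ?_)
  rw [mem_range] at hb
  split_ifs with hb0
  · simp only [smul_zero]; positivity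
  · rw [nsmul_eq_mul]
    have h5 : (n.choose b : ℝ) * ((n - b).factorial : ℝ) ≤ (n : ℝ) ^ (n - b) := by
      have h6 := Nat.descFactorial_le_pow n (n - b)
      rw [Nat.descFactorial_eq_factorial_mul_choose, Nat.choose_symm hb.le] at h6
      have h7 : (n.choose b) * (n - b).factorial ≤ n ^ (n - b) := by rw [mul_comm]; exact h6
      exact_mod_cast h7
    calc (n.choose b : ℝ) * (((n - b).factorial : ℝ) * 2 ^ (n - b) * z ^ (n - b)) =
        ((n.choose b : ℝ) * ((n - b).factorial : ℝ)) * (2 ^ (n - b) * z ^ (n - b)) := by ring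
      _ ≤ (n : ℝ) ^ (n - b) * (2 ^ (n - b) * z ^ (n - b)) :=
          mul_le_mul_of_nonneg_right h5 (by positivity)
      _ = (2 * n * z) ^ (n - b) := by rw [mul_pow, mul_pow]; ring

/-- all partitions different from the trivial one -/
theorem large_sum1 {n : ℕ} {S : Finset α} (hS : S.card = n) (hSn : S.Nonempty)
    {w z : ℝ} (hw0 : 0 ≤ w) (hw1 : w ≤ 1) (hz : 0 ≤ z) (hwz : w ^ n ≤ z ^ 2)
    [DecidablePred (fun π : Finset (Finset α) => π ≠ {S})] :
    ∑ π ∈ (parts S).filter (fun π => π ≠ {S}),
      ((π.card - 1).factorial : ℝ) * w ^ ((pairs S).card - (intr π).card) ≤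
      ∑ s ∈ Icc 1 n, (2 * n * z) ^ s := by
  refine large_sum hS hSn (fun π => π ≠ {S}) (by simp) hw0 hz ?_
  intro B hBS hBn θ hθ hmax _
  have h1 := cross_bound1 (π := insert B θ) (S := S) (b := B.card)
    (insert_mem_parts hBn hBS hθ) (by
      intro C hC
      rw [mem_insert] at hC
      rcases hC with rfl | hC
      · exact le_rfl
      · exact hmax C hC)
  rw [hS] at h1
  have h2 : n * (n - B.card) ≤ ((pairs S).card - (intr (insert B θ)).card) * 2 := by omega
  have h3 : (w ^ ((pairs S).card - (intr (insert B θ)).card)) ^ 2 ≤ (z ^ (n - B.card)) ^ 2 := by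
    rw [← pow_mul]
    calc w ^ (((pairs S).card - (intr (insert B θ)).card) * 2) ≤ w ^ (n * (n - B.card)) :=
          pow_le_pow_of_le_one hw0 hw1 h2
      _ = (w ^ n) ^ (n - B.card) := by rw [pow_mul]
      _ ≤ (z ^ 2) ^ (n - B.card) := pow_le_pow_left₀ (by positivity) hwz _
      _ = _ := by rw [← pow_mul, ← pow_mul, mul_comm]
  exact le_of_pow_le_pow_left₀ (by norm_num) (by positivity) h3

/-- nontrivial partitions with a block bigger than `2n/3` -/
theorem large_sum2 {n : ℕ} {S : Finset α} (hS : S.card = n) (hSn : S.Nonempty)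
    {w z : ℝ} (hw0 : 0 ≤ w) (hw1 : w ≤ 1) (hz : 0 ≤ z) (hwz : w ^ (2 * n) ≤ z ^ 3)
    [DecidablePred (fun π : Finset (Finset α) => π ≠ {S} ∧ ∃ B ∈ π, 2 * n < 3 * B.card)] :
    ∑ π ∈ (parts S).filter (fun π => π ≠ {S} ∧ ∃ B ∈ π, 2 * n < 3 * B.card),
      ((π.card - 1).factorial : ℝ) * w ^ ((pairs S).card - (intr π).card) ≤
      ∑ s ∈ Icc 1 n, (2 * n * z) ^ s := by
  refine large_sum hS hSn (fun π => π ≠ {S} ∧ ∃ B ∈ π, 2 * n < 3 * B.card) (by simp) hw0 hz ?_
  intro B hBS hBn θ hθ hmax hP
  obtain ⟨_, C, hC, hC2⟩ := hP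
  have hB3 : 2 * n < 3 * B.card := by
    rw [mem_insert] at hC
    rcases hC with rfl | hC
    · exact hC2
    · have := hmax C hC; omega
  have h1 := cross_bound2 hBS hθ
  rw [hS] at h1
  have h2 : 2 * n * (n - B.card) ≤ ((pairs S).card - (intr (insert B θ)).card) * 3 := by
    have h3 : 2 * n * (n - B.card) ≤ 3 * B.card * (n - B.card) :=
      Nat.mul_le_mul_right _ hB3.le
    have h4 : 3 * B.card * (n - B.card) = (B.card * (n - B.card)) * 3 := by ring
    omega
  have h3 : (w ^ ((pairs S).card - (intr (insert B θ)).card)) ^ 3 ≤ (z ^ (n - B.card)) ^ 3 := by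
    rw [← pow_mul]
    calc w ^ (((pairs S).card - (intr (insert B θ)).card) * 3) ≤ w ^ (2 * n * (n - B.card)) :=
          pow_le_pow_of_le_one hw0 hw1 h2
      _ = (w ^ (2 * n)) ^ (n - B.card) := by rw [pow_mul]
      _ ≤ (z ^ 3) ^ (n - B.card) := pow_le_pow_left₀ (by positivity) hwz _
      _ = _ := by rw [← pow_mul, ← pow_mul, mul_comm]
  exact le_of_pow_le_pow_left₀ (by norm_num) (by positivity) h3

/-- partitions whose maximal block size satisfies `Q` -/
theorem mid_sum {n : ℕ} {S : Finset α} (hS : S.card = n) (hSn : S.Nonempty) (Q : ℕ → Prop)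
    [DecidablePred Q] {y X : ℝ} (hy : 1 ≤ y) (hX : 1 ≤ X)
    (hO : ∀ k ≤ n, ∑ b ∈ Icc 1 k, (if 2 * b ≤ n then y ^ (b.choose 2) else 0) /
      ((b.factorial : ℝ) * X ^ b) ≤ 1)
    [DecidablePred (fun π : Finset (Finset α) => ∃ B ∈ π, Q B.card ∧ ∀ C ∈ π, C.card ≤ B.card)] :
    ∑ π ∈ (parts S).filter (fun π => ∃ B ∈ π, Q B.card ∧ ∀ C ∈ π, C.card ≤ B.card),
      ((π.card - 1).factorial : ℝ) * y ^ (intr π).card ≤
      ∑ b ∈ (range (n + 1)).filter Q,
        (n.factorial : ℝ) / (b.factorial : ℝ) * X ^ (n - b) * y ^ (b.choose 2) := by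
  classical
  have hy0 : 0 ≤ y := zero_le_one.trans hy
  have hX0 : 0 < X := lt_of_lt_of_le one_pos hX
  rw [sum_filter]
  refine (sum_maxblock hSn (fun π => if (∃ B ∈ π, Q B.card ∧ ∀ C ∈ π, C.card ≤ B.card) then
    ((π.card - 1).factorial : ℝ) * y ^ (intr π).card else 0)
    (fun π => by split_ifs; exacts [by positivity, le_rfl])).trans ?_
  have h1 : ∀ B ∈ S.powerset.erase ∅,
      ∑ θ ∈ (parts (S \ B)).filter (fun θ => ∀ C ∈ θ, C.card ≤ B.card),
        (if (∃ B' ∈ insert B θ, Q B'.card ∧ ∀ C ∈ insert B θ, C.card ≤ B'.card) then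
          (((insert B θ).card - 1).factorial : ℝ) * y ^ (intr (insert B θ)).card else 0) ≤
      (if Q B.card then ((n - B.card).factorial : ℝ) * X ^ (n - B.card) * y ^ (B.card.choose 2)
        else 0) := by
    intro B hB
    rw [mem_erase, mem_powerset] at hB
    have hBn : B.Nonempty := Finset.nonempty_iff_ne_empty.2 hB.1
    have hBc := hBn.card_pos
    have hBle : B.card ≤ n := hS ▸ card_le_card hB.2
    by_cases hQ : Q B.card
    · rw [if_pos hQ]
      calc _ ≤ ∑ θ ∈ (parts (S \ B)).filter (fun θ => ∀ C ∈ θ, C.card ≤ B.card),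
            (θ.card.factorial : ℝ) * (∏ C ∈ θ, (if 2 * C.card ≤ n then y ^ (C.card.choose 2) else 0))
              * y ^ (B.card.choose 2) := by
            refine sum_le_sum (fun θ hθ => ?_)
            rw [mem_filter] at hθ
            have hpr : ∏ C ∈ θ, (if 2 * C.card ≤ n then y ^ (C.card.choose 2) else 0) =
                y ^ (intr θ).card := by
              rw [card_intr hθ.1, ← prod_pow_eq_pow_sum]
              refine prod_congr rfl (fun C hC => ?_)
              rw [if_pos]
              have h3 := hθ.2 C hC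
              have h4 : C.card ≤ (S \ B).card := card_le_card (subset_of_mem hθ.1 hC)
              rw [card_sdiff_of_subset hB.2, hS] at h4
              omega
            rw [hpr, card_insert_block hBn hθ.1, Nat.add_sub_cancel, intr_insert,
              card_union_of_disjoint (disjoint_intr hθ.1), card_pairs, pow_add]
            split_ifs
            · refine le_of_eq ?_; ring
            · positivity
        _ ≤ ∑ θ ∈ parts (S \ B),
            (θ.card.factorial : ℝ) * (∏ C ∈ θ, (if 2 * C.card ≤ n then y ^ (C.card.choose 2) else 0))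
              * y ^ (B.card.choose 2) := by
            refine sum_le_sum_of_subset_of_nonneg (filter_subset _ _) (fun θ _ _ => ?_)
            refine mul_nonneg (mul_nonneg (by positivity) (prod_nonneg (fun C _ => ?_)))
              (by positivity)
            split_ifs; exacts [by positivity, le_rfl]
        _ = Osum (fun b => if 2 * b ≤ n then y ^ (b.choose 2) else 0) (S \ B) *
              y ^ (B.card.choose 2) := by
            unfold Osum
            rw [sum_mul]
        _ ≤ _ := by
            refine mul_le_mul_of_nonneg_right ?_ (by positivity)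
            refine Osum_le (fun b => by split_ifs; exacts [by positivity, le_rfl]) hX0 (K := n)
              hO (n - B.card) (by omega) (S \ B) ?_
            rw [card_sdiff_of_subset hB.2, hS]
    · rw [if_neg hQ]
      refine (sum_nonpos (fun θ hθ => ?_))
      rw [mem_filter] at hθ
      rw [if_neg]
      rintro ⟨B', hB', hQ', hmax⟩
      have h2 : B'.card = B.card := by
        refine le_antisymm ?_ (hmax B (mem_insert_self _ _))
        rw [mem_insert] at hB'
        rcases hB' with rfl | hB'
        · exact le_rfl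
        · exact hθ.2 B' hB'
      rw [h2] at hQ'
      exact hQ hQ'
  refine (sum_le_sum h1).trans ?_
  refine (sum_le_sum_of_subset_of_nonneg (erase_subset _ _) (fun B _ _ => by
    split_ifs; exacts [by positivity, le_rfl])).trans ?_
  rw [Finset.sum_powerset_apply_card (fun b => if Q b then
    ((n - b).factorial : ℝ) * X ^ (n - b) * y ^ (b.choose 2) else 0), hS, sum_filter]
  refine sum_le_sum (fun b hb => ?_)
  rw [mem_range] at hb
  split_ifs
  · rw [nsmul_eq_mul]
    refine le_of_eq ?_
    have hf1 : (n.choose b : ℝ) * (b.factorial : ℝ) * ((n - b).factorial : ℝ) =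
        (n.factorial : ℝ) := by
      exact_mod_cast Nat.choose_mul_factorial_mul_factorial (by omega : b ≤ n)
    have hbf : (b.factorial : ℝ) ≠ 0 := by positivity
    rw [← hf1]
    field_simp
  · simp

end RelRoots
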