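import Pool.Agent.Lib.MP_ccdac2_co.Num2
import Pool.Agent.Lib.MP_ccdac2_co.First
import Pool.Agent.Lib.MP_ccdac2_co.Cauchy

/-!
The exceptional events and their probabilities.
-/

set_option linter.unusedSectionVars false
set_option linter.unusedSimpArgs false

namespace RelRoots

open Finset Filter

/-- conditions for large `n` -/
structure Tech2 (n : ℕ) : Prop where
  T : Tech n
  L : 12000 ≤ Real.log n

theorem ev_tech2 : ∀ᶠ n : ℕ in atTop, Tech2 n := by
  filter_upwards [ev_tech, tendsto_logn.eventually (eventually_ge_atTop (12000 : ℝ))] with n h1 h2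
  exact ⟨h1, h2⟩

theorem Tech2.pos {n : ℕ} (H : Tech2 n) : (0 : ℝ) < n := by
  exact_mod_cast (by have := H.T.n2; omega : 0 < n)

theorem Tech2.sq {n : ℕ} (H : Tech2 n) : 400 * Real.log n ^ 2 ≤ n := by
  have h1 := H.T.J0
  have h2 := H.L
  nlinarith

theorem Tech2.sqn {n : ℕ} (H : Tech2 n) : 400 * (Real.log n ^ 2 / n) ≤ 1 := by
  rw [← mul_div_assoc, div_le_one H.pos]
  exact H.sq

theorem exp_neg_le_quarter {x : ℝ} (hx : 3 ≤ x) : Real.exp (-x) ≤ 1 / 4 := by
  rw [Real.exp_neg, ← one_div]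
  refine div_le_div_of_nonneg_left zero_le_one (by norm_num) ?_
  linarith [Real.add_one_le_exp x]

/-- `5 log n / n` threshold -/
noncomputable def uu (c : ℝ) (n : ℕ) : ℝ := 1 + c * Real.log n / n

theorem uu_pos {n : ℕ} (H : Tech2 n) {c : ℝ} (hc : 0 ≤ c) : 1 ≤ uu c n := by
  unfold uu
  have h1 := H.L
  have h2 := H.pos
  have : 0 ≤ c * Real.log n / n := by positivity
  linarith

theorem w_le {x : ℝ} (hx : 0 ≤ x) : (1 + 1 / (1 + x)) / 2 ≤ Real.exp (-(x / 2) + x ^ 2 / 2) := by
  have h1 : 1 / (1 + x) ≤ 1 - x + x ^ 2 := by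
    rw [div_le_iff₀ (by linarith)]
    have : 0 ≤ x ^ 3 := by positivity
    nlinarith
  have h2 := Real.add_one_le_exp (-(x / 2) + x ^ 2 / 2)
  linarith

open Classical in
/-- sum over partitions satisfying `P`, complementary weights -/
noncomputable def Sc (n : ℕ) (P : Finset (Finset (Fin n)) → Prop) (v : ℝ)
    (E : Finset (Sym2 (Fin n))) : ℝ :=
  ∑ π ∈ (parts univ).filter P, ((π.card - 1).factorial : ℝ) * v ^ (E \ intr π).card

open Classical in
/-- sum over partitions satisfying `P` -/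
noncomputable def Sd (n : ℕ) (P : Finset (Finset (Fin n)) → Prop) (v : ℝ)
    (E : Finset (Sym2 (Fin n))) : ℝ :=
  ∑ π ∈ (parts univ).filter P, ((π.card - 1).factorial : ℝ) * v ^ (E ∩ intr π).card

theorem Ex_Sc (n : ℕ) (P : Finset (Finset (Fin n)) → Prop) [DecidablePred P] (v : ℝ) :
    Ex (pairs univ) (Sc n P v) = ∑ π ∈ (parts univ).filter P,
      ((π.card - 1).factorial : ℝ) *
        ((1 + v) / 2) ^ ((pairs (univ : Finset (Fin n))).card - (intr π).card) := by
  classical
  have : Sc n P v = fun E => ∑ π ∈ (parts univ).filter P,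
      ((π.card - 1).factorial : ℝ) * v ^ (E \ intr π).card := by
    funext E
    unfold Sc
    refine sum_congr ?_ (fun _ _ => rfl)
    ext π; simp
  rw [this, Ex_sum]
  refine sum_congr rfl (fun π hπ => ?_)
  rw [Ex_const_mul, Ex_pow_sdiff (mem_filter.1 hπ).1]

theorem Ex_Sd (n : ℕ) (P : Finset (Finset (Fin n)) → Prop) [DecidablePred P] (v : ℝ) :
    Ex (pairs univ) (Sd n P v) = ∑ π ∈ (parts univ).filter P,
      ((π.card - 1).factorial : ℝ) * ((1 + v) / 2) ^ (intr π).card := by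
  classical
  have : Sd n P v = fun E => ∑ π ∈ (parts univ).filter P,
      ((π.card - 1).factorial : ℝ) * v ^ (E ∩ intr π).card := by
    funext E
    unfold Sd
    refine sum_congr ?_ (fun _ _ => rfl)
    ext π; simp
  rw [this, Ex_sum]
  refine sum_congr rfl (fun π hπ => ?_)
  rw [Ex_const_mul, Ex_pow_inter (intr_subset (mem_filter.1 hπ).1)]

theorem Sc_nonneg (n : ℕ) (P : Finset (Finset (Fin n)) → Prop) {v : ℝ} (hv : 0 ≤ v)
    (E : Finset (Sym2 (Fin n))) : 0 ≤ Sc n P v E :=
  sum_nonneg (fun _ _ => by positivity)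

theorem Sd_nonneg (n : ℕ) (P : Finset (Finset (Fin n)) → Prop) {v : ℝ} (hv : 0 ≤ v)
    (E : Finset (Sym2 (Fin n))) : 0 ≤ Sd n P v E :=
  sum_nonneg (fun _ _ => by positivity)

/-- the first bad event -/
def Bad1 (n : ℕ) (E : Finset (Sym2 (Fin n))) : Prop :=
  1 ≤ Sc n (fun π => π ≠ {univ}) (1 / uu 5 n) E

theorem Pr_bad1 {n : ℕ} (H : Tech2 n) :
    Pr (pairs univ) (Bad1 n) ≤ 4 * Real.exp (-(Real.log n / 4) + 1 / 2) := by
  classical
  have hn0 := H.pos
  have hL := H.L
  set L := Real.log n with hLdef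
  have hu := uu_pos H (c := 5) (by norm_num)
  have hv0 : 0 ≤ 1 / uu 5 n := by positivity
  have hv1 : 1 / uu 5 n ≤ 1 := by rw [div_le_one (by linarith)]; exact hu
  have hexpn : Real.exp L = n := Real.exp_log hn0
  set z := Real.exp (-(5 / 4 * L) + 1 / 2) with hz
  have hn2 : 2 ≤ n := by have := H.T.n2; omega
  have : Nonempty (Fin n) := ⟨⟨0, by omega⟩⟩
  have hwz : ((1 + 1 / uu 5 n) / 2) ^ n ≤ z ^ 2 := by
    have hx : 0 ≤ 5 * L / n := by positivity
    have h1 := w_le hx
    have h2 : ((1 + 1 / uu 5 n) / 2) ^ n ≤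
        Real.exp (-(5 * L / n / 2) + (5 * L / n) ^ 2 / 2) ^ n :=
      pow_le_pow_left₀ (by positivity) h1 n
    refine h2.trans ?_
    rw [← Real.exp_nat_mul, hz, ← Real.exp_nat_mul]
    refine Real.exp_le_exp.2 ?_
    have h3 : (n : ℝ) * (-(5 * L / n / 2) + (5 * L / n) ^ 2 / 2) =
        -(5 / 2 * L) + 25 / 2 * (L ^ 2 / n) := by field_simp; ring
    rw [h3]
    have := H.sqn
    push_cast
    nlinarith [div_nonneg (sq_nonneg L) hn0.le]
  have h1 := markov (E0 := pairs univ) (f := Sc n (fun π => π ≠ {univ}) (1 / uu 5 n))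
    (fun E _ => Sc_nonneg n _ hv0 E) one_pos
  refine h1.trans ?_
  rw [div_one, Ex_Sc]
  refine (large_sum1 (n := n) (by simp) univ_nonempty (by positivity)
    (by linarith) (Real.exp_pos _).le hwz).trans ?_
  have h2 : 2 * (n : ℝ) * z = 2 * Real.exp (-(L / 4) + 1 / 2) := by
    rw [mul_assoc]
    congr 1
    nth_rewrite 1 [← hexpn]
    rw [hz, ← Real.exp_add]
    congr 1; ring
  rw [h2]
  refine (geom_le (by positivity) ?_ n).trans (le_of_eq (by ring))
  have h3 := exp_neg_le_quarter (x := L / 4 - 1 / 2) (by linarith)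
  have h4 : -(L / 4 - 1 / 2) = -(L / 4) + 1 / 2 := by ring
  rw [h4] at h3
  linarith

/-- the second bad event -/
def Bad2 (n : ℕ) (E : Finset (Sym2 (Fin n))) : Prop :=
  1 ≤ Sc n (fun π => π ≠ {univ} ∧ ∃ B ∈ π, 2 * n < 3 * B.card) (1 / uu (7 / 2) n) E

theorem Pr_bad2 {n : ℕ} (H : Tech2 n) :
    Pr (pairs univ) (Bad2 n) ≤ 4 * Real.exp (-(Real.log n / 6) + 1 / 3) := by
  classical
  have hn0 := H.pos
  have hL := H.L
  set L := Real.log n with hLdef
  have hu := uu_pos H (c := 7 / 2) (by norm_num)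
  have hv0 : 0 ≤ 1 / uu (7 / 2) n := by positivity
  have hv1 : 1 / uu (7 / 2) n ≤ 1 := by rw [div_le_one (by linarith)]; exact hu
  have hexpn : Real.exp L = n := Real.exp_log hn0
  set z := Real.exp (-(7 / 6 * L) + 1 / 3) with hz
  have hn2 : 2 ≤ n := by have := H.T.n2; omega
  have : Nonempty (Fin n) := ⟨⟨0, by omega⟩⟩
  have hwz : ((1 + 1 / uu (7 / 2) n) / 2) ^ (2 * n) ≤ z ^ 3 := by
    have hx : 0 ≤ 7 / 2 * L / n := by positivity
    have h1 := w_le hx
    have h2 : ((1 + 1 / uu (7 / 2) n) / 2) ^ (2 * n) ≤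
        Real.exp (-(7 / 2 * L / n / 2) + (7 / 2 * L / n) ^ 2 / 2) ^ (2 * n) :=
      pow_le_pow_left₀ (by positivity) h1 _
    refine h2.trans ?_
    rw [← Real.exp_nat_mul, hz, ← Real.exp_nat_mul]
    refine Real.exp_le_exp.2 ?_
    have h3 : ((2 * n : ℕ) : ℝ) * (-(7 / 2 * L / n / 2) + (7 / 2 * L / n) ^ 2 / 2) =
        -(7 / 2 * L) + 49 / 4 * (L ^ 2 / n) := by push_cast; field_simp; ring
    rw [h3]
    have := H.sqn
    push_cast
    nlinarith [div_nonneg (sq_nonneg L) hn0.le]
  have h1 := markov (E0 := pairs univ)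
    (f := Sc n (fun π => π ≠ {univ} ∧ ∃ B ∈ π, 2 * n < 3 * B.card) (1 / uu (7 / 2) n))
    (fun E _ => Sc_nonneg n _ hv0 E) one_pos
  refine h1.trans ?_
  rw [div_one, Ex_Sc]
  refine (large_sum2 (n := n) (by simp) univ_nonempty (by positivity)
    (by linarith) (Real.exp_pos _).le hwz).trans ?_
  have h2 : 2 * (n : ℝ) * z = 2 * Real.exp (-(L / 6) + 1 / 3) := by
    rw [mul_assoc]
    congr 1
    nth_rewrite 1 [← hexpn]
    rw [hz, ← Real.exp_add]
    congr 1; ring
  rw [h2]
  refine (geom_le (by positivity) ?_ n).trans (le_of_eq (by ring))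
  have h3 := exp_neg_le_quarter (x := L / 6 - 1 / 3) (by linarith)
  have h4 : -(L / 6 - 1 / 3) = -(L / 6) + 1 / 3 := by ring
  rw [h4] at h3
  linarith

theorem inv_factorial_le {b : ℕ} (hb : 1 ≤ b) :
    1 / (b.factorial : ℝ) ≤ Real.exp (b * (1 - Real.log b)) := by
  have hb0 : (0 : ℝ) < b := by exact_mod_cast hb
  have h1 := Real.pow_div_factorial_le_exp (b : ℝ) hb0.le b
  have h2 : Real.exp (b * Real.log b) = (b : ℝ) ^ b := by
    rw [Real.exp_nat_mul, Real.exp_log hb0]
  have h3 : Real.exp (b * (1 - Real.log b)) = Real.exp b / (b : ℝ) ^ b := by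
    rw [← h2, ← Real.exp_sub]; congr 1; ring
  rw [h3, le_div_iff₀ (by positivity)]
  calc 1 / (b.factorial : ℝ) * (b : ℝ) ^ b = (b : ℝ) ^ b / b.factorial := by ring
    _ ≤ _ := h1

theorem pow_choose_le {x : ℝ} (hx : 0 ≤ x) (b : ℕ) :
    (1 + x) ^ (b.choose 2) ≤ Real.exp (x * (b : ℝ) ^ 2 / 2) := by
  rw [add_comm]
  refine (one_add_pow_le hx _).trans (Real.exp_le_exp.2 ?_)
  have := choose_two_le b
  nlinarith

/-- the condition for `Osum` -/
theorem Ocond {n : ℕ} (H : Tech2 n) {x : ℝ} (hx : 0 ≤ x) (hx2 : x ≤ 5 / 2 * (Real.log n / n)) :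
    ∀ k ≤ n, ∑ b ∈ Icc 1 k, (if 2 * b ≤ n then (1 + x) ^ (b.choose 2) else 0) /
      ((b.factorial : ℝ) * Real.exp (Real.log n / 600) ^ b) ≤ 1 := by
  intro k _
  have hn0 := H.pos
  have hL := H.L
  set L := Real.log n with hLdef
  have hδ : Real.exp (-(L / 1200)) ≤ 1 / 2 := by
    have := exp_neg_le_quarter (x := L / 1200) (by linarith)
    linarith
  refine le_trans ?_ ((geom_le (Real.exp_pos _).le hδ k).trans (by linarith))
  refine sum_le_sum (fun b hb => ?_)
  rw [mem_Icc] at hb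
  have hb0 : (0 : ℝ) < b := by exact_mod_cast hb.1
  split_ifs with h2b
  · have h2b' : 2 * (b : ℝ) ≤ n := by exact_mod_cast h2b
    have h1 : (1 + x) ^ (b.choose 2) ≤ Real.exp (5 / 4 * (L / n) * (b : ℝ) ^ 2) := by
      refine (pow_choose_le hx b).trans (Real.exp_le_exp.2 ?_)
      have : 0 ≤ (b : ℝ) ^ 2 := by positivity
      nlinarith
    have e1 : (1 + x) ^ (b.choose 2) / ((b.factorial : ℝ) * Real.exp (L / 600) ^ b) =
        (1 + x) ^ (b.choose 2) * (1 / (b.factorial : ℝ)) * Real.exp (b * (-(L / 600))) := by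
      rw [← Real.exp_nat_mul, mul_neg, Real.exp_neg]
      field_simp
    rw [e1, ← Real.exp_nat_mul]
    rcases le_or_gt (1500 * (b : ℝ)) n with hcase | hcase
    · have h2 : 1 / (b.factorial : ℝ) ≤ 1 := by
        rw [div_le_one (by positivity)]
        exact_mod_cast Nat.one_le_iff_ne_zero.2 b.factorial_ne_zero
      calc (1 + x) ^ (b.choose 2) * (1 / (b.factorial : ℝ)) * Real.exp (b * (-(L / 600)))
          ≤ Real.exp (5 / 4 * (L / n) * (b : ℝ) ^ 2) * 1 * Real.exp (b * (-(L / 600))) := by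
            refine mul_le_mul_of_nonneg_right ?_ (Real.exp_pos _).le
            exact mul_le_mul h1 h2 (by positivity) (Real.exp_pos _).le
        _ = Real.exp (5 / 4 * (L / n) * (b : ℝ) ^ 2 + b * (-(L / 600))) := by
            rw [mul_one, ← Real.exp_add]
        _ ≤ _ := by
            refine Real.exp_le_exp.2 ?_
            have h3 : 5 / 4 * (L / n) * (b : ℝ) ^ 2 ≤ b * (L / 1200) := by
              have : 5 / 4 * (L / n) * (b : ℝ) ^ 2 = 5 / 4 * L * b * b / n := by ring
              rw [this, div_le_iff₀ hn0]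
              have h4 : 0 ≤ L * b := by positivity
              nlinarith
            linarith
    · have hlog : L - 8 ≤ Real.log b := by
        have h3 : Real.log (n / 1500) ≤ Real.log b := by
          refine Real.log_le_log (by positivity) ?_
          rw [div_le_iff₀ (by norm_num)]; linarith
        rw [Real.log_div hn0.ne' (by norm_num)] at h3
        have h4 : Real.log 1500 ≤ 8 := by
          rw [Real.log_le_iff_le_exp (by norm_num)]
          have h5 : Real.exp 8 = Real.exp 1 ^ 8 := by rw [← Real.exp_nat_mul]; norm_num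
          have h6 : (2.7 : ℝ) ≤ Real.exp 1 := by have := Real.exp_one_gt_d9; linarith
          calc (1500 : ℝ) ≤ 2.7 ^ 8 := by norm_num
            _ ≤ Real.exp 1 ^ 8 := pow_le_pow_left₀ (by norm_num) h6 8
            _ = _ := h5.symm
        linarith
      calc (1 + x) ^ (b.choose 2) * (1 / (b.factorial : ℝ)) * Real.exp (b * (-(L / 600)))
          ≤ Real.exp (5 / 4 * (L / n) * (b : ℝ) ^ 2) * Real.exp (b * (1 - Real.log b)) *
            Real.exp (b * (-(L / 600))) := by
            refine mul_le_mul_of_nonneg_right ?_ (Real.exp_pos _).le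
            exact mul_le_mul h1 (inv_factorial_le hb.1) (by positivity) (Real.exp_pos _).le
        _ = Real.exp (5 / 4 * (L / n) * (b : ℝ) ^ 2 + b * (1 - Real.log b) + b * (-(L / 600))) := by
            rw [← Real.exp_add, ← Real.exp_add]
        _ ≤ _ := by
            refine Real.exp_le_exp.2 ?_
            have h3 : 5 / 4 * (L / n) * (b : ℝ) ^ 2 ≤ b * (5 / 8 * L) := by
              have : 5 / 4 * (L / n) * (b : ℝ) ^ 2 = 5 / 4 * L * b * b / n := by ring
              rw [this, div_le_iff₀ hn0]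
              have h4 : 0 ≤ L * b := by positivity
              nlinarith
            have h4 : (b : ℝ) * (1 - Real.log b) ≤ b * (9 - L) :=
              mul_le_mul_of_nonneg_left (by linarith) hb0.le
            have h5 : b * (5 / 8 * L) + b * (9 - L) + b * (-(L / 600)) ≤ b * (-(L / 1200)) := by
              have : b * (5 / 8 * L) + b * (9 - L) + b * (-(L / 600)) =
                b * (5 / 8 * L + (9 - L) + (-(L / 600))) := by ring
              rw [this]
              exact mul_le_mul_of_nonneg_left (by linarith) hb0.le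
            linarith
  · rw [zero_div]
    positivity

/-- the sum over the sizes of the maximal block -/
theorem mid_num {n : ℕ} (H : Tech2 n) (Q : ℕ → Prop) [DecidablePred Q] {x : ℝ} (hx : 0 ≤ x)
    (hQ : ∀ b ≤ n, Q b → n / 50 < b ∧ x * (b : ℝ) ^ 2 / 2 ≤ 7 / 8 * Real.log n * b) :
    ∑ b ∈ (range (n + 1)).filter Q, (n.factorial : ℝ) / (b.factorial : ℝ) *
      Real.exp (Real.log n / 600) ^ (n - b) * (1 + x) ^ (b.choose 2) ≤
      ((n - 1).factorial : ℝ) / n * Real.exp (-Real.log n) := by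
  have hn0 := H.pos
  have hL := H.L
  set L := Real.log n with hLdef
  have hexpn : Real.exp L = n := Real.exp_log hn0
  have hn2 := H.T.n2
  have h1 : ∀ b ∈ (range (n + 1)).filter Q, (n.factorial : ℝ) / (b.factorial : ℝ) *
      Real.exp (L / 600) ^ (n - b) * (1 + x) ^ (b.choose 2) ≤
      (n.factorial : ℝ) * Real.exp (-(n * L / 2400)) := by
    intro b hb
    rw [mem_filter, mem_range] at hb
    obtain ⟨hbn, hQb⟩ := hb
    obtain ⟨h50, hxb⟩ := hQ b (by omega) hQb
    have hb1 : 1 ≤ b := by omega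
    have hb0 : (0 : ℝ) < b := by exact_mod_cast hb1
    have h50' : (n : ℝ) < 50 * b := by exact_mod_cast (by omega : n < 50 * b)
    have hlog : L - 4 ≤ Real.log b := by
      have h3 : Real.log (n / 50) ≤ Real.log b := by
        refine Real.log_le_log (by positivity) ?_
        rw [div_le_iff₀ (by norm_num)]; linarith
      rw [Real.log_div hn0.ne' (by norm_num)] at h3
      have h4 : Real.log 50 ≤ 4 := by
        rw [Real.log_le_iff_le_exp (by norm_num)]
        have h5 : Real.exp 4 = Real.exp 1 ^ 4 := by rw [← Real.exp_nat_mul]; norm_num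
        have h6 : (2.7 : ℝ) ≤ Real.exp 1 := by have := Real.exp_one_gt_d9; linarith
        calc (50 : ℝ) ≤ 2.7 ^ 4 := by norm_num
          _ ≤ Real.exp 1 ^ 4 := pow_le_pow_left₀ (by norm_num) h6 4
          _ = _ := h5.symm
      linarith
    have hX : Real.exp (L / 600) ^ (n - b) ≤ Real.exp (n * (L / 600)) := by
      rw [← Real.exp_nat_mul]
      refine Real.exp_le_exp.2 ?_
      refine mul_le_mul_of_nonneg_right ?_ (by positivity)
      exact_mod_cast Nat.sub_le n b
    calc (n.factorial : ℝ) / (b.factorial : ℝ) * Real.exp (L / 600) ^ (n - b) *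
          (1 + x) ^ (b.choose 2)
        = (n.factorial : ℝ) * (1 / (b.factorial : ℝ) * Real.exp (L / 600) ^ (n - b) *
          (1 + x) ^ (b.choose 2)) := by ring
      _ ≤ (n.factorial : ℝ) * (Real.exp (b * (1 - Real.log b)) * Real.exp (n * (L / 600)) *
          Real.exp (x * (b : ℝ) ^ 2 / 2)) := by
          refine mul_le_mul_of_nonneg_left ?_ (by positivity)
          refine mul_le_mul ?_ (pow_choose_le hx b) (by positivity) (by positivity)
          exact mul_le_mul (inv_factorial_le hb1) hX (by positivity) (by positivity)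
      _ = (n.factorial : ℝ) * Real.exp (b * (1 - Real.log b) + n * (L / 600) +
          x * (b : ℝ) ^ 2 / 2) := by rw [← Real.exp_add, ← Real.exp_add]
      _ ≤ _ := by
          refine mul_le_mul_of_nonneg_left (Real.exp_le_exp.2 ?_) (by positivity)
          have h4 : (b : ℝ) * (1 - Real.log b) ≤ b * (5 - L) :=
            mul_le_mul_of_nonneg_left (by linarith) hb0.le
          have h5 : b * (5 - L) + 7 / 8 * L * b ≤ n * (1 / 10 - L / 400) := by
            have e1 : b * (5 - L) + 7 / 8 * L * b = b * (5 - L / 8) := by ring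
            rw [e1]
            have e2 : n * (1 / 10 - L / 400) = (n / 50) * (5 - L / 8) := by ring
            rw [e2]
            have : (n : ℝ) / 50 ≤ b := by rw [div_le_iff₀ (by norm_num)]; linarith
            have h6 : 5 - L / 8 ≤ 0 := by linarith
            nlinarith
          have h6 : n * (1 / 10 - L / 400) + n * (L / 600) ≤ -(n * L / 2400) := by
            have : n * (1 / 10 - L / 400) + n * (L / 600) = n * (1 / 10 - L / 1200) := by ring
            rw [this]
            have h7 : 1 / 10 - L / 1200 ≤ -(L / 2400) := by linarith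
            calc n * (1 / 10 - L / 1200) ≤ n * (-(L / 2400)) :=
                  mul_le_mul_of_nonneg_left h7 hn0.le
              _ = _ := by ring
          linarith
  refine (sum_le_card_nsmul _ _ _ h1).trans ?_
  rw [nsmul_eq_mul]
  have hcard : (((range (n + 1)).filter Q).card : ℝ) ≤ (n : ℝ) ^ 2 := by
    have h2 : ((range (n + 1)).filter Q).card ≤ n + 1 := by
      have := card_filter_le (range (n + 1)) Q
      rwa [card_range] at this
    have h3 : n + 1 ≤ n ^ 2 := by nlinarith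
    exact_mod_cast h2.trans h3
  have hfac : (n.factorial : ℝ) = n * ((n - 1).factorial : ℝ) := by
    rw [← Nat.cast_mul, Nat.mul_factorial_pred (by omega)]
  calc (((range (n + 1)).filter Q).card : ℝ) * ((n.factorial : ℝ) * Real.exp (-(n * L / 2400)))
      ≤ (n : ℝ) ^ 2 * ((n * ((n - 1).factorial : ℝ)) * Real.exp (-(n * L / 2400))) := by
        rw [hfac]
        exact mul_le_mul_of_nonneg_right hcard (by positivity)
    _ = ((n - 1).factorial : ℝ) / n * ((n : ℝ) ^ 4 * Real.exp (-(n * L / 2400))) := by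
        field_simp
    _ ≤ _ := by
        refine mul_le_mul_of_nonneg_left ?_ (by positivity)
        have h3 : (n : ℝ) ^ 4 = Real.exp (4 * L) := by
          rw [show (4 : ℝ) * L = ((4 : ℕ) : ℝ) * L by norm_num, Real.exp_nat_mul, hexpn]
        rw [h3, ← Real.exp_add]
        refine Real.exp_le_exp.2 ?_
        have h4 : (12000 : ℝ) ≤ n := by
          have := H.sq
          nlinarith
        have h5 : 5 * L ≤ n * L / 2400 := by
          rw [le_div_iff₀ (by norm_num)]
          nlinarith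
        linarith

/-- medium blocks -/
theorem Pr_mid {n : ℕ} (H : Tech2 n) (Q : ℕ → Prop) {c : ℝ} (hc : 0 ≤ c) (hc5 : c ≤ 5)
    (hQ : ∀ b ≤ n, Q b → n / 50 < b ∧
      c * Real.log n / n / 2 * (b : ℝ) ^ 2 / 2 ≤ 7 / 8 * Real.log n * b) :
    Pr (pairs univ) (fun E => ((n - 1).factorial : ℝ) / n ≤
      Sd n (fun π => ∃ B ∈ π, Q B.card ∧ ∀ C ∈ π, C.card ≤ B.card) (uu c n) E) ≤
      Real.exp (-Real.log n) := by
  classical
  have hn0 := H.pos
  have hL := H.L
  set L := Real.log n with hLdef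
  have hn2 : 2 ≤ n := by have := H.T.n2; omega
  have : Nonempty (Fin n) := ⟨⟨0, by omega⟩⟩
  have hu := uu_pos H hc
  have hq : 0 < ((n - 1).factorial : ℝ) / n := by positivity
  have h1 := markov (E0 := pairs univ)
    (f := Sd n (fun π => ∃ B ∈ π, Q B.card ∧ ∀ C ∈ π, C.card ≤ B.card) (uu c n))
    (fun E _ => Sd_nonneg n _ (by linarith) E) hq
  refine h1.trans ?_
  rw [div_le_iff₀ hq, Ex_Sd]
  have hx : 0 ≤ c * L / n / 2 := by positivity
  have hy : (1 + uu c n) / 2 = 1 + c * L / n / 2 := by unfold uu; ring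
  have hx2 : c * L / n / 2 ≤ 5 / 2 * (L / n) := by
    have h3 : 0 ≤ L / n := by positivity
    have : c * L / n / 2 = c / 2 * (L / n) := by ring
    rw [this]; nlinarith
  rw [hy]
  have hX1 : 1 ≤ Real.exp (L / 600) := by
    rw [← Real.exp_zero]; exact Real.exp_le_exp.2 (by positivity)
  refine (mid_sum (n := n) (by simp) univ_nonempty Q (by linarith) hX1
    (Ocond H hx hx2)).trans ?_
  refine (mid_num H Q hx hQ).trans (le_of_eq (by ring))

/-- third bad event -/
def Bad3 (n : ℕ) (E : Finset (Sym2 (Fin n))) : Prop :=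
  ((n - 1).factorial : ℝ) / n ≤
      Sd n (fun π => ∃ B ∈ π, (n / 50 < B.card ∧ 3 * B.card ≤ 2 * n) ∧
        ∀ C ∈ π, C.card ≤ B.card) (uu 5 n) E

theorem Pr_bad3 {n : ℕ} (H : Tech2 n) : Pr (pairs univ) (Bad3 n) ≤ Real.exp (-Real.log n) := by
  have hn0 := H.pos
  have hL := H.L
  refine Pr_mid H (fun b => n / 50 < b ∧ 3 * b ≤ 2 * n) (by norm_num) le_rfl ?_
  rintro b _ ⟨h1, h2⟩
  refine ⟨h1, ?_⟩
  have h3 : 3 * (b : ℝ) ≤ 2 * n := by exact_mod_cast h2
  have hb0 : (0 : ℝ) ≤ b := Nat.cast_nonneg b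
  have e : 5 * Real.log n / n / 2 * (b : ℝ) ^ 2 / 2 = 5 / 4 * (Real.log n * b) * b / n := by ring
  rw [e, div_le_iff₀ hn0]
  have h4 : 0 ≤ Real.log n * b := by positivity
  nlinarith

/-- fourth bad event -/
def Bad4 (n : ℕ) (E : Finset (Sym2 (Fin n))) : Prop :=
  ((n - 1).factorial : ℝ) / n ≤
      Sd n (fun π => ∃ B ∈ π, n / 50 < B.card ∧ ∀ C ∈ π, C.card ≤ B.card) (uu (7 / 2) n) E

theorem Pr_bad4 {n : ℕ} (H : Tech2 n) : Pr (pairs univ) (Bad4 n) ≤ Real.exp (-Real.log n) := by
  have hn0 := H.pos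
  have hL := H.L
  refine Pr_mid H (fun b => n / 50 < b) (by norm_num) (by norm_num) ?_
  rintro b hbn h1
  refine ⟨h1, ?_⟩
  have h3 : (b : ℝ) ≤ n := by exact_mod_cast hbn
  have hb0 : (0 : ℝ) ≤ b := Nat.cast_nonneg b
  have e : 7 / 2 * Real.log n / n / 2 * (b : ℝ) ^ 2 / 2 = 7 / 8 * (Real.log n * b) * b / n := by ring
  rw [e, div_le_iff₀ hn0]
  have h4 : 0 ≤ Real.log n * b := by positivity
  nlinarith

/-- fifth bad event: too few edges -/
def Bad5 (n : ℕ) (E : Finset (Sym2 (Fin n))) : Prop :=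
  (E.card : ℝ) ≤ (n.choose 2 : ℝ) / 2 - n * Real.log n / 40

theorem Pr_bad5 {n : ℕ} (H : Tech2 n) :
    Pr (pairs univ) (Bad5 n) ≤ Real.exp (1 / 16 - Real.log n / 40) := by
  classical
  have hn0 := H.pos
  have hL := H.L
  set L := Real.log n with hLdef
  set v := Real.exp (-(1 / (n : ℝ))) with hv
  have hv0 : 0 < v := Real.exp_pos _
  set c := Real.exp (-((n.choose 2 : ℝ) / (2 * n)) + L / 40) with hc
  have h1 : Pr (pairs univ) (Bad5 n) ≤
      Pr (pairs univ) (fun E : Finset (Sym2 (Fin n)) => c ≤ v ^ (E ∩ pairs univ).card) := by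
    refine Pr_mono (fun E hE hb => ?_)
    rw [inter_eq_left.2 hE, hc, hv, ← Real.exp_nat_mul]
    refine Real.exp_le_exp.2 ?_
    have h2 : (E.card : ℝ) ≤ (n.choose 2 : ℝ) / 2 - n * L / 40 := hb
    have h3 : (E.card : ℝ) * -(1 / (n : ℝ)) = -(E.card / n) := by ring
    rw [h3]
    have h4 : (E.card : ℝ) / n ≤ ((n.choose 2 : ℝ) / 2 - n * L / 40) / n :=
      div_le_div_of_nonneg_right h2 hn0.le
    have h5 : ((n.choose 2 : ℝ) / 2 - n * L / 40) / n = (n.choose 2 : ℝ) / (2 * n) - L / 40 := by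
      field_simp
    linarith
  refine h1.trans ((markov (fun E _ => by positivity) (Real.exp_pos _)).trans ?_)
  rw [Ex_pow_inter (subset_refl _), card_pairs, card_univ, Fintype.card_fin]
  have h2 : (1 + v) / 2 ≤ Real.exp (-(1 / (2 * n : ℝ)) + 1 / (8 * (n : ℝ) ^ 2)) := by
    have h3 := Real.cosh_le_exp_half_sq (1 / (2 * (n : ℝ)))
    have h4 : (1 + v) / 2 = Real.exp (-(1 / (2 * n : ℝ))) * Real.cosh (1 / (2 * (n : ℝ))) := by
      rw [Real.cosh_eq, mul_div_assoc', mul_add, ← Real.exp_add, ← Real.exp_add, hv]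
      have e1 : -(1 / (2 * (n : ℝ))) + 1 / (2 * (n : ℝ)) = 0 := by ring
      have e2 : -(1 / (2 * (n : ℝ))) + -(1 / (2 * (n : ℝ))) = -(1 / (n : ℝ)) := by
        field_simp; ring
      rw [e1, e2, Real.exp_zero]
    rw [h4, Real.exp_add]
    refine mul_le_mul_of_nonneg_left (h3.trans (le_of_eq ?_)) (Real.exp_pos _).le
    congr 1
    field_simp; ring
  rw [div_le_iff₀ (Real.exp_pos _), ← Real.exp_add]
  refine (pow_le_pow_left₀ (by positivity) h2 _).trans ?_
  rw [← Real.exp_nat_mul]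
  refine Real.exp_le_exp.2 ?_
  have h5 := choose_two_le n
  have h6 : (n.choose 2 : ℝ) * (1 / (8 * (n : ℝ) ^ 2)) ≤ 1 / 16 := by
    calc (n.choose 2 : ℝ) * (1 / (8 * (n : ℝ) ^ 2)) ≤ ((n : ℝ) ^ 2 / 2) * (1 / (8 * (n : ℝ) ^ 2)) :=
          mul_le_mul_of_nonneg_right h5 (by positivity)
      _ = 1 / 16 := by field_simp; norm_num
  have h7 : (n.choose 2 : ℝ) * -(1 / (2 * n : ℝ)) = -((n.choose 2 : ℝ) / (2 * n)) := by ring
  have h8 : (n.choose 2 : ℝ) * (-(1 / (2 * n : ℝ)) + 1 / (8 * (n : ℝ) ^ 2)) =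
    (n.choose 2 : ℝ) * -(1 / (2 * n : ℝ)) + (n.choose 2 : ℝ) * (1 / (8 * (n : ℝ) ^ 2)) := by ring
  rw [h8, h7]
  linarith

end RelRoots
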