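import Pool.Agent.Lib.MP_ccdac2_co.Bad

/-!
Uniform approximation event, and the lower bound for the comparison product.
-/

set_option linter.unusedSectionVars false
set_option linter.unusedSimpArgs false

namespace RelRoots

open Finset Filter

/-- threshold -/
noncomputable def qT (n T : ℕ) : ℝ :=
  1 / 4 * Real.exp (((T : ℝ) - 1) / 2 - Real.log n / 10 - 4)

/-- sixth bad event: the main term is not approximated by the product -/
def Bad6 (n : ℕ) (E : Finset (Sym2 (Fin n))) : Prop :=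
  ∃ T ∈ range (⌊5 * Real.log n⌋₊ + 1), ∃ w : ℂ, ‖w - (1 + (T : ℂ) / n)‖ ≤ 2 / (n : ℝ) / 2 ∧
    qT n T ≤ ‖Gs (n / 50) n w E - Fp n w E‖ ^ 2

theorem diff_wt {n : ℕ} (E : Finset (Sym2 (Fin n))) (e : Sym2 (Fin n)) :
    Differentiable ℂ (fun z : ℂ => wt z E e) := by
  unfold wt
  split_ifs
  · exact differentiable_id.neg
  · exact differentiable_const _

theorem diff_GF {n : ℕ} (bm : ℕ) (E : Finset (Sym2 (Fin n))) :
    Differentiable ℂ (fun z : ℂ => Gs bm n z E - Fp n z E) := by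
  refine Differentiable.sub ?_ ?_
  · unfold Gs
    refine Differentiable.fun_sum (fun π _ => ?_)
    refine (differentiable_const _).mul ?_
    exact Differentiable.fun_finsetProd (fun e _ => diff_wt E e)
  · unfold Fp
    refine Differentiable.fun_finsetProd (fun e _ => ?_)
    exact (differentiable_const _).add ((differentiable_const _).mul (diff_wt E e))

theorem Pr_bad6 {n : ℕ} (H : Tech2 n) :
    Pr (pairs univ) (Bad6 n) ≤
      (5 * Real.log n + 1) * (8 * Real.exp (11 / 2 - 6 / 10 * Real.log n)) := by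
  have hn0 := H.pos
  have hL := H.L
  set L := Real.log n with hLdef
  unfold Bad6
  refine (Pr_exists_le _ _ _).trans ?_
  have h1 : ∀ T ∈ range (⌊5 * L⌋₊ + 1),
      Pr (pairs univ) (fun E : Finset (Sym2 (Fin n)) => ∃ w : ℂ,
        ‖w - (1 + (T : ℂ) / n)‖ ≤ 2 / (n : ℝ) / 2 ∧
        qT n T ≤ ‖Gs (n / 50) n w E - Fp n w E‖ ^ 2) ≤ 8 * Real.exp (11 / 2 - 6 / 10 * L) := by
    intro T hT
    rw [mem_range] at hT
    have hT5 : (T : ℝ) ≤ 5 * L := by
      refine (Nat.cast_le.2 (by omega : T ≤ ⌊5 * L⌋₊)).trans (Nat.floor_le (by positivity))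
    have hq : 0 < qT n T := by unfold qT; positivity
    refine (Pr_sup_le (fun E z => Gs (n / 50) n z E - Fp n z E) (fun E => diff_GF _ E)
      (c := 1 + (T : ℂ) / n) (R := 2 / (n : ℝ))
      (B := Real.exp (((T : ℝ) + 2) / 2) * Real.exp (-(7/10) * L)) (by positivity) hq ?_).trans ?_
    · intro z hz
      refine second_final H.T (t := (T : ℝ) + 2) (by positivity) (by linarith) ?_
      have h2 : ‖1 - z‖ ≤ ‖z - (1 + (T : ℂ) / n)‖ + ‖(T : ℂ) / n‖ := by
        have h3 : 1 - z = -(z - (1 + (T : ℂ) / n)) - (T : ℂ) / n := by ring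
        rw [h3]
        refine (norm_sub_le _ _).trans ?_
        rw [norm_neg]
      have h4 : ‖(T : ℂ) / n‖ = (T : ℝ) / n := by
        rw [norm_div, Complex.norm_natCast, Complex.norm_natCast]
      rw [hz, h4] at h2
      rw [add_div]; linarith
    · rw [div_le_iff₀ hq]
      unfold qT
      rw [← Real.exp_add, ← hLdef]
      have e : 8 * Real.exp (11 / 2 - 6 / 10 * L) *
          (1 / 4 * Real.exp (((T : ℝ) - 1) / 2 - L / 10 - 4)) =
          2 * (Real.exp (11 / 2 - 6 / 10 * L) * Real.exp (((T : ℝ) - 1) / 2 - L / 10 - 4)) := by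
        ring
      rw [e, ← Real.exp_add]
      refine mul_le_mul_of_nonneg_left (Real.exp_le_exp.2 ?_) (by norm_num)
      linarith
  refine (sum_le_card_nsmul _ _ _ h1).trans ?_
  rw [card_range, nsmul_eq_mul]
  refine mul_le_mul_of_nonneg_right ?_ (by positivity)
  push_cast
  have := Nat.floor_le (a := 5 * L) (by positivity)
  linarith

/-- the comparison product for real `u` -/
theorem Fp_real {n : ℕ} {E : Finset (Sym2 (Fin n))} (hE : E ⊆ pairs univ) (u : ℝ) :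
    Fp n (u : ℂ) E =
      (((1 + u / n) ^ E.card * (1 - 1 / (n : ℝ)) ^ (n.choose 2 - E.card) : ℝ) : ℂ) := by
  unfold Fp
  rw [← Finset.prod_sdiff hE]
  have h1 : ∀ e ∈ pairs (univ : Finset (Fin n)) \ E,
      (1 + ((-1 / (n : ℝ) : ℝ) : ℂ) * wt (u : ℂ) E e) = ((1 - 1 / (n : ℝ) : ℝ) : ℂ) := by
    intro e he
    unfold wt
    rw [if_neg (mem_sdiff.1 he).2]
    push_cast; ring
  have h2 : ∀ e ∈ E,
      (1 + ((-1 / (n : ℝ) : ℝ) : ℂ) * wt (u : ℂ) E e) = ((1 + u / (n : ℝ) : ℝ) : ℂ) := by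
    intro e he
    unfold wt
    rw [if_pos he]
    push_cast; ring
  rw [prod_congr rfl h1, prod_congr rfl h2, prod_const, prod_const, card_sdiff_of_subset hE,
    card_pairs, card_univ, Fintype.card_fin]
  push_cast
  ring

theorem log_one_sub_ge {x : ℝ} (h0 : 0 ≤ x) (h1 : x ≤ 1 / 2) :
    Real.exp (-(x + x ^ 2)) ≤ 1 - x := by
  have h2 : 0 < 1 + (x + x ^ 2) + (x + x ^ 2) ^ 2 / 2 := by positivity
  have h3 := Real.quadratic_le_exp_of_nonneg (x := x + x ^ 2) (by positivity)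
  rw [Real.exp_neg]
  refine (inv_anti₀ h2 h3).trans ?_
  rw [inv_le_iff_one_le_mul₀ h2]
  have h4 : (1 - x) * (1 + (x + x ^ 2) + (x + x ^ 2) ^ 2 / 2) =
      1 + x ^ 2 * (1 - x - x ^ 2 - x ^ 3) / 2 := by ring
  rw [h4]
  have h5 : x ^ 2 ≤ 1 / 4 := by nlinarith
  have h6 : x ^ 3 ≤ 1 / 8 := by
    calc x ^ 3 ≤ (1 / 2) ^ 3 := pow_le_pow_left₀ h0 h1 3
      _ = 1 / 8 := by norm_num
  have h7 : 0 ≤ x ^ 2 * (1 - x - x ^ 2 - x ^ 3) :=
    mul_nonneg (sq_nonneg x) (by linarith)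
  linarith

theorem one_add_ge {x : ℝ} (h0 : 0 ≤ x) : Real.exp (x - x ^ 2) ≤ 1 + x := by
  have h1 : 1 - x + x ^ 2 ≤ Real.exp (-(x - x ^ 2)) := by
    linarith [Real.add_one_le_exp (-(x - x ^ 2))]
  have h2 : 0 < 1 - x + x ^ 2 := by nlinarith [sq_nonneg (x - 1)]
  have h3 : Real.exp (x - x ^ 2) = (Real.exp (-(x - x ^ 2)))⁻¹ := by
    rw [← Real.exp_neg, neg_neg]
  rw [h3]
  refine (inv_anti₀ h2 h1).trans ?_
  rw [inv_le_iff_one_le_mul₀ h2]
  have : 0 ≤ x ^ 3 := by positivity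
  nlinarith

/-- the exponent in the lower bound -/
theorem F_expo {n L t m N : ℝ} (hn12 : 12000 ≤ n) (hL : 12000 ≤ L) (hsq' : 400 * L ^ 2 ≤ n)
    (hNeq : N = n * (n - 1) / 2) (hm : N / 2 - n * L / 40 ≤ m)
    (ht0 : 0 ≤ t) (ht : t ≤ 5 * L) :
    t / 4 - L / 20 - 2 ≤
      m * ((1 + t / n) / n - ((1 + t / n) / n) ^ 2) + (N - m) * -(1 / n + (1 / n) ^ 2) := by
  have hn0 : 0 < n := by linarith
  set x := (1 + t / n) / n with hx
  set z := 1 / n with hz
  have hz0 : 0 ≤ z := by positivity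
  have hz1 : z ≤ 1 / 12000 := by
    rw [hz]; exact one_div_le_one_div_of_le (by norm_num) hn12
  have hLt : L * t ≤ 5 * L ^ 2 := by
    have := mul_le_mul_of_nonneg_left ht (by linarith : (0:ℝ) ≤ L)
    linarith [this, (by ring : L * (5 * L) = 5 * L ^ 2)]
  have hLL : L ≤ L ^ 2 / 12000 := by
    have : L * 12000 ≤ L * L := mul_le_mul_of_nonneg_left hL (by linarith)
    linarith [(by ring : L * L = L ^ 2)]
  have htn : t / n ≤ 1 / 80 := by
    rw [div_le_iff₀ hn0]
    have : L ^ 2 ≥ 0 := sq_nonneg L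
    linarith
  have htn0 : 0 ≤ t / n := by positivity
  have hx0 : 0 ≤ x := by positivity
  have hxz : x = (1 + t / n) * z := by rw [hx, hz]; ring
  have hx1 : x ≤ 2 * z := by
    rw [hxz]; exact mul_le_mul_of_nonneg_right (by linarith) hz0
  have hnz : n * z = 1 := by rw [hz]; field_simp
  have hN0 : 0 ≤ N := by
    rw [hNeq]
    have : 0 ≤ n - 1 := by linarith
    positivity
  have hN1 : N * z = (n - 1) / 2 := by
    rw [hNeq]
    have : n * (n - 1) / 2 * z = (n * z) * ((n - 1) / 2) := by ring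
    rw [this, hnz]; ring
  have hNz2 : N * z ^ 2 ≤ 1 / 2 := by
    have : N * z ^ 2 = (N * z) * z := by ring
    rw [this, hN1]
    have : (n - 1) / 2 * z = (n * z - z) / 2 := by ring
    rw [this, hnz]; linarith
  set m0 := N / 2 - n * L / 40 with hm0def
  have hxsq : x ^ 2 ≤ x := by
    have : x ≤ 1 := by linarith
    calc x ^ 2 = x * x := by ring
      _ ≤ x * 1 := mul_le_mul_of_nonneg_left this hx0
      _ = x := mul_one x
  have f1 : m * (x - x ^ 2) + (N - m) * -(z + z ^ 2) ≥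
      m0 * (x - x ^ 2) + (N - m0) * -(z + z ^ 2) := by
    have h1 : 0 ≤ (m - m0) * ((x - x ^ 2) + (z + z ^ 2)) :=
      mul_nonneg (by linarith) (add_nonneg (by linarith) (by positivity))
    have h2 : (m - m0) * ((x - x ^ 2) + (z + z ^ 2)) = (m * (x - x ^ 2) + (N - m) * -(z + z ^ 2)) -
      (m0 * (x - x ^ 2) + (N - m0) * -(z + z ^ 2)) := by ring
    linarith
  refine le_trans ?_ f1
  have hx2b : x ^ 2 ≤ (3 / 2) * z ^ 2 := by
    rw [hxz]
    have h1 : ((1 + t / n) * z) ^ 2 = (1 + t / n) ^ 2 * z ^ 2 := by ring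
    rw [h1]
    refine mul_le_mul_of_nonneg_right ?_ (sq_nonneg z)
    calc (1 + t / n) ^ 2 ≤ (1 + 1 / 80) ^ 2 := pow_le_pow_left₀ (by linarith) (by linarith) 2
      _ ≤ 3 / 2 := by norm_num
  have g1 : m0 * x = N / 2 * z + N / 2 * (t / n * z) - n * L / 40 * x := by
    rw [hm0def, hxz]; ring
  have g2 : n * L / 40 * x = L / 40 + L / 40 * (t / n) := by
    rw [hxz]
    have : n * L / 40 * ((1 + t / n) * z) = (n * z) * (L / 40 + L / 40 * (t / n)) := by ring
    rw [this, hnz, one_mul]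
  have g3 : N / 2 * (t / n * z) = t / 4 - t / n / 4 := by
    have : N / 2 * (t / n * z) = (N * z) * (t / n) / 2 := by ring
    rw [this, hN1]
    field_simp
    ring
  have g4 : (N - m0) * -(z + z ^ 2) = -(N / 2 * z) - L / 40 - N * z ^ 2 / 2 - L / 40 * z := by
    rw [hm0def]
    have : (N - (N / 2 - n * L / 40)) * -(z + z ^ 2) = -(N / 2 * z) - (n * z) * (L / 40) -
      N * z ^ 2 / 2 - (n * z) * (L / 40 * z) := by ring
    rw [this, hnz]; ring
  have g5 : m0 * x ^ 2 ≤ N / 2 * (3 / 2 * z ^ 2) := by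
    have h1 : m0 ≤ N / 2 := by
      rw [hm0def]
      have : 0 ≤ n * L / 40 := by positivity
      linarith
    calc m0 * x ^ 2 ≤ N / 2 * x ^ 2 := mul_le_mul_of_nonneg_right h1 (sq_nonneg x)
      _ ≤ _ := mul_le_mul_of_nonneg_left hx2b (by positivity)
  have g5' : N / 2 * (3 / 2 * z ^ 2) = 3 / 4 * (N * z ^ 2) := by ring
  have hLL0 : 0 ≤ L ^ 2 := sq_nonneg L
  have g6 : L / 40 * (t / n) ≤ 1 / 100 := by
    have : L / 40 * (t / n) = L * t / 40 / n := by ring
    rw [this, div_le_iff₀ hn0]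
    linarith
  have g7 : L / 40 * z ≤ 1 / 100 := by
    have : L / 40 * z = L / 40 / n := by rw [hz]; ring
    rw [this, div_le_iff₀ hn0]
    linarith
  have g8 : m0 * (x - x ^ 2) = m0 * x - m0 * x ^ 2 := by ring
  rw [g8, g4, g1, g2, g3]
  linarith

/-- lower bound for the comparison product -/
theorem F_lower {n : ℕ} (H : Tech2 n) {E : Finset (Sym2 (Fin n))} (hE : E ⊆ pairs univ)
    (h5 : ¬ Bad5 n E) {t : ℝ} (ht0 : 0 ≤ t) (ht : t ≤ 5 * Real.log n) :
    Real.exp (t / 4 - Real.log n / 20 - 2) ≤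
      (1 + (1 + t / n) / n) ^ E.card * (1 - 1 / (n : ℝ)) ^ (n.choose 2 - E.card) := by
  have hn0 := H.pos
  have hL := H.L
  have hsq' := H.sq
  have hn12 : (12000 : ℝ) ≤ n := by nlinarith
  unfold Bad5 at h5
  push Not at h5
  have hcardE : E.card ≤ n.choose 2 := by
    have := card_le_card hE
    rwa [card_pairs, card_univ, Fintype.card_fin] at this
  have hNeq : (n.choose 2 : ℝ) = n * (n - 1) / 2 := by rw [Nat.cast_choose_two]
  have hsub : ((n.choose 2 - E.card : ℕ) : ℝ) = (n.choose 2 : ℝ) - E.card := by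
    rw [Nat.cast_sub hcardE]
  have key := F_expo hn12 hL hsq' hNeq h5.le ht0 ht
  have hx0 : 0 ≤ (1 + t / (n : ℝ)) / n := by positivity
  have hz0 : 0 ≤ 1 / (n : ℝ) := by positivity
  have hz1 : 1 / (n : ℝ) ≤ 1 / 2 := one_div_le_one_div_of_le (by norm_num) (by linarith)
  have e1 : Real.exp ((E.card : ℝ) * ((1 + t / (n : ℝ)) / n - ((1 + t / (n : ℝ)) / n) ^ 2)) ≤
      (1 + (1 + t / (n : ℝ)) / n) ^ E.card := by
    rw [Real.exp_nat_mul]
    exact pow_le_pow_left₀ (Real.exp_pos _).le (one_add_ge hx0) _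
  have e2 : Real.exp (((n.choose 2 : ℝ) - E.card) * -(1 / (n : ℝ) + (1 / (n : ℝ)) ^ 2)) ≤
      (1 - 1 / (n : ℝ)) ^ (n.choose 2 - E.card) := by
    rw [← hsub, Real.exp_nat_mul]
    exact pow_le_pow_left₀ (Real.exp_pos _).le (log_one_sub_ge hz0 hz1) _
  refine le_trans (Real.exp_le_exp.2 key) ?_
  rw [Real.exp_add]
  exact mul_le_mul e1 e2 (Real.exp_pos _).le (by positivity)

end RelRoots
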