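import Pool.Agent.Lib.MP_ccdac2_co.Defs

/-!
Basic facts about set partitions (`parts`) of a finset.
-/

namespace RelRoots

open Finset

variable {α : Type*} [DecidableEq α]

theorem mem_parts {S : Finset α} {θ : Finset (Finset α)} :
    θ ∈ parts S ↔ ∅ ∉ θ ∧ (∀ B ∈ θ, ∀ C ∈ θ, B ≠ C → Disjoint B C) ∧ θ.biUnion id = S := by
  unfold parts
  rw [mem_filter]
  constructor
  · rintro ⟨_, h⟩; exact h
  · intro h
    refine ⟨?_, h⟩
    rw [mem_powerset]
    intro B hB
    rw [mem_powerset, ← h.2.2]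
    exact subset_biUnion_of_mem id hB

theorem ne_empty_of_mem {S : Finset α} {θ : Finset (Finset α)} (h : θ ∈ parts S)
    {B : Finset α} (hB : B ∈ θ) : B.Nonempty := by
  rw [Finset.nonempty_iff_ne_empty]
  rintro rfl
  exact (mem_parts.1 h).1 hB

theorem subset_of_mem {S : Finset α} {θ : Finset (Finset α)} (h : θ ∈ parts S)
    {B : Finset α} (hB : B ∈ θ) : B ⊆ S := by
  rw [← (mem_parts.1 h).2.2]
  exact subset_biUnion_of_mem id hB

theorem disj_of_mem {S : Finset α} {θ : Finset (Finset α)} (h : θ ∈ parts S)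
    {B C : Finset α} (hB : B ∈ θ) (hC : C ∈ θ) (hne : B ≠ C) : Disjoint B C :=
  (mem_parts.1 h).2.1 B hB C hC hne

theorem exists_block {S : Finset α} {θ : Finset (Finset α)} (h : θ ∈ parts S)
    {v : α} (hv : v ∈ S) : ∃ B ∈ θ, v ∈ B := by
  rw [← (mem_parts.1 h).2.2] at hv
  simpa using hv

theorem block_unique {S : Finset α} {θ : Finset (Finset α)} (h : θ ∈ parts S)
    {v : α} {B C : Finset α} (hB : B ∈ θ) (hC : C ∈ θ) (hvB : v ∈ B) (hvC : v ∈ C) : B = C := by
  by_contra hne
  exact (Finset.disjoint_left.1 (disj_of_mem h hB hC hne)) hvB hvC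

theorem sum_card {S : Finset α} {θ : Finset (Finset α)} (h : θ ∈ parts S) :
    ∑ B ∈ θ, B.card = S.card := by
  rw [← (mem_parts.1 h).2.2, card_biUnion]
  · rfl
  · intro B hB C hC hne
    exact disj_of_mem h hB hC hne

theorem card_le {S : Finset α} {θ : Finset (Finset α)} (h : θ ∈ parts S) :
    θ.card ≤ S.card := by
  rw [← sum_card h]
  calc θ.card = ∑ B ∈ θ, 1 := by simp
    _ ≤ _ := sum_le_sum (fun B hB => (ne_empty_of_mem h hB).card_pos)

theorem parts_empty : parts (∅ : Finset α) = {∅} := by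
  ext θ
  rw [mem_parts, mem_singleton]
  constructor
  · rintro ⟨h1, _, h3⟩
    rw [Finset.eq_empty_iff_forall_notMem]
    intro B hB
    have : B ⊆ ∅ := by
      rw [← h3]; exact subset_biUnion_of_mem id hB
    rw [Finset.subset_empty] at this
    subst this
    exact h1 hB
  · rintro rfl
    simp

theorem card_pos {S : Finset α} (hS : S.Nonempty) {θ : Finset (Finset α)} (h : θ ∈ parts S) :
    0 < θ.card := by
  obtain ⟨v, hv⟩ := hS
  obtain ⟨B, hB, _⟩ := exists_block h hv
  exact Finset.card_pos.2 ⟨B, hB⟩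

theorem singleton_mem_parts {S : Finset α} (hS : S.Nonempty) : {S} ∈ parts S := by
  rw [mem_parts]
  refine ⟨?_, ?_, ?_⟩
  · rw [mem_singleton]; exact hS.ne_empty.symm
  · intro B hB C hC hne
    rw [mem_singleton] at hB hC
    exact absurd (hB.trans hC.symm) hne
  · simp

theorem notMem_of_sdiff {S B : Finset α} (hB : B.Nonempty) {θ : Finset (Finset α)}
    (h : θ ∈ parts (S \ B)) : B ∉ θ := by
  intro hm
  have := subset_of_mem h hm
  obtain ⟨v, hv⟩ := hB
  have := this hv
  rw [mem_sdiff] at this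
  exact this.2 hv

theorem insert_mem_parts {S B : Finset α} (hB : B.Nonempty) (hBS : B ⊆ S)
    {θ : Finset (Finset α)} (h : θ ∈ parts (S \ B)) : insert B θ ∈ parts S := by
  rw [mem_parts]
  refine ⟨?_, ?_, ?_⟩
  · rw [mem_insert, not_or]
    exact ⟨hB.ne_empty.symm, (mem_parts.1 h).1⟩
  · have key : ∀ C ∈ θ, Disjoint B C := by
      intro C hC
      have := subset_of_mem h hC
      exact Finset.disjoint_left.2 (fun v hv hv' => (mem_sdiff.1 (this hv')).2 hv)
    intro C hC D hD hne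
    rw [mem_insert] at hC hD
    rcases hC with rfl | hC <;> rcases hD with rfl | hD
    · exact absurd rfl hne
    · exact key D hD
    · exact (key C hC).symm
    · exact disj_of_mem h hC hD hne
  · rw [biUnion_insert, (mem_parts.1 h).2.2]
    simp [Finset.union_sdiff_of_subset hBS]

theorem erase_mem_parts {S : Finset α} {θ : Finset (Finset α)} (h : θ ∈ parts S)
    {B : Finset α} (hB : B ∈ θ) : θ.erase B ∈ parts (S \ B) := by
  rw [mem_parts]
  refine ⟨?_, ?_, ?_⟩
  · intro hm; exact (mem_parts.1 h).1 (mem_of_mem_erase hm)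
  · intro C hC D hD hne
    exact disj_of_mem h (mem_of_mem_erase hC) (mem_of_mem_erase hD) hne
  · ext v
    simp only [mem_biUnion, mem_erase, id, mem_sdiff]
    constructor
    · rintro ⟨C, ⟨hne, hC⟩, hv⟩
      refine ⟨subset_of_mem h hC hv, ?_⟩
      intro hvB
      exact hne (block_unique h hC hB hv hvB)
    · rintro ⟨hv, hvB⟩
      obtain ⟨C, hC, hvC⟩ := exists_block h hv
      refine ⟨C, ⟨?_, hC⟩, hvC⟩
      rintro rfl
      exact hvB hvC

/-- summing over pairs (partition, block) -/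
theorem sum_parts_block {M : Type*} [AddCommMonoid M] (S : Finset α)
    (F : Finset (Finset α) → Finset α → M) :
    ∑ θ ∈ parts S, ∑ B ∈ θ, F θ B =
      ∑ B ∈ S.powerset.erase ∅, ∑ θ ∈ parts (S \ B), F (insert B θ) B := by
  rw [Finset.sum_sigma', Finset.sum_sigma']
  refine Finset.sum_bij' (fun p _ => ⟨p.2, p.1.erase p.2⟩) (fun p _ => ⟨insert p.1 p.2, p.1⟩)
    ?_ ?_ ?_ ?_ ?_
  · rintro ⟨θ, B⟩ hp
    rw [mem_sigma] at hp ⊢
    obtain ⟨h1, h2⟩ := hp
    dsimp only at h1 h2 ⊢
    refine ⟨?_, erase_mem_parts h1 h2⟩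
    rw [mem_erase, mem_powerset]
    exact ⟨(ne_empty_of_mem h1 h2).ne_empty, subset_of_mem h1 h2⟩
  · rintro ⟨B, θ⟩ hp
    rw [mem_sigma] at hp ⊢
    obtain ⟨h1, h2⟩ := hp
    dsimp only at h1 h2 ⊢
    rw [mem_erase, mem_powerset] at h1
    exact ⟨insert_mem_parts (Finset.nonempty_iff_ne_empty.2 h1.1) h1.2 h2, mem_insert_self _ _⟩
  · rintro ⟨θ, B⟩ hp
    rw [mem_sigma] at hp
    dsimp only at hp ⊢
    rw [insert_erase hp.2]
  · rintro ⟨B, θ⟩ hp
    rw [mem_sigma] at hp
    obtain ⟨h1, h2⟩ := hp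
    dsimp only at h1 h2 ⊢
    rw [mem_erase, mem_powerset] at h1
    rw [erase_insert (notMem_of_sdiff (Finset.nonempty_iff_ne_empty.2 h1.1) h2)]
  · rintro ⟨θ, B⟩ hp
    rw [mem_sigma] at hp
    dsimp only at hp ⊢
    rw [insert_erase hp.2]

/-- summing over partitions by the block of `v` -/
theorem sum_parts_mem {M : Type*} [AddCommMonoid M] {S : Finset α} {v : α} (hv : v ∈ S)
    (F : Finset (Finset α) → M) :
    ∑ θ ∈ parts S, F θ =
      ∑ B ∈ S.powerset.filter (fun B => v ∈ B), ∑ θ ∈ parts (S \ B), F (insert B θ) := by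
  have h1 : ∑ θ ∈ parts S, F θ =
      ∑ θ ∈ parts S, ∑ B ∈ θ, (if v ∈ B then F θ else 0) := by
    refine sum_congr rfl (fun θ hθ => ?_)
    obtain ⟨B, hB, hvB⟩ := exists_block hθ hv
    rw [sum_eq_single B]
    · rw [if_pos hvB]
    · intro C hC hne
      rw [if_neg]
      intro hvC
      exact hne (block_unique hθ hC hB hvC hvB)
    · intro h; exact absurd hB h
  rw [h1, sum_parts_block, sum_filter]
  rw [← Finset.sum_erase (a := (∅ : Finset α)) (s := S.powerset)]
  · refine sum_congr rfl (fun B _ => ?_)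
    split_ifs with h
    · rfl
    · simp
  · simp

theorem sum_parts_notMem {M : Type*} [AddCommMonoid M] {S : Finset α} {v : α}
    (F : Finset (Finset α) → Finset α → M) :
    ∑ θ ∈ parts S, ∑ B ∈ θ.filter (fun B => v ∉ B), F θ B =
      ∑ B ∈ (S.powerset.erase ∅).filter (fun B => v ∉ B),
        ∑ θ ∈ parts (S \ B), F (insert B θ) B := by
  have h1 : ∀ θ : Finset (Finset α), ∑ B ∈ θ.filter (fun B => v ∉ B), F θ B =
      ∑ B ∈ θ, (if v ∉ B then F θ B else 0) := fun θ => by rw [sum_filter]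
  simp_rw [h1]
  rw [sum_parts_block, sum_filter]
  refine sum_congr rfl (fun B _ => ?_)
  split_ifs with h
  · simp
  · rfl

theorem mem_pairs {S : Finset α} {e : Sym2 α} :
    e ∈ pairs S ↔ (∀ a ∈ e, a ∈ S) ∧ ¬ e.IsDiag := by
  unfold pairs
  rw [mem_filter, Finset.mem_sym2_iff]

theorem mk_mem_pairs {S : Finset α} {a b : α} :
    s(a, b) ∈ pairs S ↔ a ∈ S ∧ b ∈ S ∧ a ≠ b := by
  rw [mem_pairs, Sym2.mk_isDiag_iff]
  constructor
  · rintro ⟨h, hne⟩
    exact ⟨h a (Sym2.mem_mk_left _ _), h b (Sym2.mem_mk_right _ _), hne⟩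
  · rintro ⟨ha, hb, hne⟩
    refine ⟨?_, hne⟩
    intro c hc
    rw [Sym2.mem_iff] at hc
    rcases hc with rfl | rfl <;> assumption

theorem pairs_mono {S T : Finset α} (h : S ⊆ T) : pairs S ⊆ pairs T := by
  intro e he
  rw [mem_pairs] at he ⊢
  exact ⟨fun a ha => h (he.1 a ha), he.2⟩

theorem pairs_empty : pairs (∅ : Finset α) = ∅ := by
  unfold pairs; simp

theorem card_pairs (S : Finset α) : (pairs S).card = S.card.choose 2 := by
  have h : pairs S = S.offDiag.image (Sym2.mk.uncurry) := by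
    ext e
    induction e using Sym2.ind with
    | _ a b =>
      rw [mk_mem_pairs, mem_image]
      constructor
      · rintro ⟨ha, hb, hne⟩
        exact ⟨(a, b), by simp [ha, hb, hne], rfl⟩
      · rintro ⟨⟨c, d⟩, hcd, h⟩
        rw [mem_offDiag] at hcd
        obtain ⟨hc, hd, hne⟩ := hcd
        change s(c, d) = s(a, b) at h
        rw [Sym2.eq_iff] at h
        rcases h with ⟨rfl, rfl⟩ | ⟨rfl, rfl⟩
        · exact ⟨hc, hd, hne⟩
        · exact ⟨hd, hc, hne.symm⟩
  rw [h, Sym2.card_image_offDiag]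

theorem pairs_disjoint {B C : Finset α} (h : Disjoint B C) : Disjoint (pairs B) (pairs C) := by
  rw [Finset.disjoint_left]
  intro e he he'
  induction e using Sym2.ind with
  | _ a b =>
    rw [mk_mem_pairs] at he he'
    exact (Finset.disjoint_left.1 h) he.1 he'.1

theorem intr_insert (B : Finset α) (θ : Finset (Finset α)) :
    intr (insert B θ) = pairs B ∪ intr θ := by
  unfold intr; rw [biUnion_insert]

theorem mem_intr {θ : Finset (Finset α)} {e : Sym2 α} :
    e ∈ intr θ ↔ ∃ B ∈ θ, e ∈ pairs B := by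
  unfold intr; rw [mem_biUnion]

theorem intr_subset {S : Finset α} {θ : Finset (Finset α)} (h : θ ∈ parts S) :
    intr θ ⊆ pairs S := by
  intro e he
  obtain ⟨B, hB, he⟩ := mem_intr.1 he
  exact pairs_mono (subset_of_mem h hB) he

theorem disjoint_intr {S B : Finset α} {θ : Finset (Finset α)} (h : θ ∈ parts (S \ B)) :
    Disjoint (pairs B) (intr θ) := by
  refine Finset.disjoint_of_subset_right (intr_subset h) (pairs_disjoint ?_)
  exact Finset.disjoint_sdiff

theorem card_intr {S : Finset α} {θ : Finset (Finset α)} (h : θ ∈ parts S) :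
    (intr θ).card = ∑ B ∈ θ, B.card.choose 2 := by
  unfold intr
  rw [card_biUnion]
  · exact sum_congr rfl (fun B _ => card_pairs B)
  · intro B hB C hC hne
    exact pairs_disjoint (disj_of_mem h hB hC hne)

theorem prod_intr {R : Type*} [CommMonoid R] {S : Finset α} {θ : Finset (Finset α)}
    (h : θ ∈ parts S) (y : Sym2 α → R) :
    ∏ e ∈ intr θ, y e = ∏ B ∈ θ, ∏ e ∈ pairs B, y e := by
  unfold intr
  rw [prod_biUnion]
  intro B hB C hC hne
  exact pairs_disjoint (disj_of_mem h hB hC hne)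

end RelRoots
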