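import Pool.Agent.Lib.MP_ccdac2_co.Defs
import Pool.Agent.Lib.MP_ccdac2_co.Parts

/-!
Component decomposition, exponential formula, Moebius form, vertex removal, sign lemma
for the weighted sum `cs` over connected spanning edge sets.
-/

set_option linter.unusedSectionVars false

namespace RelRoots

open Finset

variable {α : Type*} [DecidableEq α] {R : Type*} [CommRing R]

open Classical in
/-- the component of `v` inside `S` -/
noncomputable def comp (S : Finset α) (v : α) (A : Finset (Sym2 α)) : Finset α :=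
  S.filter (fun w => (SimpleGraph.fromEdgeSet (A : Set (Sym2 α))).Reachable v w)

theorem mem_comp {S : Finset α} {v w : α} {A : Finset (Sym2 α)} :
    w ∈ comp S v A ↔
      w ∈ S ∧ (SimpleGraph.fromEdgeSet (A : Set (Sym2 α))).Reachable v w := by
  classical
  unfold comp
  rw [mem_filter]

theorem adj_iff {A : Finset (Sym2 α)} {a b : α} :
    (SimpleGraph.fromEdgeSet (A : Set (Sym2 α))).Adj a b ↔ s(a, b) ∈ A ∧ a ≠ b := by
  rw [SimpleGraph.fromEdgeSet_adj, mem_coe]

theorem reach_mono {A B : Finset (Sym2 α)} (h : A ⊆ B) {a b : α}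
    (hr : (SimpleGraph.fromEdgeSet (A : Set (Sym2 α))).Reachable a b) :
    (SimpleGraph.fromEdgeSet (B : Set (Sym2 α))).Reachable a b :=
  hr.mono (SimpleGraph.fromEdgeSet_mono (by exact_mod_cast h))

/-- induction along a path -/
theorem reach_induct {A : Finset (Sym2 α)} {v : α} (P : α → Prop) (h0 : P v)
    (h1 : ∀ a b, (SimpleGraph.fromEdgeSet (A : Set (Sym2 α))).Reachable v a → P a →
      s(a, b) ∈ A → a ≠ b → P b) {w : α}
    (hr : (SimpleGraph.fromEdgeSet (A : Set (Sym2 α))).Reachable v w) : P w := by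
  rw [SimpleGraph.reachable_iff_reflTransGen] at hr
  induction hr with
  | refl => exact h0
  | tail hab hbc ih =>
    rw [adj_iff] at hbc
    exact h1 _ _ (by rw [SimpleGraph.reachable_iff_reflTransGen]; exact hab) ih hbc.1 hbc.2

/-- splitting the edge set along the component of `v` -/
theorem comp_closed {S : Finset α} {v : α} {A : Finset (Sym2 α)} (hA : A ⊆ pairs S)
    {a b : α} (hab : s(a, b) ∈ A) : a ∈ comp S v A ↔ b ∈ comp S v A := by
  have hp := mk_mem_pairs.1 (hA hab)
  rw [mem_comp, mem_comp]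
  have hadj : (SimpleGraph.fromEdgeSet (A : Set (Sym2 α))).Adj a b := adj_iff.2 ⟨hab, hp.2.2⟩
  constructor
  · rintro ⟨_, h⟩; exact ⟨hp.2.1, h.trans hadj.reachable⟩
  · rintro ⟨_, h⟩; exact ⟨hp.1, h.trans hadj.symm.reachable⟩

theorem conn_comp {S : Finset α} {v : α} (hv : v ∈ S) {A : Finset (Sym2 α)}
    (hA : A ⊆ pairs S) : Conn (comp S v A) (A ∩ pairs (comp S v A)) := by
  have hvc : v ∈ comp S v A := mem_comp.2 ⟨hv, SimpleGraph.Reachable.refl _⟩
  have key : ∀ w, (SimpleGraph.fromEdgeSet (A : Set (Sym2 α))).Reachable v w →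
      (w ∈ comp S v A ∧ (SimpleGraph.fromEdgeSet
        ((A ∩ pairs (comp S v A) : Finset (Sym2 α)) : Set (Sym2 α))).Reachable v w) := by
    intro w hw
    refine reach_induct (P := fun w => w ∈ comp S v A ∧ (SimpleGraph.fromEdgeSet
        ((A ∩ pairs (comp S v A) : Finset (Sym2 α)) : Set (Sym2 α))).Reachable v w)
        ⟨hvc, SimpleGraph.Reachable.refl _⟩ ?_ hw
    rintro a b _ ⟨ha, har⟩ hab hne
    have hb : b ∈ comp S v A := (comp_closed hA hab).1 ha
    refine ⟨hb, har.trans (SimpleGraph.Adj.reachable ?_)⟩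
    rw [adj_iff]
    exact ⟨mem_inter.2 ⟨hab, mk_mem_pairs.2 ⟨ha, hb, hne⟩⟩, hne⟩
  refine ⟨⟨v, hvc⟩, ?_⟩
  intro u hu w hw
  exact ((key u (mem_comp.1 hu).2).2.symm).trans (key w (mem_comp.1 hw).2).2

theorem comp_union {S T : Finset α} {v : α} (hv : v ∈ T) (hT : T ⊆ S)
    {A B : Finset (Sym2 α)} (hA : A ⊆ pairs T) (hc : Conn T A) (hB : B ⊆ pairs (S \ T)) :
    comp S v (A ∪ B) = T := by
  ext w
  rw [mem_comp]
  constructor
  · rintro ⟨_, h⟩
    refine reach_induct (P := fun w => w ∈ T) hv ?_ h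
    intro a b _ ha hab _
    rcases mem_union.1 hab with h' | h'
    · exact (mk_mem_pairs.1 (hA h')).2.1
    · exact absurd ha (mem_sdiff.1 (mk_mem_pairs.1 (hB h')).1).2
  · intro hw
    exact ⟨hT hw, reach_mono subset_union_left (hc.2 v hv w hw)⟩

/-- group the edge sets on `S` by the component `T` of `v` -/
theorem cs_rec (x : Sym2 α → R) {S : Finset α} {v : α} (hv : v ∈ S) :
    ∏ e ∈ pairs S, (1 + x e) =
      ∑ T ∈ S.powerset.filter (fun T => v ∈ T), cs x T * ∏ e ∈ pairs (S \ T), (1 + x e) := by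
  classical
  rw [prod_one_add]
  have h1 : ∀ A ∈ (pairs S).powerset, comp S v A ∈ S.powerset.filter (fun T => v ∈ T) := by
    intro A _
    rw [mem_filter, mem_powerset]
    exact ⟨filter_subset _ _, mem_comp.2 ⟨hv, SimpleGraph.Reachable.refl _⟩⟩
  rw [← sum_fiberwise_of_maps_to h1]
  refine sum_congr rfl (fun T hT => ?_)
  rw [mem_filter, mem_powerset] at hT
  obtain ⟨hTS, hvT⟩ := hT
  have hdisj : Disjoint (pairs T) (pairs (S \ T)) := pairs_disjoint disjoint_sdiff
  rw [prod_one_add]
  unfold cs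
  rw [sum_mul_sum, ← sum_product']
  refine sum_bij' (fun A _ => (A ∩ pairs T, A ∩ pairs (S \ T))) (fun p _ => p.1 ∪ p.2)
    ?_ ?_ ?_ ?_ ?_
  · intro A hA
    rw [mem_filter, mem_powerset] at hA
    obtain ⟨hA, hc⟩ := hA
    rw [mem_product, mem_filter, mem_powerset, mem_powerset]
    refine ⟨⟨inter_subset_right, ?_⟩, inter_subset_right⟩
    have := conn_comp hv hA
    rw [hc] at this
    exact this
  · rintro ⟨A, B⟩ hp
    rw [mem_product, mem_filter, mem_powerset, mem_powerset] at hp
    obtain ⟨⟨hA, hc⟩, hB⟩ := hp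
    rw [mem_filter, mem_powerset]
    refine ⟨union_subset (hA.trans (pairs_mono hTS)) (hB.trans (pairs_mono sdiff_subset)), ?_⟩
    exact comp_union hvT hTS hA hc hB
  · intro A hA
    rw [mem_filter, mem_powerset] at hA
    obtain ⟨hA, hc⟩ := hA
    dsimp only
    rw [← inter_union_distrib_left]
    rw [inter_eq_left]
    intro e he
    induction e using Sym2.ind with
    | _ a b =>
      have hp := mk_mem_pairs.1 (hA he)
      have := comp_closed (v := v) hA he
      rw [hc] at this
      rw [mem_union]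
      by_cases ha : a ∈ T
      · left; exact mk_mem_pairs.2 ⟨ha, this.1 ha, hp.2.2⟩
      · right
        exact mk_mem_pairs.2 ⟨mem_sdiff.2 ⟨hp.1, ha⟩,
          mem_sdiff.2 ⟨hp.2.1, fun hb => ha (this.2 hb)⟩, hp.2.2⟩
  · rintro ⟨A, B⟩ hp
    rw [mem_product, mem_filter, mem_powerset, mem_powerset] at hp
    obtain ⟨⟨hA, hc⟩, hB⟩ := hp
    dsimp only at hA hB ⊢
    have e1 : (A ∪ B) ∩ pairs T = A := by
      rw [union_inter_distrib_right, inter_eq_left.2 hA,
        (disjoint_iff_inter_eq_empty.1 ((hdisj.mono_right hB).symm)), union_empty]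
    have e2 : (A ∪ B) ∩ pairs (S \ T) = B := by
      rw [union_inter_distrib_right, inter_eq_left.2 hB,
        (disjoint_iff_inter_eq_empty.1 (hdisj.mono_left hA)), empty_union]
    rw [e1, e2]
  · intro A hA
    rw [mem_filter, mem_powerset] at hA
    obtain ⟨hA, hc⟩ := hA
    dsimp only
    rw [← prod_union]
    · congr 1
      rw [← inter_union_distrib_left]
      symm
      rw [inter_eq_left]
      intro e he
      induction e using Sym2.ind with
      | _ a b =>
        have hp := mk_mem_pairs.1 (hA he)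
        have := comp_closed (v := v) hA he
        rw [hc] at this
        rw [mem_union]
        by_cases ha : a ∈ T
        · left; exact mk_mem_pairs.2 ⟨ha, this.1 ha, hp.2.2⟩
        · right
          exact mk_mem_pairs.2 ⟨mem_sdiff.2 ⟨hp.1, ha⟩,
            mem_sdiff.2 ⟨hp.2.1, fun hb => ha (this.2 hb)⟩, hp.2.2⟩
    · exact hdisj.mono inter_subset_right inter_subset_right

/-- exponential formula (by strong induction on S from cs_rec, removing the block of v) -/
theorem prod_eq_sum_parts (x : Sym2 α → R) (S : Finset α) :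
    ∏ e ∈ pairs S, (1 + x e) = ∑ π ∈ parts S, ∏ B ∈ π, cs x B := by
  induction S using Finset.strongInduction with
  | H S ih =>
    rcases S.eq_empty_or_nonempty with rfl | ⟨v, hv⟩
    · rw [pairs_empty, parts_empty]; simp
    · rw [cs_rec x hv, sum_parts_mem hv]
      refine sum_congr rfl (fun T hT => ?_)
      rw [mem_filter, mem_powerset] at hT
      have hlt : S \ T ⊂ S := by
        refine ⟨sdiff_subset, fun h => ?_⟩
        exact (mem_sdiff.1 (h hv)).2 hT.2
      rw [ih _ hlt, mul_sum]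
      refine sum_congr rfl (fun θ hθ => ?_)
      rw [prod_insert (notMem_of_sdiff ⟨v, hT.2⟩ hθ)]

theorem mob_one : mob 1 = 1 := by unfold mob; simp

theorem mob_succ_succ (k : ℕ) : mob (k + 2) + ((k : ℤ) + 1) * mob (k + 1) = 0 := by
  unfold mob
  have e1 : k + 2 - 1 = k + 1 := rfl
  have e2 : k + 1 - 1 = k := rfl
  rw [e1, e2, Nat.factorial_succ]
  push_cast
  ring

/-- Moebius form. Strong induction: by cs_rec,
 cs x S = Z(S) - Σ_{T∌=S, v∈T} cs x T * Z(S\T); insert the formula for cs x T; the pair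
 (T, π ∈ parts T) is (π' = insert (S\T) π, block S\T not containing v), each π' with k blocks
 arises k-1 times, and mob k + (k-1) * mob (k-1) = 0 for k ≥ 2, mob 1 = 1. -/
theorem cs_eq_sum_parts (x : Sym2 α → R) {S : Finset α} (hS : S.Nonempty) :
    cs x S = ∑ π ∈ parts S, ((mob π.card : ℤ) : R) * ∏ e ∈ intr π, (1 + x e) := by
  induction S using Finset.strongInduction with
  | H S ih =>
    obtain ⟨v, hv⟩ := hS
    -- recursion with the term `T = S` isolated
    have hrec := cs_rec x hv
    have hSmem : S ∈ S.powerset.filter (fun T => v ∈ T) := by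
      rw [mem_filter, mem_powerset]; exact ⟨Subset.refl _, hv⟩
    rw [← add_sum_erase _ _ hSmem, Finset.sdiff_self] at hrec
    -- the remaining sum
    have hsum : ∑ T ∈ (S.powerset.filter (fun T => v ∈ T)).erase S,
          cs x T * ∏ e ∈ pairs (S \ T), (1 + x e) =
        ∑ θ ∈ parts S, (((θ.card - 1 : ℕ) : ℤ) : R) * ((mob (θ.card - 1) : ℤ) : R) *
          ∏ e ∈ intr θ, (1 + x e) := by
      have e1 : ∀ θ ∈ parts S, (((θ.card - 1 : ℕ) : ℤ) : R) * ((mob (θ.card - 1) : ℤ) : R) *
          ∏ e ∈ intr θ, (1 + x e) = ∑ B ∈ θ.filter (fun B => v ∉ B),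
            ((mob (θ.card - 1) : ℤ) : R) * ∏ e ∈ intr θ, (1 + x e) := by
        intro θ hθ
        rw [sum_const, nsmul_eq_mul, mul_assoc]
        congr 1
        have : (θ.filter (fun B => v ∉ B)).card = θ.card - 1 := by
          obtain ⟨B, hB, hvB⟩ := exists_block hθ hv
          have : θ.filter (fun B => v ∉ B) = θ.erase B := by
            ext C
            rw [mem_filter, mem_erase]
            constructor
            · rintro ⟨hC, hvC⟩
              refine ⟨?_, hC⟩
              rintro rfl; exact hvC hvB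
            · rintro ⟨hne, hC⟩
              exact ⟨hC, fun hvC => hne (block_unique hθ hC hB hvC hvB)⟩
          rw [this, card_erase_of_mem hB]
        rw [this]
        push_cast
        rfl
      rw [sum_congr rfl e1, sum_parts_notMem]
      refine sum_bij' (fun T _ => S \ T) (fun B _ => S \ B) ?_ ?_ ?_ ?_ ?_
      · intro T hT
        rw [mem_erase, mem_filter, mem_powerset] at hT
        rw [mem_filter, mem_erase, mem_powerset]
        refine ⟨⟨?_, sdiff_subset⟩, fun h => (mem_sdiff.1 h).2 hT.2.2⟩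
        intro h
        rw [sdiff_eq_empty_iff_subset] at h
        exact hT.1 (Subset.antisymm hT.2.1 h)
      · intro B hB
        rw [mem_filter, mem_erase, mem_powerset] at hB
        rw [mem_erase, mem_filter, mem_powerset]
        refine ⟨?_, sdiff_subset, mem_sdiff.2 ⟨hv, hB.2⟩⟩
        intro h
        obtain ⟨w, hw⟩ := Finset.nonempty_iff_ne_empty.2 hB.1.1
        have := hB.1.2 hw
        rw [← h] at this
        exact (mem_sdiff.1 this).2 hw
      · intro T hT
        rw [mem_erase, mem_filter, mem_powerset] at hT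
        exact Finset.sdiff_sdiff_eq_self hT.2.1
      · intro B hB
        rw [mem_filter, mem_erase, mem_powerset] at hB
        exact Finset.sdiff_sdiff_eq_self hB.1.2
      · intro T hT
        rw [mem_erase, mem_filter, mem_powerset] at hT
        have hlt : T ⊂ S := by
          refine ⟨hT.2.1, fun h => hT.1 (Subset.antisymm hT.2.1 h)⟩
        have hne : (S \ T).Nonempty := by
          rw [Finset.nonempty_iff_ne_empty, Ne, sdiff_eq_empty_iff_subset]
          exact hlt.2
        rw [ih T hlt ⟨v, hT.2.2⟩, Finset.sdiff_sdiff_eq_self hT.2.1, sum_mul]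
        refine sum_congr rfl (fun θ hθ => ?_)
        have hθ' : θ ∈ parts (S \ (S \ T)) := by
          rw [Finset.sdiff_sdiff_eq_self hT.2.1]; exact hθ
        rw [card_insert_of_notMem (notMem_of_sdiff hne hθ'), intr_insert,
          prod_union (disjoint_intr hθ')]
        rw [Nat.add_sub_cancel]
        ring
    rw [hsum] at hrec
    have hpe : ∏ e ∈ pairs (∅ : Finset α), (1 + x e) = 1 := by rw [pairs_empty]; simp
    rw [hpe, mul_one] at hrec
    have hZ : ∏ e ∈ pairs S, (1 + x e) =
        ∑ θ ∈ parts S, (if θ.card = 1 then (1 : R) else 0) * ∏ e ∈ intr θ, (1 + x e) := by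
      rw [sum_eq_single {S}]
      · rw [card_singleton, if_pos rfl, one_mul]
        unfold intr
        rw [singleton_biUnion]
      · intro θ hθ hne
        rw [if_neg, zero_mul]
        intro hc
        obtain ⟨B, rfl⟩ := card_eq_one.1 hc
        have := (mem_parts.1 hθ).2.2
        rw [singleton_biUnion] at this
        exact hne (by rw [show B = S from this])
      · intro h
        exact absurd (singleton_mem_parts ⟨v, hv⟩) h
    rw [hZ] at hrec
    have hcs : cs x S = ∑ θ ∈ parts S, (if θ.card = 1 then (1 : R) else 0) *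
          ∏ e ∈ intr θ, (1 + x e) -
        ∑ θ ∈ parts S, (((θ.card - 1 : ℕ) : ℤ) : R) * ((mob (θ.card - 1) : ℤ) : R) *
          ∏ e ∈ intr θ, (1 + x e) := by
      rw [hrec]; ring
    rw [hcs, ← sum_sub_distrib]
    refine sum_congr rfl (fun θ hθ => ?_)
    have hpos := card_pos ⟨v, hv⟩ hθ
    rw [← sub_mul]
    congr 1
    obtain ⟨k, hk⟩ : ∃ k, θ.card = k + 1 := ⟨θ.card - 1, by omega⟩
    rw [hk]
    rcases k with _ | k
    · simp [mob_one]
    · have := mob_succ_succ k
      have h2 : ((mob (k + 2) : ℤ) : R) + ((k : R) + 1) * ((mob (k + 1) : ℤ) : R) = 0 := by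
        have := congrArg (fun z : ℤ => (z : R)) this
        push_cast at this
        exact this
      rw [if_neg (by omega)]
      have e3 : k + 1 + 1 - 1 = k + 1 := rfl
      rw [e3]
      have e4 : k + 1 + 1 = k + 2 := rfl
      rw [e4]
      push_cast
      rw [eq_neg_of_add_eq_zero_left h2]
      ring

/-- splitting each block sum: partitions of `S` with a marked set of blocks -/
theorem sum_parts_prod_add (a b : Finset α → R) (S : Finset α) :
    ∑ π ∈ parts S, ∏ B ∈ π, (a B + b B) =
      ∑ U ∈ S.powerset, (∑ π ∈ parts U, ∏ B ∈ π, a B) *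
        (∑ π ∈ parts (S \ U), ∏ B ∈ π, b B) := by
  have e1 : ∀ π ∈ parts S, ∏ B ∈ π, (a B + b B) =
      ∑ t ∈ π.powerset, (∏ B ∈ t, a B) * ∏ B ∈ π \ t, b B := fun π _ => prod_add _ _ _
  rw [sum_congr rfl e1, sum_sigma']
  have e2 : ∀ U ∈ S.powerset, (∑ π ∈ parts U, ∏ B ∈ π, a B) *
        (∑ π ∈ parts (S \ U), ∏ B ∈ π, b B) =
      ∑ p ∈ parts U ×ˢ parts (S \ U), (∏ B ∈ p.1, a B) * ∏ B ∈ p.2, b B := by
    intro U _
    rw [sum_mul_sum, ← sum_product']
  rw [sum_congr rfl e2, sum_sigma']
  refine sum_bij' (fun p _ => ⟨p.2.biUnion id, (p.2, p.1 \ p.2)⟩)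
    (fun q _ => ⟨q.2.1 ∪ q.2.2, q.2.1⟩) ?_ ?_ ?_ ?_ ?_
  · rintro ⟨π, t⟩ hp
    rw [mem_sigma, mem_powerset] at hp
    obtain ⟨hπ, ht⟩ := hp
    dsimp only at hπ ht ⊢
    rw [mem_sigma, mem_powerset, mem_product]
    dsimp only
    have hsub : t.biUnion id ⊆ S := by
      rw [← (mem_parts.1 hπ).2.2]; exact biUnion_subset_biUnion_of_subset_left _ ht
    refine ⟨hsub, ?_, ?_⟩
    · rw [mem_parts]
      refine ⟨fun h => (mem_parts.1 hπ).1 (ht h), ?_, rfl⟩
      intro B hB C hC hne
      exact disj_of_mem hπ (ht hB) (ht hC) hne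
    · rw [mem_parts]
      refine ⟨fun h => (mem_parts.1 hπ).1 (mem_sdiff.1 h).1, ?_, ?_⟩
      · intro B hB C hC hne
        exact disj_of_mem hπ (mem_sdiff.1 hB).1 (mem_sdiff.1 hC).1 hne
      · ext w
        simp only [mem_biUnion, mem_sdiff, id]
        constructor
        · rintro ⟨B, ⟨hB, hBt⟩, hw⟩
          refine ⟨subset_of_mem hπ hB hw, ?_⟩
          rintro ⟨C, hC, hwC⟩
          exact hBt (by rw [block_unique hπ hB (ht hC) hw hwC]; exact hC)
        · rintro ⟨hw, hn⟩
          obtain ⟨B, hB, hwB⟩ := exists_block hπ hw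
          exact ⟨B, ⟨hB, fun hBt => hn ⟨B, hBt, hwB⟩⟩, hwB⟩
  · rintro ⟨U, π1, π2⟩ hq
    rw [mem_sigma, mem_powerset, mem_product] at hq
    obtain ⟨hU, h1, h2⟩ := hq
    dsimp only at hU h1 h2 ⊢
    rw [mem_sigma, mem_powerset]
    refine ⟨?_, subset_union_left⟩
    rw [mem_parts]
    have hd : ∀ B ∈ π1, ∀ C ∈ π2, Disjoint B C := by
      intro B hB C hC
      exact (disjoint_sdiff (s := U) (t := S)).mono (subset_of_mem h1 hB) (subset_of_mem h2 hC)
    refine ⟨?_, ?_, ?_⟩
    · rw [mem_union, not_or]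
      exact ⟨(mem_parts.1 h1).1, (mem_parts.1 h2).1⟩
    · intro B hB C hC hne
      rcases mem_union.1 hB with hB | hB <;> rcases mem_union.1 hC with hC | hC
      · exact disj_of_mem h1 hB hC hne
      · exact hd B hB C hC
      · exact (hd C hC B hB).symm
      · exact disj_of_mem h2 hB hC hne
    · rw [union_biUnion, (mem_parts.1 h1).2.2, (mem_parts.1 h2).2.2]
      exact union_sdiff_of_subset hU
  · rintro ⟨π, t⟩ hp
    rw [mem_sigma, mem_powerset] at hp
    dsimp only at hp ⊢
    rw [union_sdiff_of_subset hp.2]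
  · rintro ⟨U, π1, π2⟩ hq
    rw [mem_sigma, mem_powerset, mem_product] at hq
    obtain ⟨hU, h1, h2⟩ := hq
    dsimp only at hU h1 h2 ⊢
    have hu : π1.biUnion id = U := (mem_parts.1 h1).2.2
    have hd : (π1 ∪ π2) \ π1 = π2 := by
      rw [union_sdiff_left]
      rw [Finset.sdiff_eq_self_iff_disjoint, Finset.disjoint_left]
      intro B hB2 hB1
      obtain ⟨w, hw⟩ := ne_empty_of_mem h1 hB1
      exact (mem_sdiff.1 (subset_of_mem h2 hB2 hw)).2 (subset_of_mem h1 hB1 hw)
    rw [hu, hd]
  · rintro ⟨π, t⟩ hp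
    rfl

/-- pairs of `insert v S` -/
theorem prod_pairs_insert (y : Sym2 α → R) {S : Finset α} {v : α} (hv : v ∉ S) :
    ∏ e ∈ pairs (insert v S), y e = (∏ e ∈ pairs S, y e) * ∏ w ∈ S, y s(v, w) := by
  have h : pairs (insert v S) = pairs S ∪ S.image (fun w => s(v, w)) := by
    ext e
    induction e using Sym2.ind with
    | _ a b =>
      rw [mk_mem_pairs, mem_union, mk_mem_pairs, mem_image, mem_insert, mem_insert]
      constructor
      · rintro ⟨ha | ha, hb | hb, hne⟩
        · exact absurd (ha.trans hb.symm) hne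
        · right; exact ⟨b, hb, by rw [ha]⟩
        · right; exact ⟨a, ha, by rw [hb]; exact Sym2.eq_swap⟩
        · left; exact ⟨ha, hb, hne⟩
      · rintro (⟨ha, hb, hne⟩ | ⟨w, hw, he⟩)
        · exact ⟨Or.inr ha, Or.inr hb, hne⟩
        · rw [Sym2.eq_iff] at he
          rcases he with ⟨rfl, rfl⟩ | ⟨rfl, rfl⟩
          · exact ⟨Or.inl rfl, Or.inr hw, fun h => hv (h ▸ hw)⟩
          · exact ⟨Or.inr hw, Or.inl rfl, fun h => hv (h ▸ hw)⟩
  rw [h, prod_union]
  · congr 1
    rw [prod_image]
    intro w hw w' hw' he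
    have he : s(v, w) = s(v, w') := he
    rw [Sym2.eq_iff] at he
    rcases he with ⟨_, h⟩ | ⟨h, h'⟩
    · exact h
    · rw [h', h]
  · rw [Finset.disjoint_left]
    intro e he he'
    rw [mem_image] at he'
    obtain ⟨w, hw, rfl⟩ := he'
    exact hv (mk_mem_pairs.1 he).1

/-- removing a vertex -/
theorem cs_insert (x : Sym2 α → R) {S : Finset α} {v : α} (hv : v ∉ S) :
    cs x (insert v S) =
      ∑ π ∈ parts S, ∏ B ∈ π, (cs x B * (∏ w ∈ B, (1 + x s(v, w)) - 1)) := by
  induction S using Finset.strongInduction with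
  | H S ih =>
    -- first expression of Z(insert v S)
    have hZ1 : ∏ e ∈ pairs (insert v S), (1 + x e) =
        ∑ U ∈ S.powerset, cs x (insert v U) * ∏ e ∈ pairs (S \ U), (1 + x e) := by
      rw [cs_rec x (mem_insert_self v S)]
      refine sum_bij' (fun T _ => T.erase v) (fun U _ => insert v U) ?_ ?_ ?_ ?_ ?_
      · intro T hT
        rw [mem_filter, mem_powerset] at hT
        rw [mem_powerset]
        intro w hw
        rw [mem_erase] at hw
        exact (mem_insert.1 (hT.1 hw.2)).resolve_left hw.1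
      · intro U hU
        rw [mem_powerset] at hU
        rw [mem_filter, mem_powerset]
        exact ⟨insert_subset_insert _ hU, mem_insert_self _ _⟩
      · intro T hT
        rw [mem_filter] at hT
        exact insert_erase hT.2
      · intro U hU
        rw [mem_powerset] at hU
        exact erase_insert (fun h => hv (hU h))
      · intro T hT
        rw [mem_filter, mem_powerset] at hT
        rw [insert_erase hT.2]
        have : insert v S \ T = S \ T.erase v := by
          ext w
          simp only [mem_sdiff, mem_insert, mem_erase]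
          constructor
          · rintro ⟨rfl | hw, hn⟩
            · exact absurd hT.2 hn
            · exact ⟨hw, fun h => hn h.2⟩
          · rintro ⟨hw, hn⟩
            refine ⟨Or.inr hw, fun h => hn ⟨?_, h⟩⟩
            rintro rfl; exact hv hw
        rw [this]
    -- second expression
    have hZ2 : ∏ e ∈ pairs (insert v S), (1 + x e) =
        ∑ U ∈ S.powerset, (∑ π ∈ parts U, ∏ B ∈ π,
          (cs x B * (∏ w ∈ B, (1 + x s(v, w)) - 1))) * ∏ e ∈ pairs (S \ U), (1 + x e) := by
      rw [prod_pairs_insert _ hv, prod_eq_sum_parts x S, sum_mul]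
      have e1 : ∀ π ∈ parts S, (∏ B ∈ π, cs x B) * ∏ w ∈ S, (1 + x s(v, w)) =
          ∏ B ∈ π, (cs x B * (∏ w ∈ B, (1 + x s(v, w)) - 1) + cs x B) := by
        intro π hπ
        have : ∏ w ∈ S, (1 + x s(v, w)) = ∏ B ∈ π, ∏ w ∈ B, (1 + x s(v, w)) := by
          conv_lhs => rw [← (mem_parts.1 hπ).2.2]
          rw [prod_biUnion]
          · rfl
          · intro B hB C hC hne
            exact disj_of_mem hπ hB hC hne
        rw [this, ← prod_mul_distrib]
        refine prod_congr rfl (fun B _ => ?_)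
        ring
      rw [sum_congr rfl e1, sum_parts_prod_add]
      refine sum_congr rfl (fun U _ => ?_)
      rw [prod_eq_sum_parts x (S \ U)]
    have hSmem : S ∈ S.powerset := mem_powerset_self S
    rw [hZ1, ← add_sum_erase _ _ hSmem, ← add_sum_erase (S.powerset) (fun U => (∑ π ∈ parts U,
      ∏ B ∈ π, (cs x B * (∏ w ∈ B, (1 + x s(v, w)) - 1))) * ∏ e ∈ pairs (S \ U), (1 + x e))
      hSmem] at hZ2
    have hrest : ∑ U ∈ S.powerset.erase S, cs x (insert v U) * ∏ e ∈ pairs (S \ U), (1 + x e) =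
        ∑ U ∈ S.powerset.erase S, (∑ π ∈ parts U, ∏ B ∈ π,
          (cs x B * (∏ w ∈ B, (1 + x s(v, w)) - 1))) * ∏ e ∈ pairs (S \ U), (1 + x e) := by
      refine sum_congr rfl (fun U hU => ?_)
      rw [mem_erase, mem_powerset] at hU
      rw [ih U ⟨hU.2, fun h => hU.1 (Subset.antisymm hU.2 h)⟩ (fun h => hv (hU.2 h))]
    rw [hrest] at hZ2
    have h3 := add_right_cancel hZ2
    rw [Finset.sdiff_self, pairs_empty, prod_empty, mul_one, mul_one] at h3
    exact h3

/-- signed form of `cs_insert` -/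
theorem cs_insert_signed (x : Sym2 α → ℝ) {S : Finset α} {v : α} (hv : v ∉ S) :
    (-1 : ℝ) ^ ((insert v S).card - 1) * cs x (insert v S) =
      ∑ π ∈ parts S, ∏ B ∈ π, (((-1 : ℝ) ^ (B.card - 1) * cs x B) *
        (1 - ∏ w ∈ B, (1 + x s(v, w)))) := by
  rw [cs_insert x hv, mul_sum, card_insert_of_notMem hv, Nat.add_sub_cancel]
  refine sum_congr rfl (fun π hπ => ?_)
  rw [← sum_card hπ, ← prod_pow_eq_pow_sum, ← prod_mul_distrib]
  refine prod_congr rfl (fun B hB => ?_)
  have hpos := (ne_empty_of_mem hπ hB).card_pos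
  obtain ⟨k, hk⟩ : ∃ k, B.card = k + 1 := ⟨B.card - 1, by omega⟩
  rw [hk, Nat.add_sub_cancel, pow_succ]
  ring

theorem prod_le_one' (x : Sym2 α → ℝ) (hx : ∀ e, -2 < x e ∧ x e ≤ 0) (v : α) (B : Finset α) :
    ∏ w ∈ B, (1 + x s(v, w)) ≤ 1 := by
  refine (le_abs_self _).trans ?_
  rw [abs_prod]
  refine prod_le_one (fun w _ => abs_nonneg _) (fun w _ => ?_)
  rw [abs_le]
  have := hx s(v, w)
  constructor <;> linarith [this.1, this.2]

theorem prod_lt_one' (x : Sym2 α → ℝ) (hx : ∀ e, -2 < x e ∧ x e ≤ 0) (v : α) (B : Finset α)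
    {w : α} (hw : w ∈ B) (hne : x s(v, w) ≠ 0) :
    ∏ w ∈ B, (1 + x s(v, w)) < 1 := by
  refine (le_abs_self _).trans_lt ?_
  rw [abs_prod, ← mul_prod_erase _ _ hw]
  have h1 : |1 + x s(v, w)| < 1 := by
    rw [abs_lt]
    have := hx s(v, w)
    have h2 : x s(v, w) < 0 := lt_of_le_of_ne this.2 hne
    constructor <;> linarith [this.1]
  have h2 : ∏ w ∈ B.erase w, |1 + x s(v, w)| ≤ 1 := by
    refine prod_le_one (fun w _ => abs_nonneg _) (fun w _ => ?_)
    rw [abs_le]
    have := hx s(v, w)
    constructor <;> linarith [this.1, this.2]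
  have h3 : 0 ≤ ∏ w ∈ B.erase w, |1 + x s(v, w)| := prod_nonneg (fun w _ => abs_nonneg _)
  calc |1 + x s(v, w)| * ∏ w ∈ B.erase w, |1 + x s(v, w)|
      ≤ |1 + x s(v, w)| * 1 := mul_le_mul_of_nonneg_left h2 (abs_nonneg _)
    _ < 1 := by rw [mul_one]; exact h1

theorem cs_sign (x : Sym2 α → ℝ) (hx : ∀ e, -2 < x e ∧ x e ≤ 0) {S : Finset α}
    (hS : S.Nonempty) : 0 ≤ (-1 : ℝ) ^ (S.card - 1) * cs x S := by
  induction S using Finset.strongInduction with
  | H S ih =>
    obtain ⟨v, hv⟩ := hS
    have hSe : insert v (S.erase v) = S := insert_erase hv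
    rw [← hSe, cs_insert_signed x (notMem_erase v S)]
    refine sum_nonneg (fun π hπ => prod_nonneg (fun B hB => ?_))
    refine mul_nonneg (ih B ?_ (ne_empty_of_mem hπ hB)) ?_
    · exact (subset_of_mem hπ hB).trans_ssubset (erase_ssubset hv)
    · linarith [prod_le_one' x hx v B]

/-- a connected edge set on at least two points stays connected after removing some vertex -/
theorem exists_noncut {S : Finset α} {A : Finset (Sym2 α)} (hA : A ⊆ pairs S) (hc : Conn S A)
    (h2 : 2 ≤ S.card) :
    ∃ v ∈ S, Conn (S.erase v) (A ∩ pairs (S.erase v)) := by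
  classical
  let G : SimpleGraph S := (SimpleGraph.fromEdgeSet (A : Set (Sym2 α))).comap Subtype.val
  have hG : G.Connected := by
    obtain ⟨⟨v, hv⟩, hr⟩ := hc
    rw [SimpleGraph.connected_iff_exists_forall_reachable]
    refine ⟨⟨v, hv⟩, ?_⟩
    rintro ⟨w, hw⟩
    have := hr v hv w hw
    have key : ∃ hw : w ∈ S, G.Reachable ⟨v, hv⟩ ⟨w, hw⟩ := by
      refine reach_induct (P := fun w => ∃ hw : w ∈ S, G.Reachable ⟨v, hv⟩ ⟨w, hw⟩)
        ⟨hv, SimpleGraph.Reachable.refl _⟩ ?_ this
      rintro a b _ ⟨ha, har⟩ hab hne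
      refine ⟨(mk_mem_pairs.1 (hA hab)).2.1, har.trans (SimpleGraph.Adj.reachable ?_)⟩
      exact adj_iff.2 ⟨hab, hne⟩
    exact key.2
  have : Nontrivial S := by
    rw [← Fintype.one_lt_card_iff_nontrivial, Fintype.card_coe]
    omega
  obtain ⟨⟨v, hv⟩, hpre⟩ := hG.exists_preconnected_induce_compl_singleton_of_finite
  refine ⟨v, hv, ?_, ?_⟩
  · rw [← Finset.card_pos, card_erase_of_mem hv]; omega
  · intro u hu w hw
    rw [mem_erase] at hu hw
    have hr := hpre ⟨⟨u, hu.2⟩, by simpa using hu.1⟩ ⟨⟨w, hw.2⟩, by simpa using hw.1⟩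
    let F : (G.induce {(⟨v, hv⟩ : S)}ᶜ) →g
      SimpleGraph.fromEdgeSet ((A ∩ pairs (S.erase v) : Finset (Sym2 α)) : Set (Sym2 α)) :=
      { toFun := fun z => z.1.1
        map_rel' := by
          rintro ⟨⟨a, ha⟩, ha'⟩ ⟨⟨b, hb⟩, hb'⟩ hab
          have hab' : (SimpleGraph.fromEdgeSet (A : Set (Sym2 α))).Adj a b := hab
          rw [adj_iff] at hab'
          have ha2 : a ≠ v := by simpa using ha'
          have hb2 : b ≠ v := by simpa using hb'
          rw [adj_iff]
          refine ⟨mem_inter.2 ⟨hab'.1, mk_mem_pairs.2 ⟨?_, ?_, hab'.2⟩⟩, hab'.2⟩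
          · exact mem_erase.2 ⟨ha2, ha⟩
          · exact mem_erase.2 ⟨hb2, hb⟩ }
    exact hr.map F

theorem cs_singleton (x : Sym2 α → R) (v : α) : cs x {v} = 1 := by
  have h := cs_insert x (notMem_empty v)
  rw [parts_empty, sum_singleton, prod_empty] at h
  rw [← h]
  rfl

/-- strict positivity; choose v ∈ S such that S \ {v} is still connected, the partition
`{S \ {v}}` gives a strictly positive term, all others are ≥ 0 -/
theorem cs_sign_pos (x : Sym2 α → ℝ) (hx : ∀ e, -2 < x e ∧ x e ≤ 0) {S : Finset α}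
    (hS : Conn S ((pairs S).filter (fun e => x e ≠ 0))) :
    0 < (-1 : ℝ) ^ (S.card - 1) * cs x S := by
  induction S using Finset.strongInduction with
  | H S ih =>
    rcases Nat.lt_or_ge S.card 2 with hlt | h2
    · have h1 : S.card = 1 := by
        have := hS.1.card_pos
        omega
      obtain ⟨v, rfl⟩ := card_eq_one.1 h1
      rw [cs_singleton, h1]
      norm_num
    · obtain ⟨v, hv, hc⟩ := exists_noncut (filter_subset _ _) hS h2
      have hSe : insert v (S.erase v) = S := insert_erase hv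
      have hne : (S.erase v).Nonempty := by
        rw [← Finset.card_pos, card_erase_of_mem hv]; omega
      have hc' : Conn (S.erase v) ((pairs (S.erase v)).filter (fun e => x e ≠ 0)) := by
        refine ⟨hne, fun u hu w hw => reach_mono ?_ (hc.2 u hu w hw)⟩
        intro e he
        rw [mem_inter, mem_filter] at he
        rw [mem_filter]
        exact ⟨he.2, he.1.2⟩
      -- a neighbour of v
      obtain ⟨w, hw, hxw⟩ : ∃ w ∈ S.erase v, x s(v, w) ≠ 0 := by
        by_contra hcon
        push Not at hcon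
        obtain ⟨u, hu⟩ := hne
        have hr := hS.2 v hv u (mem_of_mem_erase hu)
        have : u = v := by
          refine reach_induct (P := fun u => u = v) rfl ?_ hr
          rintro a b _ rfl hab hne'
          rw [mem_filter] at hab
          exact absurd (hcon b (mem_erase.2 ⟨hne'.symm, (mk_mem_pairs.1 hab.1).2.1⟩)) hab.2
        exact (mem_erase.1 hu).1 this
      rw [← hSe, cs_insert_signed x (notMem_erase v S)]
      refine sum_pos' (fun π hπ => prod_nonneg (fun B hB => ?_))
        ⟨{S.erase v}, singleton_mem_parts hne, ?_⟩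
      · refine mul_nonneg (cs_sign x hx (ne_empty_of_mem hπ hB)) ?_
        linarith [prod_le_one' x hx v B]
      · rw [prod_singleton]
        refine mul_pos (ih _ (erase_ssubset hv) hc') ?_
        linarith [prod_lt_one' x hx v (S.erase v) hw hxw]

end RelRoots
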