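import Pool.Agent.Lib.MP_ccdac2_co.Parts

/-!
Weighted counts of (ordered) set partitions and of coarsenings of a partition.
-/

set_option linter.unusedSectionVars false
set_option linter.unusedSimpArgs false

namespace RelRoots

open Finset

variable {α : Type*} [DecidableEq α]

/-- weighted number of ordered set partitions -/
noncomputable def Osum (f : ℕ → ℝ) (S : Finset α) : ℝ :=
  ∑ θ ∈ parts S, (θ.card.factorial : ℝ) * ∏ B ∈ θ, f B.card

theorem Osum_nonneg {f : ℕ → ℝ} (hf : ∀ b, 0 ≤ f b) (S : Finset α) : 0 ≤ Osum f S :=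
  sum_nonneg (fun _ _ => mul_nonneg (Nat.cast_nonneg _) (prod_nonneg (fun _ _ => hf _)))

theorem Osum_empty (f : ℕ → ℝ) : Osum f (∅ : Finset α) = 1 := by
  unfold Osum; rw [parts_empty]; simp

theorem Osum_rec (f : ℕ → ℝ) {S : Finset α} (hS : S.Nonempty) :
    Osum f S = ∑ B ∈ S.powerset.erase ∅, f B.card * Osum f (S \ B) := by
  unfold Osum
  have h1 : ∀ θ ∈ parts S, (θ.card.factorial : ℝ) * ∏ B ∈ θ, f B.card =
      ∑ B ∈ θ, ((θ.card - 1).factorial : ℝ) * ∏ B ∈ θ, f B.card := by
    intro θ hθ
    rw [sum_const, nsmul_eq_mul, ← mul_assoc]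
    congr 1
    have := card_pos hS hθ
    rw [← Nat.cast_mul, Nat.mul_factorial_pred this.ne']
  rw [sum_congr rfl h1, sum_parts_block S
    (fun θ _ => ((θ.card - 1).factorial : ℝ) * ∏ B ∈ θ, f B.card)]
  refine sum_congr rfl (fun B hB => ?_)
  rw [mem_erase, mem_powerset] at hB
  have hBn : B.Nonempty := Finset.nonempty_iff_ne_empty.2 hB.1
  rw [mul_sum]
  refine sum_congr rfl (fun θ hθ => ?_)
  have hn := notMem_of_sdiff hBn hθ
  rw [card_insert_of_notMem hn, prod_insert hn, Nat.add_sub_cancel]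
  ring

theorem Osum_le {f : ℕ → ℝ} (hf : ∀ b, 0 ≤ f b) {X : ℝ} (hX : 0 < X) {K : ℕ}
    (h : ∀ k ≤ K, ∑ b ∈ Icc 1 k, f b / ((b.factorial : ℝ) * X ^ b) ≤ 1) :
    ∀ k ≤ K, ∀ S : Finset α, S.card = k → Osum f S ≤ (k.factorial : ℝ) * X ^ k := by
  intro k
  induction k using Nat.strong_induction_on with
  | _ k ih =>
    intro hk S hS
    rcases Nat.eq_zero_or_pos k with h0 | hpos
    · subst h0
      rw [card_eq_zero] at hS
      subst hS
      rw [Osum_empty]; simp
    · have hSn : S.Nonempty := by rw [← Finset.card_pos, hS]; exact hpos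
      rw [Osum_rec f hSn]
      -- bound each term
      have h1 : ∑ B ∈ S.powerset.erase ∅, f B.card * Osum f (S \ B) ≤
          ∑ B ∈ S.powerset.erase ∅, (if B.card = 0 then 0 else
            f B.card * (((k - B.card).factorial : ℝ) * X ^ (k - B.card))) := by
        refine sum_le_sum (fun B hB => ?_)
        rw [mem_erase, mem_powerset] at hB
        have hBn : B.Nonempty := Finset.nonempty_iff_ne_empty.2 hB.1
        have hBc := hBn.card_pos
        have hBle : B.card ≤ k := hS ▸ card_le_card hB.2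
        rw [if_neg hBc.ne']
        refine mul_le_mul_of_nonneg_left ?_ (hf _)
        refine ih (k - B.card) (by omega) (by omega) (S \ B) ?_
        rw [card_sdiff_of_subset hB.2, hS]
      refine h1.trans ?_
      have h2 : ∑ B ∈ S.powerset.erase ∅, (if B.card = 0 then (0 : ℝ) else
            f B.card * (((k - B.card).factorial : ℝ) * X ^ (k - B.card))) =
          ∑ B ∈ S.powerset, (if B.card = 0 then (0 : ℝ) else
            f B.card * (((k - B.card).factorial : ℝ) * X ^ (k - B.card))) := by
        apply sum_erase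
        simp
      rw [h2, Finset.sum_powerset_apply_card (fun b => if b = 0 then (0 : ℝ) else
            f b * (((k - b).factorial : ℝ) * X ^ (k - b))), hS]
      have h3 : ∑ m ∈ range (k + 1), k.choose m • (if m = 0 then (0 : ℝ) else
            f m * (((k - m).factorial : ℝ) * X ^ (k - m))) =
          (k.factorial : ℝ) * X ^ k * ∑ b ∈ Icc 1 k, f b / ((b.factorial : ℝ) * X ^ b) := by
        rw [mul_sum, ← Finset.sum_subset (s₁ := Icc 1 k)]
        · refine sum_congr rfl (fun b hb => ?_)
          rw [mem_Icc] at hb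
          rw [if_neg (by omega), nsmul_eq_mul]
          have hf1 : (k.choose b : ℝ) * (b.factorial : ℝ) * ((k - b).factorial : ℝ) =
              (k.factorial : ℝ) := by
            exact_mod_cast Nat.choose_mul_factorial_mul_factorial hb.2
          have hX1 : X ^ k = X ^ b * X ^ (k - b) := by
            rw [← pow_add]; congr 1; omega
          have hbf : (b.factorial : ℝ) ≠ 0 := by positivity
          have hXb : X ^ b ≠ 0 := by positivity
          rw [← hf1, hX1]
          field_simp
        · intro b hb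
          rw [mem_Icc] at hb
          rw [mem_range]; omega
        · intro b hb hb'
          rw [mem_range] at hb
          rw [mem_Icc, not_and_or] at hb'
          have : b = 0 := by omega
          rw [if_pos this]; simp
      rw [h3]
      have h4 := h k hk
      have h5 : 0 ≤ (k.factorial : ℝ) * X ^ k := by positivity
      nlinarith

/-- `ρ` is finer than `σ` -/
def Fine (ρ σ : Finset (Finset α)) : Prop := ∀ P ∈ ρ, ∃ C ∈ σ, P ⊆ C

instance (ρ : Finset (Finset α)) : DecidablePred (Fine ρ) := by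
  intro σ; unfold Fine; infer_instance

/-- coarsenings of `ρ` -/
def coarse (ρ : Finset (Finset α)) : Finset (Finset (Finset α)) :=
  (parts (ρ.biUnion id)).filter (Fine ρ)

theorem sub_parts {S : Finset α} {ρ T : Finset (Finset α)} (h : ρ ∈ parts S) (hT : T ⊆ ρ) :
    T ∈ parts (T.biUnion id) := by
  rw [mem_parts] at h ⊢
  exact ⟨fun hm => h.1 (hT hm), fun B hB C hC hne => h.2.1 B (hT hB) C (hT hC) hne, rfl⟩

theorem biUnion_sdiff {S : Finset α} {ρ T : Finset (Finset α)} (h : ρ ∈ parts S) (hT : T ⊆ ρ) :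
    (ρ \ T).biUnion id = S \ T.biUnion id := by
  ext v
  simp only [mem_biUnion, mem_sdiff, id]
  constructor
  · rintro ⟨P, ⟨hP, hPT⟩, hv⟩
    refine ⟨subset_of_mem h hP hv, ?_⟩
    rintro ⟨Q, hQ, hvQ⟩
    have := block_unique h hP (hT hQ) hv hvQ
    subst this
    exact hPT hQ
  · rintro ⟨hv, hn⟩
    obtain ⟨P, hP, hvP⟩ := exists_block h hv
    exact ⟨P, ⟨hP, fun hPT => hn ⟨P, hPT, hvP⟩⟩, hvP⟩

theorem filter_subset_biUnion {S : Finset α} {ρ T : Finset (Finset α)} (h : ρ ∈ parts S)
    (hT : T ⊆ ρ) : ρ.filter (fun P => P ⊆ T.biUnion id) = T := by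
  ext P
  rw [mem_filter]
  constructor
  · rintro ⟨hP, hsub⟩
    obtain ⟨v, hv⟩ := ne_empty_of_mem h hP
    have := hsub hv
    rw [mem_biUnion] at this
    obtain ⟨Q, hQ, hvQ⟩ := this
    have := block_unique h hP (hT hQ) hv hvQ
    subst this
    exact hQ
  · intro hP
    exact ⟨hT hP, subset_biUnion_of_mem id hP⟩

theorem coarse_block {ρ σ : Finset (Finset α)}
    (hσ : σ ∈ coarse ρ) {C : Finset α} (hC : C ∈ σ) :
    (ρ.filter (fun P => P ⊆ C)).biUnion id = C := by
  unfold coarse at hσ
  rw [mem_filter] at hσ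
  obtain ⟨hσ, hf⟩ := hσ
  ext v
  simp only [mem_biUnion, mem_filter, id]
  constructor
  · rintro ⟨P, ⟨_, hPC⟩, hv⟩
    exact hPC hv
  · intro hv
    have hv' := subset_of_mem hσ hC hv
    rw [mem_biUnion] at hv'
    obtain ⟨P, hP, hvP⟩ := hv'
    obtain ⟨C', hC', hPC'⟩ := hf P hP
    have := block_unique hσ hC hC' hv (hPC' hvP)
    subst this
    exact ⟨P, ⟨hP, hPC'⟩, hvP⟩

/-- summing over pairs (coarsening, block) -/
theorem sum_coarse_block {M : Type*} [AddCommMonoid M] {S : Finset α} {ρ : Finset (Finset α)}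
    (h : ρ ∈ parts S) (F : Finset (Finset α) → Finset α → M) :
    ∑ σ ∈ coarse ρ, ∑ C ∈ σ, F σ C =
      ∑ T ∈ ρ.powerset.erase ∅, ∑ σ ∈ coarse (ρ \ T),
        F (insert (T.biUnion id) σ) (T.biUnion id) := by
  have hS : ρ.biUnion id = S := (mem_parts.1 h).2.2
  rw [Finset.sum_sigma', Finset.sum_sigma']
  refine Finset.sum_bij' (fun p _ => ⟨ρ.filter (fun P => P ⊆ p.2), p.1.erase p.2⟩)
    (fun p _ => ⟨insert (p.1.biUnion id) p.2, p.1.biUnion id⟩) ?_ ?_ ?_ ?_ ?_
  · rintro ⟨σ, C⟩ hp
    rw [mem_sigma] at hp ⊢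
    obtain ⟨h1, h2⟩ := hp
    dsimp only at h1 h2 ⊢
    have hblk := coarse_block h1 h2
    have h1' := h1
    unfold coarse at h1
    rw [mem_filter] at h1
    rw [hS] at h1
    refine ⟨?_, ?_⟩
    · rw [mem_erase, mem_powerset]
      refine ⟨?_, filter_subset _ _⟩
      intro he
      rw [he] at hblk
      have := ne_empty_of_mem h1.1 h2
      rw [← hblk] at this
      simp at this
    · unfold coarse
      rw [mem_filter, biUnion_sdiff h (filter_subset _ _), hblk]
      refine ⟨erase_mem_parts h1.1 h2, ?_⟩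
      intro P hP
      rw [mem_sdiff, mem_filter, not_and] at hP
      obtain ⟨C', hC', hPC'⟩ := h1.2 P hP.1
      refine ⟨C', ?_, hPC'⟩
      rw [mem_erase]
      refine ⟨?_, hC'⟩
      rintro rfl
      exact hP.2 hP.1 hPC'
  · rintro ⟨T, σ⟩ hp
    rw [mem_sigma] at hp ⊢
    obtain ⟨h1, h2⟩ := hp
    dsimp only at h1 h2 ⊢
    rw [mem_erase, mem_powerset] at h1
    have hTn : (T.biUnion id).Nonempty := by
      obtain ⟨P, hP⟩ := Finset.nonempty_iff_ne_empty.2 h1.1
      obtain ⟨v, hv⟩ := ne_empty_of_mem h (h1.2 hP)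
      exact ⟨v, mem_biUnion.2 ⟨P, hP, hv⟩⟩
    have hTS : T.biUnion id ⊆ S := by
      rw [← hS]
      exact biUnion_subset_biUnion_of_subset_left _ h1.2
    unfold coarse at h2
    rw [mem_filter, biUnion_sdiff h h1.2] at h2
    refine ⟨?_, mem_insert_self _ _⟩
    unfold coarse
    rw [mem_filter, hS]
    refine ⟨insert_mem_parts hTn hTS h2.1, ?_⟩
    intro P hP
    by_cases hPT : P ∈ T
    · exact ⟨T.biUnion id, mem_insert_self _ _, subset_biUnion_of_mem id hPT⟩
    · obtain ⟨C, hC, hPC⟩ := h2.2 P (mem_sdiff.2 ⟨hP, hPT⟩)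
      exact ⟨C, mem_insert_of_mem hC, hPC⟩
  · rintro ⟨σ, C⟩ hp
    rw [mem_sigma] at hp
    dsimp only at hp ⊢
    have := coarse_block hp.1 hp.2
    rw [this, insert_erase hp.2]
  · rintro ⟨T, σ⟩ hp
    rw [mem_sigma] at hp
    obtain ⟨h1, h2⟩ := hp
    dsimp only at h1 h2 ⊢
    rw [mem_erase, mem_powerset] at h1
    have hTn : (T.biUnion id).Nonempty := by
      obtain ⟨P, hP⟩ := Finset.nonempty_iff_ne_empty.2 h1.1
      obtain ⟨v, hv⟩ := ne_empty_of_mem h (h1.2 hP)
      exact ⟨v, mem_biUnion.2 ⟨P, hP, hv⟩⟩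
    unfold coarse at h2
    rw [mem_filter, biUnion_sdiff h h1.2] at h2
    rw [filter_subset_biUnion h h1.2, erase_insert (notMem_of_sdiff hTn h2.1)]
  · rintro ⟨σ, C⟩ hp
    rw [mem_sigma] at hp
    dsimp only at hp ⊢
    have := coarse_block hp.1 hp.2
    rw [this, insert_erase hp.2]

/-- number of pairs created by merging the blocks in `T` -/
def cross (T : Finset (Finset α)) : ℕ := (pairs (T.biUnion id)).card - (intr T).card

theorem choose_two_add (x y : ℕ) : (x + y).choose 2 = x.choose 2 + y.choose 2 + x * y := by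
  induction x with
  | zero => simp
  | succ x ih =>
    rw [show x + 1 + y = (x + y) + 1 by ring, Nat.choose_succ_succ' (x + y) 1,
      Nat.choose_succ_succ' x 1, ih, Nat.choose_one_right, Nat.choose_one_right]
    ring

theorem cross_aux {S : Finset α} {T : Finset (Finset α)} (h : T ∈ parts S) :
    (intr T).card + T.card.choose 2 ≤ S.card.choose 2 := by
  revert S
  induction T using Finset.induction_on with
  | empty => intro S h; simp [intr]
  | insert P T hP ih =>
    intro S h
    have hPn := ne_empty_of_mem h (mem_insert_self P T)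
    have hT : T ∈ parts (S \ P) := by
      have := erase_mem_parts h (mem_insert_self P T)
      rwa [erase_insert hP] at this
    have h1 := ih hT
    have hPS : P ⊆ S := subset_of_mem h (mem_insert_self P T)
    rw [intr_insert, card_union_of_disjoint (disjoint_intr hT), card_pairs,
      card_insert_of_notMem hP]
    have h2 : S.card = P.card + (S \ P).card := by
      rw [card_sdiff_of_subset hPS]
      have := card_le_card hPS
      omega
    have h3 : (T.card + 1).choose 2 = T.card.choose 2 + T.card := by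
      rw [choose_two_add]; simp
    rw [h3, h2, choose_two_add P.card]
    have h4 : T.card ≤ (S \ P).card := card_le hT
    have h5 : 1 ≤ P.card := hPn.card_pos
    have h6 : T.card ≤ P.card * (S \ P).card := by nlinarith
    omega

theorem intr_card_le {S : Finset α} {T : Finset (Finset α)} (h : T ∈ parts S) :
    (intr T).card ≤ (pairs S).card := card_le_card (intr_subset h)

theorem choose_le_cross {S : Finset α} {ρ T : Finset (Finset α)} (h : ρ ∈ parts S)
    (hT : T ⊆ ρ) : T.card.choose 2 ≤ cross T := by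
  have := cross_aux (sub_parts h hT)
  unfold cross
  rw [card_pairs]
  omega

/-- weighted number of ordered coarsenings -/
noncomputable def Csum (a : ℝ) (ρ : Finset (Finset α)) : ℝ :=
  ∑ σ ∈ coarse ρ, (σ.card.factorial : ℝ) * a ^ ((intr σ).card - (intr ρ).card)

theorem intr_fine {ρ σ : Finset (Finset α)}
    (hf : Fine ρ σ) : intr ρ ⊆ intr σ := by
  intro e he
  obtain ⟨P, hP, he⟩ := mem_intr.1 he
  obtain ⟨C, hC, hPC⟩ := hf P hP
  exact mem_intr.2 ⟨C, hC, pairs_mono hPC he⟩

theorem intr_split {S : Finset α} {ρ T : Finset (Finset α)} (h : ρ ∈ parts S) (hT : T ⊆ ρ) :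
    (intr ρ).card = (intr T).card + (intr (ρ \ T)).card := by
  rw [card_intr h, card_intr (sub_parts h hT), card_intr (sub_parts h (sdiff_subset (s := ρ) (t := T))),
    add_comm, Finset.sum_sdiff hT]

theorem mem_coarse {ρ σ : Finset (Finset α)} :
    σ ∈ coarse ρ ↔ σ ∈ parts (ρ.biUnion id) ∧ Fine ρ σ := by
  unfold coarse; rw [mem_filter]

/-- exponent bookkeeping -/
theorem expo_split {S : Finset α} {ρ T σ : Finset (Finset α)} (h : ρ ∈ parts S) (hT : T ⊆ ρ)
    (hσ : σ ∈ coarse (ρ \ T)) :
    (intr (insert (T.biUnion id) σ)).card - (intr ρ).card =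
      cross T + ((intr σ).card - (intr (ρ \ T)).card) := by
  rw [mem_coarse, biUnion_sdiff h hT] at hσ
  rw [intr_insert, card_union_of_disjoint (disjoint_intr hσ.1), intr_split h hT]
  unfold cross
  have h1 : (intr T).card ≤ (pairs (T.biUnion id)).card := intr_card_le (sub_parts h hT)
  have h2 : (intr (ρ \ T)).card ≤ (intr σ).card :=
    card_le_card (intr_fine hσ.2)
  omega

theorem Csum_empty (a : ℝ) : Csum a (∅ : Finset (Finset α)) = 1 := by
  unfold Csum coarse
  rw [show (∅ : Finset (Finset α)).biUnion id = ∅ from rfl, parts_empty]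
  have : ({∅} : Finset (Finset (Finset α))).filter (Fine ∅) = {∅} := by
    rw [filter_eq_self]
    intro σ _ P hP
    simp at hP
  rw [this]
  simp

theorem Csum_rec {a : ℝ} {S : Finset α} {ρ : Finset (Finset α)} (h : ρ ∈ parts S)
    (hρ : ρ.Nonempty) :
    Csum a ρ = ∑ T ∈ ρ.powerset.erase ∅, a ^ cross T * Csum a (ρ \ T) := by
  unfold Csum
  have hSn : (ρ.biUnion id).Nonempty := by
    obtain ⟨P, hP⟩ := hρ
    obtain ⟨v, hv⟩ := ne_empty_of_mem h hP
    exact ⟨v, mem_biUnion.2 ⟨P, hP, hv⟩⟩
  have h1 : ∀ σ ∈ coarse ρ, (σ.card.factorial : ℝ) * a ^ ((intr σ).card - (intr ρ).card) =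
      ∑ C ∈ σ, ((σ.card - 1).factorial : ℝ) * a ^ ((intr σ).card - (intr ρ).card) := by
    intro σ hσ
    rw [mem_coarse] at hσ
    rw [sum_const, nsmul_eq_mul, ← mul_assoc]
    congr 1
    have := card_pos hSn hσ.1
    rw [← Nat.cast_mul, Nat.mul_factorial_pred this.ne']
  rw [sum_congr rfl h1, sum_coarse_block h
    (fun σ _ => ((σ.card - 1).factorial : ℝ) * a ^ ((intr σ).card - (intr ρ).card))]
  refine sum_congr rfl (fun T hT => ?_)
  rw [mem_erase, mem_powerset] at hT
  have hTn : T.Nonempty := Finset.nonempty_iff_ne_empty.2 hT.1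
  rw [mul_sum]
  refine sum_congr rfl (fun σ hσ => ?_)
  rw [expo_split h hT.2 hσ]
  have hTn' : (T.biUnion id).Nonempty := by
    obtain ⟨P, hP⟩ := hTn
    obtain ⟨v, hv⟩ := ne_empty_of_mem h (hT.2 hP)
    exact ⟨v, mem_biUnion.2 ⟨P, hP, hv⟩⟩
  rw [mem_coarse, biUnion_sdiff h hT.2] at hσ
  rw [card_insert_of_notMem (notMem_of_sdiff hTn' hσ.1), Nat.add_sub_cancel, pow_add]
  ring

theorem Csum_nonneg {a : ℝ} (ha : 0 ≤ a) (ρ : Finset (Finset α)) : 0 ≤ Csum a ρ :=
  sum_nonneg (fun _ _ => by positivity)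

/-- the basic bound for coarsenings -/
theorem Csum_le {a X : ℝ} (ha : 0 ≤ a) (ha1 : a ≤ 1) (hX : 0 < X)
    (h : ∀ k, ∑ b ∈ Icc 1 k, a ^ (b.choose 2) / ((b.factorial : ℝ) * X ^ b) ≤ 1) :
    ∀ k, ∀ S : Finset α, ∀ ρ ∈ parts S, ρ.card = k → Csum a ρ ≤ (k.factorial : ℝ) * X ^ k := by
  intro k
  induction k using Nat.strong_induction_on with
  | _ k ih =>
    intro S ρ hρ hk
    rcases Nat.eq_zero_or_pos k with h0 | hpos
    · subst h0
      rw [card_eq_zero] at hk
      subst hk
      rw [Csum_empty]; simp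
    · have hρn : ρ.Nonempty := by rw [← Finset.card_pos, hk]; exact hpos
      rw [Csum_rec hρ hρn]
      have h1 : ∑ T ∈ ρ.powerset.erase ∅, a ^ cross T * Csum a (ρ \ T) ≤
          ∑ T ∈ ρ.powerset.erase ∅, (if T.card = 0 then 0 else
            a ^ (T.card.choose 2) * (((k - T.card).factorial : ℝ) * X ^ (k - T.card))) := by
        refine sum_le_sum (fun T hT => ?_)
        rw [mem_erase, mem_powerset] at hT
        have hTn : T.Nonempty := Finset.nonempty_iff_ne_empty.2 hT.1
        have hTc := hTn.card_pos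
        have hTle : T.card ≤ k := hk ▸ card_le_card hT.2
        rw [if_neg hTc.ne']
        refine mul_le_mul ?_ ?_ (Csum_nonneg ha _) (by positivity)
        · exact pow_le_pow_of_le_one ha ha1 (choose_le_cross hρ hT.2)
        · refine ih (k - T.card) (by omega) ((ρ \ T).biUnion id) (ρ \ T)
            (sub_parts hρ sdiff_subset) ?_
          rw [card_sdiff_of_subset hT.2, hk]
      refine h1.trans ?_
      have h2 : ∑ T ∈ ρ.powerset.erase ∅, (if T.card = 0 then (0 : ℝ) else
            a ^ (T.card.choose 2) * (((k - T.card).factorial : ℝ) * X ^ (k - T.card))) =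
          ∑ T ∈ ρ.powerset, (if T.card = 0 then (0 : ℝ) else
            a ^ (T.card.choose 2) * (((k - T.card).factorial : ℝ) * X ^ (k - T.card))) := by
        apply sum_erase
        simp
      rw [h2, Finset.sum_powerset_apply_card (fun b => if b = 0 then (0 : ℝ) else
            a ^ (b.choose 2) * (((k - b).factorial : ℝ) * X ^ (k - b))), hk]
      have h3 : ∑ m ∈ range (k + 1), k.choose m • (if m = 0 then (0 : ℝ) else
            a ^ (m.choose 2) * (((k - m).factorial : ℝ) * X ^ (k - m))) =
          (k.factorial : ℝ) * X ^ k *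
            ∑ b ∈ Icc 1 k, a ^ (b.choose 2) / ((b.factorial : ℝ) * X ^ b) := by
        rw [mul_sum, ← Finset.sum_subset (s₁ := Icc 1 k)]
        · refine sum_congr rfl (fun b hb => ?_)
          rw [mem_Icc] at hb
          rw [if_neg (by omega), nsmul_eq_mul]
          have hf1 : (k.choose b : ℝ) * (b.factorial : ℝ) * ((k - b).factorial : ℝ) =
              (k.factorial : ℝ) := by
            exact_mod_cast Nat.choose_mul_factorial_mul_factorial hb.2
          have hX1 : X ^ k = X ^ b * X ^ (k - b) := by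
            rw [← pow_add]; congr 1; omega
          have hbf : (b.factorial : ℝ) ≠ 0 := by positivity
          have hXb : X ^ b ≠ 0 := by positivity
          rw [← hf1, hX1]
          field_simp
        · intro b hb
          rw [mem_Icc] at hb
          rw [mem_range]; omega
        · intro b hb hb'
          rw [mem_range] at hb
          rw [mem_Icc, not_and_or] at hb'
          have : b = 0 := by omega
          rw [if_pos this]; simp
      rw [h3]
      have h4 := h k
      have h5 : 0 ≤ (k.factorial : ℝ) * X ^ k := by positivity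
      nlinarith

end RelRoots
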