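import Pool.Agent.Lib.MP_ccdac2_co.Count

/-!
More counting: maximal blocks, nonsingleton blocks, meets of partitions, coarsenings with a big block.
-/

set_option linter.unusedSectionVars false
set_option linter.unusedSimpArgs false

namespace RelRoots

open Finset

variable {α : Type*} [DecidableEq α]

/-- bounding a sum over partitions by choosing a block of maximal size -/
theorem sum_maxblock {S : Finset α} (hS : S.Nonempty) (F : Finset (Finset α) → ℝ)
    (hF : ∀ θ, 0 ≤ F θ) :
    ∑ π ∈ parts S, F π ≤ ∑ B ∈ S.powerset.erase ∅,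
      ∑ θ ∈ (parts (S \ B)).filter (fun θ => ∀ C ∈ θ, C.card ≤ B.card), F (insert B θ) := by
  classical
  have h1 : ∑ π ∈ parts S, F π ≤
      ∑ π ∈ parts S, ∑ B ∈ π, (if ∀ C ∈ π, C.card ≤ B.card then F π else 0) := by
    refine sum_le_sum (fun π hπ => ?_)
    obtain ⟨B, hB, hmax⟩ := Finset.exists_max_image π Finset.card
      (Finset.card_pos.1 (card_pos hS hπ))
    calc F π = (if ∀ C ∈ π, C.card ≤ B.card then F π else 0) := by rw [if_pos hmax]
      _ ≤ _ := single_le_sum (f := fun B => if ∀ C ∈ π, C.card ≤ B.card then F π else 0)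
          (fun B _ => by split_ifs; exacts [hF _, le_rfl]) hB
  refine h1.trans (le_of_eq ?_)
  rw [sum_parts_block S (fun π B => if ∀ C ∈ π, C.card ≤ B.card then F π else 0)]
  refine sum_congr rfl (fun B _ => ?_)
  rw [sum_filter]
  refine sum_congr rfl (fun θ _ => ?_)
  have : (∀ C ∈ insert B θ, C.card ≤ B.card) ↔ (∀ C ∈ θ, C.card ≤ B.card) := by
    constructor
    · intro h C hC; exact h C (mem_insert_of_mem hC)
    · intro h C hC
      rw [mem_insert] at hC
      rcases hC with rfl | hC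
      · exact le_rfl
      · exact h C hC
  simp only [this]

theorem two_mul_choose (b : ℕ) : 2 * b.choose 2 = b * (b - 1) := by
  rw [Nat.choose_two_right, Nat.mul_div_cancel']
  exact (Nat.even_mul_pred_self b).two_dvd

/-- cross pairs: first bound -/
theorem cross_bound1 {S : Finset α} {π : Finset (Finset α)} (h : π ∈ parts S) {b : ℕ}
    (hb : ∀ C ∈ π, C.card ≤ b) :
    2 * (intr π).card + S.card * (S.card - b) ≤ 2 * (pairs S).card := by
  rcases Nat.eq_zero_or_pos S.card with h0 | hpos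
  · rw [card_eq_zero] at h0
    subst h0
    rw [parts_empty, mem_singleton] at h
    subst h
    simp [intr]
  have hb1 : 1 ≤ b := by
    obtain ⟨v, hv⟩ := Finset.card_pos.1 hpos
    obtain ⟨B, hB, hvB⟩ := exists_block h hv
    exact le_trans (Finset.card_pos.2 ⟨v, hvB⟩) (hb B hB)
  have h1 : 2 * (intr π).card ≤ S.card * (b - 1) := by
    rw [card_intr h, mul_sum, ← sum_card h, sum_mul]
    refine sum_le_sum (fun C hC => ?_)
    rw [two_mul_choose]
    exact Nat.mul_le_mul_left _ (Nat.sub_le_sub_right (hb C hC) 1)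
  rw [card_pairs, two_mul_choose]
  rcases le_or_gt b S.card with hle | hgt
  · calc 2 * (intr π).card + S.card * (S.card - b) ≤ S.card * (b - 1) + S.card * (S.card - b) := by
          omega
      _ = S.card * ((b - 1) + (S.card - b)) := by ring
      _ = S.card * (S.card - 1) := by congr 1; omega
  · have : S.card - b = 0 := by omega
    rw [this, mul_zero, add_zero]
    have h2 := intr_card_le h
    rw [card_pairs] at h2
    have h3 := two_mul_choose S.card
    omega

/-- cross pairs: second bound -/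
theorem cross_bound2 {S B : Finset α} (hBS : B ⊆ S) {θ : Finset (Finset α)}
    (h : θ ∈ parts (S \ B)) :
    (intr (insert B θ)).card + B.card * (S.card - B.card) ≤ (pairs S).card := by
  rw [intr_insert, card_union_of_disjoint (disjoint_intr h), card_pairs, card_pairs]
  have h1 := intr_card_le h
  rw [card_pairs, card_sdiff_of_subset hBS] at h1
  have h2 : S.card = B.card + (S.card - B.card) := by
    have := card_le_card hBS; omega
  have h3 := choose_two_add B.card (S.card - B.card)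
  rw [← h2] at h3
  omega

theorem card_insert_block {S B : Finset α} (hB : B.Nonempty) {θ : Finset (Finset α)}
    (h : θ ∈ parts (S \ B)) : (insert B θ).card = θ.card + 1 :=
  card_insert_of_notMem (notMem_of_sdiff hB h)

/-- nonsingleton blocks determine the partition -/
theorem nonsing_injOn (S : Finset α) :
    Set.InjOn (fun ρ : Finset (Finset α) => ρ.filter (fun B => 2 ≤ B.card))
      (parts S : Set (Finset (Finset α))) := by
  have key : ∀ ρ ∈ parts S, ∀ ρ' ∈ parts S,
      ρ.filter (fun B => 2 ≤ B.card) = ρ'.filter (fun B => 2 ≤ B.card) → ρ ⊆ ρ' := by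
    intro ρ hρ ρ' hρ' heq B hB
    by_cases h2 : 2 ≤ B.card
    · have : B ∈ ρ.filter (fun B => 2 ≤ B.card) := mem_filter.2 ⟨hB, h2⟩
      rw [heq] at this
      exact (mem_filter.1 this).1
    · have hBn := (ne_empty_of_mem hρ hB).card_pos
      have h1 : B.card = 1 := by omega
      obtain ⟨v, rfl⟩ := card_eq_one.1 h1
      have hvS : v ∈ S := subset_of_mem hρ hB (mem_singleton_self v)
      obtain ⟨B', hB', hvB'⟩ := exists_block hρ' hvS
      by_cases h3 : 2 ≤ B'.card
      · have : B' ∈ ρ'.filter (fun B => 2 ≤ B.card) := mem_filter.2 ⟨hB', h3⟩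
        rw [← heq] at this
        have := block_unique hρ (mem_filter.1 this).1 hB hvB' (mem_singleton_self v)
        rw [this] at h3
        simp at h3
      · have hB'n := (ne_empty_of_mem hρ' hB').card_pos
        have h4 : B'.card = 1 := by omega
        obtain ⟨w, rfl⟩ := card_eq_one.1 h4
        rw [mem_singleton] at hvB'
        subst hvB'
        exact hB'
  intro ρ hρ ρ' hρ' heq
  exact Subset.antisymm (key ρ hρ ρ' hρ' heq) (key ρ' hρ' ρ hρ heq.symm)

/-- partitions with blocks of size at most `bm` -/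
def sparts (S : Finset α) (bm : ℕ) : Finset (Finset (Finset α)) :=
  (parts S).filter (fun ρ => ∀ B ∈ ρ, B.card ≤ bm)

theorem mem_sparts {S : Finset α} {bm : ℕ} {ρ : Finset (Finset α)} :
    ρ ∈ sparts S bm ↔ ρ ∈ parts S ∧ ∀ B ∈ ρ, B.card ≤ bm := by
  unfold sparts; rw [mem_filter]

/-- partitions with blocks of size at most `bm`, at least one of size at least 3 -/
def sparts3 (S : Finset α) (bm : ℕ) : Finset (Finset (Finset α)) :=
  (sparts S bm).filter (fun ρ => ∃ B ∈ ρ, 3 ≤ B.card)

theorem mem_sparts3 {S : Finset α} {bm : ℕ} {ρ : Finset (Finset α)} :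
    ρ ∈ sparts3 S bm ↔ (ρ ∈ parts S ∧ ∀ B ∈ ρ, B.card ≤ bm) ∧ ∃ B ∈ ρ, 3 ≤ B.card := by
  unfold sparts3; rw [mem_filter, mem_sparts]

/-- sums over partitions with bounded blocks -/
theorem nonsing_sum {S : Finset α} (g : Finset α → ℝ) (hg : ∀ B, 0 ≤ g B) (bm : ℕ) :
    ∑ ρ ∈ sparts S bm, ∏ B ∈ ρ.filter (fun B => 2 ≤ B.card), g B ≤
    Real.exp (∑ B ∈ S.powerset.filter (fun B => 2 ≤ B.card ∧ B.card ≤ bm), g B) := by
  classical
  set 𝒢 := S.powerset.filter (fun B => 2 ≤ B.card ∧ B.card ≤ bm) with h𝒢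
  calc ∑ ρ ∈ sparts S bm, ∏ B ∈ ρ.filter (fun B => 2 ≤ B.card), g B
      = ∑ T ∈ (sparts S bm).image
          (fun ρ => ρ.filter (fun B => 2 ≤ B.card)), ∏ B ∈ T, g B := by
        rw [sum_image]
        exact (nonsing_injOn S).mono (by
          intro ρ hρ
          exact (mem_sparts.1 (mem_coe.1 hρ)).1)
    _ ≤ ∑ T ∈ 𝒢.powerset, ∏ B ∈ T, g B := by
        refine sum_le_sum_of_subset_of_nonneg ?_ (fun T _ _ => prod_nonneg (fun B _ => hg B))
        intro T hT
        rw [mem_image] at hT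
        obtain ⟨ρ, hρ, rfl⟩ := hT
        rw [mem_sparts] at hρ
        rw [mem_powerset]
        intro B hB
        rw [mem_filter] at hB
        rw [h𝒢, mem_filter, mem_powerset]
        exact ⟨subset_of_mem hρ.1 hB.1, hB.2, hρ.2 B hB.1⟩
    _ = ∏ B ∈ 𝒢, (1 + g B) := by rw [prod_one_add]
    _ ≤ ∏ B ∈ 𝒢, Real.exp (g B) :=
        prod_le_prod (fun B _ => by linarith [hg B])
          (fun B _ => by linarith [Real.add_one_le_exp (g B)])
    _ = _ := by rw [Real.exp_sum]

/-- sums over partitions with bounded blocks and at least one block of size ≥ 3 -/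
theorem nonsing_sum3 {S : Finset α} (g : Finset α → ℝ) (hg : ∀ B, 0 ≤ g B) (bm : ℕ) :
    ∑ ρ ∈ sparts3 S bm, ∏ B ∈ ρ.filter (fun B => 2 ≤ B.card), g B ≤
    (∑ B ∈ S.powerset.filter (fun B => 3 ≤ B.card ∧ B.card ≤ bm), g B) *
    Real.exp (∑ B ∈ S.powerset.filter (fun B => 2 ≤ B.card ∧ B.card ≤ bm), g B) := by
  classical
  set 𝒢 := S.powerset.filter (fun B => 2 ≤ B.card ∧ B.card ≤ bm) with h𝒢
  set 𝒢3 := S.powerset.filter (fun B => 3 ≤ B.card ∧ B.card ≤ bm) with h𝒢3
  have hexp : ∑ T ∈ 𝒢.powerset, ∏ B ∈ T, g B ≤ Real.exp (∑ B ∈ 𝒢, g B) := by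
    rw [← prod_one_add, Real.exp_sum]
    exact prod_le_prod (fun B _ => by linarith [hg B])
          (fun B _ => by linarith [Real.add_one_le_exp (g B)])
  calc ∑ ρ ∈ sparts3 S bm, ∏ B ∈ ρ.filter (fun B => 2 ≤ B.card), g B
      = ∑ T ∈ (sparts3 S bm).image
          (fun ρ => ρ.filter (fun B => 2 ≤ B.card)), ∏ B ∈ T, g B := by
        rw [sum_image]
        exact (nonsing_injOn S).mono (by
          intro ρ hρ
          exact (mem_sparts3.1 (mem_coe.1 hρ)).1.1)
    _ ≤ ∑ T ∈ 𝒢.powerset.filter (fun T => ∃ B ∈ T, 3 ≤ B.card), ∏ B ∈ T, g B := by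
        refine sum_le_sum_of_subset_of_nonneg ?_ (fun T _ _ => prod_nonneg (fun B _ => hg B))
        intro T hT
        rw [mem_image] at hT
        obtain ⟨ρ, hρ, rfl⟩ := hT
        rw [mem_sparts3] at hρ
        obtain ⟨⟨hρ, hbd⟩, B, hB, hB3⟩ := hρ
        rw [mem_filter, mem_powerset]
        refine ⟨?_, B, mem_filter.2 ⟨hB, by omega⟩, hB3⟩
        intro B hB
        rw [mem_filter] at hB
        rw [h𝒢, mem_filter, mem_powerset]
        exact ⟨subset_of_mem hρ hB.1, hB.2, hbd B hB.1⟩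
    _ ≤ ∑ T ∈ 𝒢.powerset, ∑ B ∈ 𝒢3, (if B ∈ T then ∏ B ∈ T, g B else 0) := by
        rw [sum_filter]
        refine sum_le_sum (fun T hT => ?_)
        have hnn : ∀ B ∈ 𝒢3, (0:ℝ) ≤ (if B ∈ T then ∏ B ∈ T, g B else 0) := by
          intro B _
          split_ifs
          · exact prod_nonneg (fun B _ => hg B)
          · exact le_rfl
        split_ifs with h
        · obtain ⟨B, hB, hB3⟩ := h
          have hB' : B ∈ 𝒢3 := by
            rw [mem_powerset] at hT
            have := hT hB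
            rw [h𝒢, mem_filter] at this
            rw [h𝒢3, mem_filter]
            exact ⟨this.1, hB3, this.2.2⟩
          calc ∏ B ∈ T, g B = (if B ∈ T then ∏ B ∈ T, g B else 0) := by rw [if_pos hB]
            _ ≤ _ := single_le_sum (f := fun B => if B ∈ T then ∏ B ∈ T, g B else 0) hnn hB'
        · exact sum_nonneg hnn
    _ = ∑ B ∈ 𝒢3, ∑ T ∈ 𝒢.powerset.filter (fun T => B ∈ T), ∏ B ∈ T, g B := by
        rw [sum_comm]
        refine sum_congr rfl (fun B _ => ?_)
        rw [sum_filter]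
    _ ≤ ∑ B ∈ 𝒢3, g B * ∑ T ∈ 𝒢.powerset, ∏ B ∈ T, g B := by
        refine sum_le_sum (fun B hB => ?_)
        rw [mul_sum]
        have h1 : ∑ T ∈ 𝒢.powerset.filter (fun T => B ∈ T), ∏ B ∈ T, g B =
            ∑ T ∈ 𝒢.powerset.filter (fun T => B ∈ T), g B * ∏ B ∈ T.erase B, g B := by
          refine sum_congr rfl (fun T hT => ?_)
          rw [mem_filter] at hT
          rw [mul_prod_erase _ _ hT.2]
        rw [h1]
        calc ∑ T ∈ 𝒢.powerset.filter (fun T => B ∈ T), g B * ∏ B ∈ T.erase B, g B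
            = ∑ T' ∈ (𝒢.powerset.filter (fun T => B ∈ T)).image (fun T => T.erase B),
                g B * ∏ B ∈ T', g B := by
              rw [sum_image]
              intro T hT T' hT' heq
              have hT := (mem_filter.1 (mem_coe.1 hT)).2
              have hT' := (mem_filter.1 (mem_coe.1 hT')).2
              dsimp only at heq
              rw [← insert_erase hT, ← insert_erase hT', heq]
          _ ≤ ∑ T ∈ 𝒢.powerset, g B * ∏ B ∈ T, g B := by
              refine sum_le_sum_of_subset_of_nonneg ?_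
                (fun T _ _ => mul_nonneg (hg _) (prod_nonneg (fun B _ => hg B)))
              intro T hT
              rw [mem_image] at hT
              obtain ⟨T, hT, rfl⟩ := hT
              rw [mem_filter, mem_powerset] at hT
              rw [mem_powerset]
              exact (erase_subset _ _).trans hT.1
    _ = (∑ B ∈ 𝒢3, g B) * ∑ T ∈ 𝒢.powerset, ∏ B ∈ T, g B := by rw [sum_mul]
    _ ≤ _ := mul_le_mul_of_nonneg_left hexp (sum_nonneg (fun B _ => hg B))

/-- common refinement -/
def meet (π σ : Finset (Finset α)) : Finset (Finset α) :=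
  ((π ×ˢ σ).image (fun p => p.1 ∩ p.2)).erase ∅

theorem mem_meet {π σ : Finset (Finset α)} {D : Finset α} :
    D ∈ meet π σ ↔ D.Nonempty ∧ ∃ B ∈ π, ∃ C ∈ σ, B ∩ C = D := by
  unfold meet
  rw [mem_erase, mem_image, Finset.nonempty_iff_ne_empty]
  constructor
  · rintro ⟨h1, ⟨B, C⟩, h2, h3⟩
    rw [mem_product] at h2
    exact ⟨h1, B, h2.1, C, h2.2, h3⟩
  · rintro ⟨h1, B, hB, C, hC, h3⟩
    exact ⟨h1, (B, C), mem_product.2 ⟨hB, hC⟩, h3⟩

theorem meet_mem_parts {S : Finset α} {π σ : Finset (Finset α)} (hπ : π ∈ parts S)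
    (hσ : σ ∈ parts S) : meet π σ ∈ parts S := by
  rw [mem_parts]
  refine ⟨?_, ?_, ?_⟩
  · intro h
    rw [mem_meet] at h
    exact Finset.not_nonempty_empty h.1
  · intro D hD D' hD' hne
    rw [mem_meet] at hD hD'
    obtain ⟨_, B, hB, C, hC, rfl⟩ := hD
    obtain ⟨_, B', hB', C', hC', rfl⟩ := hD'
    rw [Finset.disjoint_left]
    intro v hv hv'
    rw [mem_inter] at hv hv'
    have h1 := block_unique hπ hB hB' hv.1 hv'.1
    have h2 := block_unique hσ hC hC' hv.2 hv'.2
    subst h1; subst h2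
    exact hne rfl
  · ext v
    simp only [mem_biUnion, id]
    constructor
    · rintro ⟨D, hD, hv⟩
      rw [mem_meet] at hD
      obtain ⟨_, B, hB, C, hC, rfl⟩ := hD
      exact subset_of_mem hπ hB (mem_inter.1 hv).1
    · intro hv
      obtain ⟨B, hB, hvB⟩ := exists_block hπ hv
      obtain ⟨C, hC, hvC⟩ := exists_block hσ hv
      refine ⟨B ∩ C, ?_, mem_inter.2 ⟨hvB, hvC⟩⟩
      rw [mem_meet]
      exact ⟨⟨v, mem_inter.2 ⟨hvB, hvC⟩⟩, B, hB, C, hC, rfl⟩

theorem meet_fine_left {π σ : Finset (Finset α)} : Fine (meet π σ) π := by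
  intro D hD
  rw [mem_meet] at hD
  obtain ⟨_, B, hB, C, hC, rfl⟩ := hD
  exact ⟨B, hB, inter_subset_left⟩

theorem meet_fine_right {π σ : Finset (Finset α)} : Fine (meet π σ) σ := by
  intro D hD
  rw [mem_meet] at hD
  obtain ⟨_, B, hB, C, hC, rfl⟩ := hD
  exact ⟨C, hC, inter_subset_right⟩

theorem intr_meet {π σ : Finset (Finset α)} : intr (meet π σ) = intr π ∩ intr σ := by
  ext e
  rw [mem_inter, mem_intr, mem_intr, mem_intr]
  constructor
  · rintro ⟨D, hD, he⟩
    rw [mem_meet] at hD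
    obtain ⟨_, B, hB, C, hC, rfl⟩ := hD
    exact ⟨⟨B, hB, pairs_mono inter_subset_left he⟩, ⟨C, hC, pairs_mono inter_subset_right he⟩⟩
  · rintro ⟨⟨B, hB, heB⟩, ⟨C, hC, heC⟩⟩
    refine ⟨B ∩ C, ?_, ?_⟩
    · rw [mem_meet]
      refine ⟨?_, B, hB, C, hC, rfl⟩
      induction e using Sym2.ind with
      | _ a b =>
        rw [mk_mem_pairs] at heB heC
        exact ⟨a, mem_inter.2 ⟨heB.1, heC.1⟩⟩
    · induction e using Sym2.ind with
      | _ a b =>
        rw [mk_mem_pairs] at heB heC ⊢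
        exact ⟨mem_inter.2 ⟨heB.1, heC.1⟩, mem_inter.2 ⟨heB.2.1, heC.2.1⟩, heB.2.2⟩

/-- the double sum over partitions is bounded by a sum over the common refinement -/
theorem meet_sum {S : Finset α} (P : Finset (Finset (Finset α))) (hP : P ⊆ parts S)
    (c : Finset (Finset α) → ℝ) (hc : ∀ π, 0 ≤ c π) {a κ : ℝ} (ha : 0 ≤ a) (hκ : 0 ≤ κ)
    (bm : ℕ) (hbm : ∀ π ∈ P, ∀ B ∈ π, B.card ≤ bm) :
    ∑ π ∈ P, ∑ σ ∈ P, c π * c σ * (κ ^ (intr π ∩ intr σ).card *
        a ^ ((intr π \ intr σ).card + (intr σ \ intr π).card)) ≤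
      ∑ ρ ∈ sparts S bm, κ ^ (intr ρ).card *
        (∑ π ∈ P.filter (Fine ρ), c π * a ^ ((intr π).card - (intr ρ).card)) ^ 2 := by
  classical
  set R := sparts S bm with hR
  have h1 : ∀ π ∈ P, ∀ σ ∈ P, c π * c σ * (κ ^ (intr π ∩ intr σ).card *
        a ^ ((intr π \ intr σ).card + (intr σ \ intr π).card)) ≤
      ∑ ρ ∈ R, (if Fine ρ π ∧ Fine ρ σ then κ ^ (intr ρ).card *
        ((c π * a ^ ((intr π).card - (intr ρ).card)) *
         (c σ * a ^ ((intr σ).card - (intr ρ).card))) else 0) := by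
    intro π hπ σ hσ
    have hm : meet π σ ∈ R := by
      rw [hR, mem_sparts]
      refine ⟨meet_mem_parts (hP hπ) (hP hσ), ?_⟩
      intro D hD
      obtain ⟨B, hB, hDB⟩ := meet_fine_left D hD
      exact (card_le_card hDB).trans (hbm π hπ B hB)
    have hnn : ∀ ρ ∈ R, (0 : ℝ) ≤ (if Fine ρ π ∧ Fine ρ σ then κ ^ (intr ρ).card *
        ((c π * a ^ ((intr π).card - (intr ρ).card)) *
         (c σ * a ^ ((intr σ).card - (intr ρ).card))) else 0) := by
      intro ρ _
      split_ifs
      · have := hc π; have := hc σ; positivity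
      · exact le_rfl
    refine le_trans (le_of_eq ?_) (single_le_sum hnn hm)
    rw [if_pos ⟨meet_fine_left, meet_fine_right⟩, intr_meet]
    have e1 : (intr π).card - (intr π ∩ intr σ).card = (intr π \ intr σ).card := by
      rw [card_sdiff, inter_comm]
    have e2 : (intr σ).card - (intr π ∩ intr σ).card = (intr σ \ intr π).card := by
      rw [card_sdiff]
    rw [e1, e2, pow_add]
    ring
  calc ∑ π ∈ P, ∑ σ ∈ P, c π * c σ * (κ ^ (intr π ∩ intr σ).card *
        a ^ ((intr π \ intr σ).card + (intr σ \ intr π).card))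
      ≤ ∑ π ∈ P, ∑ σ ∈ P, ∑ ρ ∈ R, (if Fine ρ π ∧ Fine ρ σ then κ ^ (intr ρ).card *
        ((c π * a ^ ((intr π).card - (intr ρ).card)) *
         (c σ * a ^ ((intr σ).card - (intr ρ).card))) else 0) :=
        sum_le_sum (fun π hπ => sum_le_sum (fun σ hσ => h1 π hπ σ hσ))
    _ = ∑ ρ ∈ R, ∑ π ∈ P, ∑ σ ∈ P, (if Fine ρ π ∧ Fine ρ σ then κ ^ (intr ρ).card *
        ((c π * a ^ ((intr π).card - (intr ρ).card)) *
         (c σ * a ^ ((intr σ).card - (intr ρ).card))) else 0) := by
        rw [sum_congr rfl (fun π _ => sum_comm), sum_comm]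
    _ = _ := by
        refine sum_congr rfl (fun ρ _ => ?_)
        rw [sq, sum_mul_sum, mul_sum, sum_filter]
        refine sum_congr rfl (fun π _ => ?_)
        by_cases h : Fine ρ π
        · rw [if_pos h, mul_sum, sum_filter]
          refine sum_congr rfl (fun σ _ => ?_)
          by_cases h' : Fine ρ σ
          · rw [if_pos ⟨h, h'⟩, if_pos h']
          · rw [if_neg (fun hh => h' hh.2), if_neg h']
        · rw [if_neg h]
          refine sum_eq_zero (fun σ _ => ?_)
          rw [if_neg (fun hh => h hh.1)]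

end RelRoots
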