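import Pool.Agent.Lib.MP_ccdac2_co.Count2

/-!
Coarsenings with a block of size at least 3.
-/

set_option linter.unusedSectionVars false
set_option linter.unusedSimpArgs false

namespace RelRoots

open Finset

variable {α : Type*} [DecidableEq α]

theorem sum_factorial_le (k : ℕ) {β : Type*} [DecidableEq β] (R : Finset β) (hk : R.card = k) :
    ∑ T ∈ R.powerset, (((k - T.card).factorial : ℕ) : ℝ) ≤ 3 * (k.factorial : ℝ) := by
  rw [Finset.sum_powerset_apply_card (fun b => (((k - b).factorial : ℕ) : ℝ)), hk]
  have h1 : ∑ m ∈ range (k + 1), k.choose m • (((k - m).factorial : ℕ) : ℝ) =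
      (k.factorial : ℝ) * ∑ m ∈ range (k + 1), (1 : ℝ) ^ m / (m.factorial : ℝ) := by
    rw [mul_sum]
    refine sum_congr rfl (fun m hm => ?_)
    rw [mem_range] at hm
    have hf1 : (k.choose m : ℝ) * (m.factorial : ℝ) * ((k - m).factorial : ℝ) =
        (k.factorial : ℝ) := by
      exact_mod_cast Nat.choose_mul_factorial_mul_factorial (by omega : m ≤ k)
    have : (m.factorial : ℝ) ≠ 0 := by positivity
    rw [nsmul_eq_mul, ← hf1, one_pow]
    field_simp
  rw [h1]
  have h2 := Real.sum_le_exp_of_nonneg (x := 1) zero_le_one (k + 1)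
  have h3 := Real.exp_one_lt_d9
  have h4 : (0 : ℝ) < (k.factorial : ℝ) := by positivity
  nlinarith

theorem cross_two {S : Finset α} {ρ : Finset (Finset α)} (h : ρ ∈ parts S) {P Q : Finset α}
    (hP : P ∈ ρ) (hQ : Q ∈ ρ) (hne : P ≠ Q) : cross {P, Q} = P.card * Q.card := by
  have hT : ({P, Q} : Finset (Finset α)) ⊆ ρ := by
    intro x hx
    rw [mem_insert, mem_singleton] at hx
    rcases hx with rfl | rfl <;> assumption
  have hdj := disj_of_mem h hP hQ hne
  unfold cross
  rw [card_intr (sub_parts h hT), sum_pair hne, card_pairs]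
  have h1 : ({P, Q} : Finset (Finset α)).biUnion id = P ∪ Q := by
    rw [biUnion_insert, singleton_biUnion]; rfl
  rw [h1, card_union_of_disjoint hdj, choose_two_add]
  omega

theorem big_coarse_le {a X : ℝ} (ha : 0 ≤ a) (ha1 : a ≤ 1) (hX : 1 ≤ X)
    (h : ∀ k, ∑ b ∈ Icc 1 k, a ^ (b.choose 2) / ((b.factorial : ℝ) * X ^ b) ≤ 1)
    {S : Finset α} {ρ : Finset (Finset α)} (hρ : ρ ∈ parts S) (hρn : ρ.Nonempty) :
    ∑ σ ∈ (coarse ρ).filter (fun σ => ∃ C ∈ σ, 3 ≤ C.card),
        ((σ.card - 1).factorial : ℝ) * a ^ ((intr σ).card - (intr ρ).card) ≤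
      ((ρ.card - 1).factorial : ℝ) * X ^ ρ.card *
        (((ρ.filter (fun P => 3 ≤ P.card)).card : ℝ) +
          ((ρ.filter (fun P => 2 ≤ P.card)).card : ℝ) * a ^ 2 + 3 * ρ.card * a ^ 3) := by
  classical
  set k := ρ.card with hk
  have hkpos : 0 < k := by rw [hk]; exact hρn.card_pos
  have hX0 : 0 < X := by linarith
  have hXk : ∀ j ≤ k, X ^ j ≤ X ^ k := fun j hj => pow_le_pow_right₀ hX hj
  -- step 1
  have h1 : ∑ σ ∈ (coarse ρ).filter (fun σ => ∃ C ∈ σ, 3 ≤ C.card),
        ((σ.card - 1).factorial : ℝ) * a ^ ((intr σ).card - (intr ρ).card) ≤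
      ∑ σ ∈ coarse ρ, ∑ C ∈ σ, (if 3 ≤ C.card then
        ((σ.card - 1).factorial : ℝ) * a ^ ((intr σ).card - (intr ρ).card) else 0) := by
    rw [sum_filter]
    refine sum_le_sum (fun σ _ => ?_)
    have hnn : ∀ C ∈ σ, (0:ℝ) ≤ (if 3 ≤ C.card then
        ((σ.card - 1).factorial : ℝ) * a ^ ((intr σ).card - (intr ρ).card) else 0) := by
      intro C _
      split_ifs
      · positivity
      · exact le_rfl
    split_ifs with hC
    · obtain ⟨C, hC, hC3⟩ := hC
      refine le_trans (le_of_eq ?_) (single_le_sum hnn hC)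
      rw [if_pos hC3]
    · exact sum_nonneg hnn
  rw [sum_coarse_block hρ (fun σ C => if 3 ≤ C.card then
        ((σ.card - 1).factorial : ℝ) * a ^ ((intr σ).card - (intr ρ).card) else 0)] at h1
  -- step 2: bound for each T
  set w : Finset (Finset α) → ℝ := fun T => if 3 ≤ (T.biUnion id).card then
      a ^ cross T * (((k - T.card).factorial : ℝ) * X ^ k) else 0 with hw
  have h2 : ∑ T ∈ ρ.powerset.erase ∅, ∑ σ ∈ coarse (ρ \ T),
        (if 3 ≤ (T.biUnion id).card then
        (((insert (T.biUnion id) σ).card - 1).factorial : ℝ) *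
          a ^ ((intr (insert (T.biUnion id) σ)).card - (intr ρ).card) else 0) ≤
      ∑ T ∈ ρ.powerset.erase ∅, w T := by
    refine sum_le_sum (fun T hT => ?_)
    rw [mem_erase, mem_powerset] at hT
    have hTn : T.Nonempty := Finset.nonempty_iff_ne_empty.2 hT.1
    have hTn' : (T.biUnion id).Nonempty := by
      obtain ⟨P, hP⟩ := hTn
      obtain ⟨v, hv⟩ := ne_empty_of_mem hρ (hT.2 hP)
      exact ⟨v, mem_biUnion.2 ⟨P, hP, hv⟩⟩
    rw [hw]
    dsimp only
    by_cases h3 : 3 ≤ (T.biUnion id).card
    · simp only [if_pos h3]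
      have e1 : ∑ σ ∈ coarse (ρ \ T), (((insert (T.biUnion id) σ).card - 1).factorial : ℝ) *
          a ^ ((intr (insert (T.biUnion id) σ)).card - (intr ρ).card) =
          a ^ cross T * Csum a (ρ \ T) := by
        unfold Csum
        rw [mul_sum]
        refine sum_congr rfl (fun σ hσ => ?_)
        rw [expo_split hρ hT.2 hσ]
        rw [mem_coarse, biUnion_sdiff hρ hT.2] at hσ
        rw [card_insert_of_notMem (notMem_of_sdiff hTn' hσ.1), Nat.add_sub_cancel, pow_add]
        ring
      rw [e1]
      refine mul_le_mul_of_nonneg_left ?_ (by positivity)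
      have e2 := Csum_le ha ha1 hX0 h (k - T.card) ((ρ \ T).biUnion id) (ρ \ T)
        (sub_parts hρ sdiff_subset) (by rw [card_sdiff_of_subset hT.2])
      refine e2.trans ?_
      exact mul_le_mul_of_nonneg_left (hXk _ (Nat.sub_le _ _)) (by positivity)
    · simp only [if_neg h3, sum_const_zero, le_refl]
  refine (h1.trans h2).trans ?_
  -- step 3: split according to the size of T
  have hwnn : ∀ T, 0 ≤ w T := by
    intro T
    rw [hw]; dsimp only
    split_ifs
    · positivity
    · exact le_rfl
  have hsplit : ∑ T ∈ ρ.powerset.erase ∅, w T ≤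
      ∑ T ∈ (ρ.powerset.erase ∅).filter (fun T => T.card = 1), w T +
      ∑ T ∈ (ρ.powerset.erase ∅).filter (fun T => T.card = 2), w T +
      ∑ T ∈ (ρ.powerset.erase ∅).filter (fun T => 3 ≤ T.card), w T := by
    rw [sum_filter, sum_filter, sum_filter, ← sum_add_distrib, ← sum_add_distrib]
    refine sum_le_sum (fun T hT => ?_)
    rw [mem_erase, mem_powerset] at hT
    have hTc : 0 < T.card := Finset.card_pos.2 (Finset.nonempty_iff_ne_empty.2 hT.1)
    rcases Nat.lt_or_ge T.card 2 with h2 | h2
    · have : T.card = 1 := by omega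
      rw [if_pos this, if_neg (by omega), if_neg (by omega)]; simp
    · rcases Nat.lt_or_ge T.card 3 with h3 | h3
      · have : T.card = 2 := by omega
        rw [if_neg (by omega), if_pos this, if_neg (by omega)]; simp
      · rw [if_neg (by omega), if_neg (by omega), if_pos h3]; simp
  refine hsplit.trans ?_
  have hfac : (k.factorial : ℝ) = k * ((k - 1).factorial : ℝ) := by
    rw [← Nat.cast_mul, Nat.mul_factorial_pred hkpos.ne']
  -- singletons
  have s1 : ∑ T ∈ (ρ.powerset.erase ∅).filter (fun T => T.card = 1), w T ≤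
      ((ρ.filter (fun P => 3 ≤ P.card)).card : ℝ) * (((k - 1).factorial : ℝ) * X ^ k) := by
    calc ∑ T ∈ (ρ.powerset.erase ∅).filter (fun T => T.card = 1), w T
        ≤ ∑ T ∈ (ρ.filter (fun P => 3 ≤ P.card)).image (fun P => ({P} : Finset (Finset α))),
            (((k - 1).factorial : ℝ) * X ^ k) := by
          have : ∑ T ∈ (ρ.powerset.erase ∅).filter (fun T => T.card = 1), w T =
            ∑ T ∈ ((ρ.powerset.erase ∅).filter (fun T => T.card = 1)).filter
              (fun T => 3 ≤ (T.biUnion id).card), w T := by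
            rw [sum_filter (p := fun T => 3 ≤ (Finset.biUnion T id).card)]
            refine sum_congr rfl (fun T _ => ?_)
            rw [hw]; dsimp only
            split_ifs <;> rfl
          rw [this]
          refine (sum_le_sum (g := fun _ => (((k - 1).factorial : ℝ) * X ^ k)) ?_).trans ?_
          · intro T hT
            rw [mem_filter, mem_filter] at hT
            rw [hw]; dsimp only
            rw [if_pos hT.2, hT.1.2]
            have : a ^ cross T ≤ 1 := pow_le_one₀ ha ha1
            have h0 : 0 ≤ (((k - 1).factorial : ℝ) * X ^ k) := by positivity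
            nlinarith
          · refine sum_le_sum_of_subset_of_nonneg ?_ (fun _ _ _ => by positivity)
            intro T hT
            rw [mem_filter, mem_filter, mem_erase, mem_powerset] at hT
            obtain ⟨P, rfl⟩ := card_eq_one.1 hT.1.2
            rw [mem_image]
            refine ⟨P, mem_filter.2 ⟨hT.1.1.2 (mem_singleton_self P), ?_⟩, rfl⟩
            have := hT.2
            rwa [singleton_biUnion] at this
      _ ≤ _ := by
          rw [sum_const, nsmul_eq_mul]
          refine mul_le_mul_of_nonneg_right ?_ (by positivity)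
          exact_mod_cast card_image_le
  -- doubletons
  have s2 : ∑ T ∈ (ρ.powerset.erase ∅).filter (fun T => T.card = 2), w T ≤
      ((ρ.filter (fun P => 2 ≤ P.card)).card : ℝ) * a ^ 2 * (((k - 1).factorial : ℝ) * X ^ k) := by
    rcases Nat.lt_or_ge k 2 with hk2 | hk2
    · have : (ρ.powerset.erase ∅).filter (fun T => T.card = 2) = ∅ := by
        rw [filter_eq_empty_iff]
        intro T hT hT2
        rw [mem_erase, mem_powerset] at hT
        have := card_le_card hT.2
        omega
      rw [this, sum_empty]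
      positivity
    have : ∑ T ∈ (ρ.powerset.erase ∅).filter (fun T => T.card = 2), w T =
            ∑ T ∈ ((ρ.powerset.erase ∅).filter (fun T => T.card = 2)).filter
              (fun T => 3 ≤ (T.biUnion id).card), w T := by
      rw [sum_filter (p := fun T => 3 ≤ (Finset.biUnion T id).card)]
      refine sum_congr rfl (fun T _ => ?_)
      rw [hw]; dsimp only
      split_ifs <;> rfl
    rw [this]
    have hsub : ((ρ.powerset.erase ∅).filter (fun T => T.card = 2)).filter
              (fun T => 3 ≤ (T.biUnion id).card) ⊆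
        ((ρ.filter (fun P => 2 ≤ P.card)).biUnion
          (fun P => (ρ.erase P).image (fun Q => ({P, Q} : Finset (Finset α))))) := by
      intro T hT
      rw [mem_filter, mem_filter, mem_erase, mem_powerset] at hT
      obtain ⟨P, Q, hne, rfl⟩ := card_eq_two.1 hT.1.2
      have hP : P ∈ ρ := hT.1.1.2 (by simp)
      have hQ : Q ∈ ρ := hT.1.1.2 (by simp)
      have h1 : ({P, Q} : Finset (Finset α)).biUnion id = P ∪ Q := by
        rw [biUnion_insert, singleton_biUnion]; rfl
      have h2 := hT.2
      rw [h1, card_union_of_disjoint (disj_of_mem hρ hP hQ hne)] at h2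
      rw [mem_biUnion]
      by_cases hP2 : 2 ≤ P.card
      · exact ⟨P, mem_filter.2 ⟨hP, hP2⟩, mem_image.2 ⟨Q, mem_erase.2 ⟨hne.symm, hQ⟩, rfl⟩⟩
      · refine ⟨Q, mem_filter.2 ⟨hQ, by omega⟩, mem_image.2 ⟨P, mem_erase.2 ⟨hne, hP⟩, ?_⟩⟩
        rw [pair_comm]
    calc ∑ T ∈ ((ρ.powerset.erase ∅).filter (fun T => T.card = 2)).filter
              (fun T => 3 ≤ (T.biUnion id).card), w T
        ≤ ∑ T ∈ ((ρ.powerset.erase ∅).filter (fun T => T.card = 2)).filter
              (fun T => 3 ≤ (T.biUnion id).card), a ^ 2 * (((k - 2).factorial : ℝ) * X ^ k) := by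
          refine sum_le_sum (fun T hT => ?_)
          rw [mem_filter, mem_filter, mem_erase, mem_powerset] at hT
          rw [hw]; dsimp only
          rw [if_pos hT.2, hT.1.2]
          refine mul_le_mul_of_nonneg_right ?_ (by positivity)
          obtain ⟨P, Q, hne, rfl⟩ := card_eq_two.1 hT.1.2
          have hP : P ∈ ρ := hT.1.1.2 (by simp)
          have hQ : Q ∈ ρ := hT.1.1.2 (by simp)
          rw [cross_two hρ hP hQ hne]
          have h1 : ({P, Q} : Finset (Finset α)).biUnion id = P ∪ Q := by
            rw [biUnion_insert, singleton_biUnion]; rfl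
          have h2 := hT.2
          rw [h1, card_union_of_disjoint (disj_of_mem hρ hP hQ hne)] at h2
          have hPc := (ne_empty_of_mem hρ hP).card_pos
          have hQc := (ne_empty_of_mem hρ hQ).card_pos
          refine pow_le_pow_of_le_one ha ha1 ?_
          by_contra hlt
          push Not at hlt
          have h3 : P.card * Q.card = 1 := by
            have : 0 < P.card * Q.card := Nat.mul_pos hPc hQc
            omega
          have h4 := Nat.eq_one_of_mul_eq_one_left h3
          have h5 := Nat.eq_one_of_mul_eq_one_right h3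
          omega
      _ ≤ ∑ T ∈ ((ρ.filter (fun P => 2 ≤ P.card)).biUnion
          (fun P => (ρ.erase P).image (fun Q => ({P, Q} : Finset (Finset α))))),
            a ^ 2 * (((k - 2).factorial : ℝ) * X ^ k) :=
          sum_le_sum_of_subset_of_nonneg hsub (fun _ _ _ => by positivity)
      _ ≤ (((ρ.filter (fun P => 2 ≤ P.card)).card : ℝ) * (k - 1 : ℕ)) *
            (a ^ 2 * (((k - 2).factorial : ℝ) * X ^ k)) := by
          rw [sum_const, nsmul_eq_mul]
          refine mul_le_mul_of_nonneg_right ?_ (by positivity)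
          have := card_biUnion_le_card_mul (ρ.filter (fun P => 2 ≤ P.card))
            (fun P => (ρ.erase P).image (fun Q => ({P, Q} : Finset (Finset α)))) (k - 1)
            (fun P hP => by
              refine card_image_le.trans ?_
              rw [card_erase_of_mem (mem_filter.1 hP).1])
          exact_mod_cast this
      _ = _ := by
          have e1 : ((k - 1).factorial : ℝ) = ((k - 1 : ℕ) : ℝ) * ((k - 2).factorial : ℝ) := by
            rw [← Nat.cast_mul]
            congr 1
            have := Nat.mul_factorial_pred (n := k - 1) (by omega)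
            rw [← this]; congr 1
          rw [e1]; ring
  -- at least three blocks
  have s3 : ∑ T ∈ (ρ.powerset.erase ∅).filter (fun T => 3 ≤ T.card), w T ≤
      3 * k * a ^ 3 * (((k - 1).factorial : ℝ) * X ^ k) := by
    calc ∑ T ∈ (ρ.powerset.erase ∅).filter (fun T => 3 ≤ T.card), w T
        ≤ ∑ T ∈ (ρ.powerset.erase ∅).filter (fun T => 3 ≤ T.card),
            a ^ 3 * X ^ k * ((k - T.card).factorial : ℝ) := by
          refine sum_le_sum (fun T hT => ?_)
          rw [mem_filter, mem_erase, mem_powerset] at hT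
          rw [hw]; dsimp only
          split_ifs with h3
          · have e1 : a ^ cross T ≤ a ^ 3 := by
              refine pow_le_pow_of_le_one ha ha1 (le_trans ?_ (choose_le_cross hρ hT.1.2))
              calc 3 = Nat.choose 3 2 := rfl
                _ ≤ _ := Nat.choose_le_choose 2 hT.2
            calc a ^ cross T * (((k - T.card).factorial : ℝ) * X ^ k) ≤
                a ^ 3 * (((k - T.card).factorial : ℝ) * X ^ k) :=
                  mul_le_mul_of_nonneg_right e1 (by positivity)
              _ = _ := by ring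
          · positivity
      _ ≤ ∑ T ∈ ρ.powerset, a ^ 3 * X ^ k * ((k - T.card).factorial : ℝ) := by
          refine sum_le_sum_of_subset_of_nonneg ?_ (fun _ _ _ => by positivity)
          exact (filter_subset _ _).trans (erase_subset _ _)
      _ = a ^ 3 * X ^ k * ∑ T ∈ ρ.powerset, (((k - T.card).factorial : ℕ) : ℝ) := by
          rw [mul_sum]
      _ ≤ a ^ 3 * X ^ k * (3 * (k.factorial : ℝ)) :=
          mul_le_mul_of_nonneg_left (sum_factorial_le k ρ hk.symm) (by positivity)
      _ = _ := by rw [hfac]; ring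
  calc _ ≤ ((ρ.filter (fun P => 3 ≤ P.card)).card : ℝ) * (((k - 1).factorial : ℝ) * X ^ k) +
      ((ρ.filter (fun P => 2 ≤ P.card)).card : ℝ) * a ^ 2 * (((k - 1).factorial : ℝ) * X ^ k) +
      3 * k * a ^ 3 * (((k - 1).factorial : ℝ) * X ^ k) := add_le_add (add_le_add s1 s2) s3
    _ = _ := by ring

end RelRoots
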