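import Mathlib

/-!
Set partitions of a finset as finsets of blocks, sets of pairs, connectivity.
-/

namespace RelRoots

open Finset

variable {α : Type*} [DecidableEq α]

/-- the set partitions of the finset `S`, as finsets of blocks -/
def parts (S : Finset α) : Finset (Finset (Finset α)) :=
  S.powerset.powerset.filter
    (fun θ => ∅ ∉ θ ∧ (∀ B ∈ θ, ∀ C ∈ θ, B ≠ C → Disjoint B C) ∧ θ.biUnion id = S)

/-- the (unordered) pairs of distinct elements of `S` -/
def pairs (S : Finset α) : Finset (Sym2 α) := S.sym2.filter (fun e => ¬ e.IsDiag)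

/-- the pairs inside the blocks of `θ` -/
def intr (θ : Finset (Finset α)) : Finset (Sym2 α) := θ.biUnion pairs

/-- `A` connects the nonempty set `T` -/
def Conn (T : Finset α) (A : Finset (Sym2 α)) : Prop :=
  T.Nonempty ∧ ∀ u ∈ T, ∀ w ∈ T,
    (SimpleGraph.fromEdgeSet (A : Set (Sym2 α))).Reachable u w

open Classical in
/-- weighted sum over the connected spanning edge sets of `T` -/
noncomputable def cs {R : Type*} [CommRing R] (x : Sym2 α → R) (T : Finset α) : R :=
  ∑ A ∈ (pairs T).powerset.filter (Conn T), ∏ e ∈ A, x e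

/-- Moebius coefficient -/
def mob (k : ℕ) : ℤ := (-1) ^ (k - 1) * ((k - 1).factorial : ℤ)

end RelRoots
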