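import Pool.Agent.Lib.MP_ccdac2_co.Poly

/-!
The proportion of edge sets with a real root different from 1 tends to 1/2.
-/

set_option linter.unusedSectionVars false
set_option linter.unusedSimpArgs false

namespace RelRoots

open Finset Filter

theorem Pr_parity {n : ℕ} (hn : 2 ≤ n) :
    Pr (pairs (univ : Finset (Fin n))) (fun E => ¬ Even (n - 1 + E.card)) = 1 / 2 := by
  classical
  have hne : (pairs (univ : Finset (Fin n))).Nonempty := by
    rw [← Finset.card_pos, card_pairs, card_univ, Fintype.card_fin]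
    exact Nat.choose_pos hn
  have h0 := Finset.sum_powerset_neg_one_pow_card_of_nonempty hne
  have h0' : ∑ E ∈ (pairs (univ : Finset (Fin n))).powerset, (-1 : ℝ) ^ E.card = 0 := by
    exact_mod_cast h0
  have h1 : Pr (pairs (univ : Finset (Fin n))) (fun E => ¬ Even (n - 1 + E.card)) =
      Ex (pairs (univ : Finset (Fin n)))
        (fun E => 1 / 2 - (-1 : ℝ) ^ (n - 1) / 2 * (-1) ^ E.card) := by
    unfold Pr
    refine Ex_congr (fun E _ => ?_)
    have e : (-1 : ℝ) ^ (n - 1) / 2 * (-1) ^ E.card = (-1) ^ (n - 1 + E.card) / 2 := by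
      rw [pow_add]; ring
    rw [e]
    by_cases h : Even (n - 1 + E.card)
    · rw [if_neg (not_not.2 h), h.neg_one_pow]; norm_num
    · rw [if_pos h, (Nat.not_even_iff_odd.1 h).neg_one_pow]; norm_num
  rw [h1]
  unfold Ex
  rw [sum_sub_distrib, ← mul_sum, h0', mul_zero, sub_zero, sum_const, card_powerset, nsmul_eq_mul]
  push_cast
  field_simp

/-- bound for the bad events -/
noncomputable def bb (L : ℝ) : ℝ :=
  4 * Real.exp (-(L / 4) + 1 / 2) + 4 * Real.exp (-(L / 6) + 1 / 3) + Real.exp (-L) +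
    Real.exp (-L) + Real.exp (1 / 16 - L / 40) +
    (5 * L + 1) * (8 * Real.exp (11 / 2 - 6 / 10 * L))

theorem exp_lin_tendsto (a : ℝ) {c : ℝ} (hc : 0 < c) :
    Tendsto (fun L : ℝ => Real.exp (a - c * L)) atTop (nhds 0) := by
  refine Real.tendsto_exp_atBot.comp ?_
  have h1 : Tendsto (fun L : ℝ => c * L) atTop atTop := tendsto_id.const_mul_atTop hc
  have h2 := tendsto_atBot_add_const_left atTop a (tendsto_neg_atTop_atBot.comp h1)
  refine h2.congr (fun L => ?_)
  simp [sub_eq_add_neg]

theorem bb_tendsto : Tendsto bb atTop (nhds 0) := by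
  have h1 := (exp_lin_tendsto (1 / 2) (c := 1 / 4) (by norm_num)).const_mul 4
  have h2 := (exp_lin_tendsto (1 / 3) (c := 1 / 6) (by norm_num)).const_mul 4
  have h3 := exp_lin_tendsto 0 (c := 1) (by norm_num)
  have h5 := exp_lin_tendsto (1 / 16) (c := 1 / 40) (by norm_num)
  have h6 : Tendsto (fun L : ℝ => L * Real.exp (-(6 / 10 * L))) atTop (nhds 0) := by
    have := Real.tendsto_pow_mul_exp_neg_atTop_nhds_zero 1
    have h7 : Tendsto (fun L : ℝ => 6 / 10 * L) atTop atTop :=
      tendsto_id.const_mul_atTop (by norm_num)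
    have h8 := (this.comp h7).const_mul (10 / 6)
    rw [mul_zero] at h8
    refine h8.congr (fun L => ?_)
    simp only [Function.comp, pow_one]
    ring
  have h7 := (h6.const_mul (40 * Real.exp (11 / 2)))
  have h8 := (exp_lin_tendsto (11 / 2) (c := 6 / 10) (by norm_num)).const_mul 8
  have h9 := ((((h1.add h2).add h3).add h3).add h5).add (h7.add h8)
  simp only [mul_zero, add_zero] at h9
  refine h9.congr (fun L => ?_)
  unfold bb
  have e1 : Real.exp (11 / 2 - 6 / 10 * L) = Real.exp (11 / 2) * Real.exp (-(6 / 10 * L)) := by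
    rw [← Real.exp_add]; congr 1
  have e2 : 1 / 2 - 1 / 4 * L = -(L / 4) + 1 / 2 := by ring
  have e3 : 1 / 3 - 1 / 6 * L = -(L / 6) + 1 / 3 := by ring
  have e4 : 0 - 1 * L = -L := by ring
  have e5 : 1 / 16 - 1 / 40 * L = 1 / 16 - L / 40 := by ring
  rw [e2, e3, e4, e5, e1]
  ring

/-- the proportion of graphs (as edge sets) with a real root different from 1 -/
theorem tendsto_Pr : Tendsto (fun n : ℕ => Pr (pairs (univ : Finset (Fin n)))
    (fun E => ∃ q : ℝ, q ≠ 1 ∧ relE n E q = 0)) atTop (nhds (1 / 2)) := by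
  have h1 : Tendsto (fun n : ℕ => 1 / 2 + bb (Real.log n)) atTop (nhds (1 / 2 + 0)) :=
    tendsto_const_nhds.add (bb_tendsto.comp tendsto_logn)
  rw [add_zero] at h1
  refine tendsto_of_tendsto_of_tendsto_of_le_of_le' tendsto_const_nhds h1 ?_ ?_
  · filter_upwards [eventually_ge_atTop 2] with n hn
    rw [← Pr_parity hn]
    exact Pr_mono (fun E hE h => odd_root hE h)
  · filter_upwards [ev_tech2] with n H
    have hn2 := H.T.n2
    have h2 : Pr (pairs (univ : Finset (Fin n))) (fun E => ∃ q : ℝ, q ≠ 1 ∧ relE n E q = 0) ≤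
        Pr (pairs (univ : Finset (Fin n))) (fun E => (¬ Even (n - 1 + E.card)) ∨
          (Bad1 n E ∨ Bad2 n E ∨ Bad3 n E ∨ Bad4 n E ∨ Bad5 n E ∨ Bad6 n E)) := by
      refine Pr_mono (fun E hE h => ?_)
      by_contra hcon
      push Not at hcon
      obtain ⟨hp, b1, b2, b3, b4, b5, b6⟩ := hcon
      obtain ⟨q, hq, hq0⟩ := h
      exact no_root H hE hp b1 b2 b3 b4 b5 b6 hq hq0
    refine h2.trans ?_
    refine (Pr_or_le _ _ _).trans ?_
    rw [Pr_parity (by omega)]
    refine add_le_add le_rfl ?_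
    unfold bb
    have c1 := Pr_bad1 H
    have c2 := Pr_bad2 H
    have c3 := Pr_bad3 H
    have c4 := Pr_bad4 H
    have c5 := Pr_bad5 H
    have c6 := Pr_bad6 H
    have d5 := Pr_or_le (pairs (univ : Finset (Fin n))) (Bad5 n) (Bad6 n)
    have d4 := Pr_or_le (pairs (univ : Finset (Fin n))) (Bad4 n)
      (fun E => Bad5 n E ∨ Bad6 n E)
    have d3 := Pr_or_le (pairs (univ : Finset (Fin n))) (Bad3 n)
      (fun E => Bad4 n E ∨ Bad5 n E ∨ Bad6 n E)
    have d2 := Pr_or_le (pairs (univ : Finset (Fin n))) (Bad2 n)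
      (fun E => Bad3 n E ∨ Bad4 n E ∨ Bad5 n E ∨ Bad6 n E)
    have d1 := Pr_or_le (pairs (univ : Finset (Fin n))) (Bad1 n)
      (fun E => Bad2 n E ∨ Bad3 n E ∨ Bad4 n E ∨ Bad5 n E ∨ Bad6 n E)
    linarith

open Classical in
/-- labelled graphs and edge sets -/
noncomputable def graphEquiv (n : ℕ) :
    SimpleGraph (Fin n) ≃ {E : Finset (Sym2 (Fin n)) // E ∈ (pairs univ).powerset} where
  toFun G := ⟨G.edgeFinset, by
    rw [mem_powerset]
    intro e he
    rw [SimpleGraph.mem_edgeFinset] at he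
    rw [mem_pairs]
    refine ⟨?_, SimpleGraph.not_isDiag_of_mem_edgeSet G he⟩
    intro v _
    exact mem_univ v⟩
  invFun E := SimpleGraph.fromEdgeSet (E.1 : Set (Sym2 (Fin n)))
  left_inv G := by simp
  right_inv E := by
    have hE := mem_powerset.1 E.2
    ext e
    simp only [SimpleGraph.mem_edgeFinset, SimpleGraph.edgeSet_fromEdgeSet]
    constructor
    · exact fun h => by simpa using h.1
    · intro h
      refine ⟨by simpa using h, ?_⟩
      have := (mem_pairs.1 (hE h)).2
      simpa using this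

open Classical in
theorem proportion_eq (n : ℕ) (P : Finset (Sym2 (Fin n)) → Prop) :
    (Nat.card {G : SimpleGraph (Fin n) // P G.edgeFinset} : ℝ) /
      Nat.card (SimpleGraph (Fin n)) = Pr (pairs univ) P := by
  have h1 : Nat.card (SimpleGraph (Fin n)) = 2 ^ (pairs (univ : Finset (Fin n))).card := by
    rw [Nat.card_congr (graphEquiv n), Nat.card_eq_fintype_card, Fintype.card_coe, card_powerset]
  have h2 : Nat.card {G : SimpleGraph (Fin n) // P G.edgeFinset} =
      ((pairs (univ : Finset (Fin n))).powerset.filter P).card := by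
    have e1 : {G : SimpleGraph (Fin n) // P G.edgeFinset} ≃
        {E : {E : Finset (Sym2 (Fin n)) // E ∈ (pairs univ).powerset} // P E.1} :=
      (graphEquiv n).subtypeEquiv (fun G => Iff.rfl)
    have e2 : {E : {E : Finset (Sym2 (Fin n)) // E ∈ (pairs univ).powerset} // P E.1} ≃
        {E : Finset (Sym2 (Fin n)) // E ∈ (pairs (univ : Finset (Fin n))).powerset.filter P} :=
      (Equiv.subtypeSubtypeEquivSubtypeInter (fun E => E ∈ (pairs univ).powerset) P).trans
        (Equiv.subtypeEquivRight (fun E => by rw [mem_filter]))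
    rw [Nat.card_congr (e1.trans e2), Nat.card_eq_fintype_card, Fintype.card_coe]
  rw [h1, h2]
  unfold Pr Ex
  rw [sum_ite, sum_const_zero, add_zero, sum_const, nsmul_eq_mul, mul_one]
  push_cast
  rfl

end RelRoots
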