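import Pool.Agent.Lib.MP_ccdac2_co.Q3

/-!
Matchings: partitions with blocks of size at most two versus sets of pairwise disjoint edges.
-/

set_option linter.unusedSectionVars false
set_option linter.unusedSimpArgs false

namespace RelRoots

open Finset

variable {α : Type*} [DecidableEq α] [Fintype α]

/-- sets of pairwise disjoint edges -/
def Mat (α : Type*) [DecidableEq α] [Fintype α] : Finset (Finset (Sym2 α)) :=
  (pairs (univ : Finset α)).powerset.filter
    (fun J => ∀ e ∈ J, ∀ e' ∈ J, e ≠ e' → Disjoint e.toFinset e'.toFinset)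

theorem mem_Mat {J : Finset (Sym2 α)} : J ∈ Mat α ↔ J ⊆ pairs (univ : Finset α) ∧
    ∀ e ∈ J, ∀ e' ∈ J, e ≠ e' → Disjoint e.toFinset e'.toFinset := by
  unfold Mat; rw [mem_filter, mem_powerset]

theorem pairs_toFinset {e : Sym2 α} (he : ¬ e.IsDiag) : pairs e.toFinset = {e} := by
  induction e using Sym2.ind with
  | _ a b =>
    rw [Sym2.mk_isDiag_iff] at he
    ext f
    induction f using Sym2.ind with
    | _ c d =>
      rw [mk_mem_pairs, Sym2.toFinset_mk_eq, mem_singleton, Sym2.eq_iff]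
      simp only [mem_insert, mem_singleton]
      constructor
      · rintro ⟨h1, h2, h3⟩
        rcases h1 with rfl | rfl <;> rcases h2 with rfl | rfl
        · exact absurd rfl h3
        · left; exact ⟨rfl, rfl⟩
        · right; exact ⟨rfl, rfl⟩
        · exact absurd rfl h3
      · rintro (⟨rfl, rfl⟩ | ⟨rfl, rfl⟩)
        · exact ⟨Or.inl rfl, Or.inr rfl, he⟩
        · exact ⟨Or.inr rfl, Or.inl rfl, fun h => he h.symm⟩

theorem pairs_singleton (v : α) : pairs ({v} : Finset α) = ∅ := by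
  have := card_pairs ({v} : Finset α)
  rw [card_singleton] at this
  rw [← card_eq_zero, this]; rfl

/-- the partition of a matching -/
def ofMat (J : Finset (Sym2 α)) : Finset (Finset α) :=
  J.image Sym2.toFinset ∪ (univ.filter (fun v => ∀ e ∈ J, v ∉ e)).image (fun v => {v})

theorem mem_ofMat {J : Finset (Sym2 α)} {B : Finset α} :
    B ∈ ofMat J ↔ (∃ e ∈ J, e.toFinset = B) ∨ ∃ v, (∀ e ∈ J, v ∉ e) ∧ {v} = B := by
  unfold ofMat
  rw [mem_union, mem_image, mem_image]
  simp

theorem ofMat_mem {J : Finset (Sym2 α)} (hJ : J ∈ Mat α) : ofMat J ∈ sparts (univ : Finset α) 2 := by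
  rw [mem_Mat] at hJ
  rw [mem_sparts, mem_parts]
  refine ⟨⟨?_, ?_, ?_⟩, ?_⟩
  · rw [mem_ofMat]
    rintro (⟨e, _, he⟩ | ⟨v, _, hv⟩)
    · exact Sym2.toFinset_ne_empty e he
    · exact Finset.singleton_ne_empty v hv
  · intro B hB C hC hne
    rw [mem_ofMat] at hB hC
    rcases hB with ⟨e, he, rfl⟩ | ⟨v, hv, rfl⟩ <;> rcases hC with ⟨f, hf, rfl⟩ | ⟨w, hw, rfl⟩
    · exact hJ.2 e he f hf (fun h => hne (by rw [h]))
    · rw [Finset.disjoint_singleton_right, Sym2.mem_toFinset]
      exact hw e he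
    · rw [Finset.disjoint_singleton_left, Sym2.mem_toFinset]
      exact hv f hf
    · rw [Finset.disjoint_singleton]
      intro h; exact hne (by rw [h])
  · ext v
    simp only [mem_biUnion, id, mem_univ, iff_true]
    by_cases h : ∃ e ∈ J, v ∈ e
    · obtain ⟨e, he, hv⟩ := h
      exact ⟨e.toFinset, mem_ofMat.2 (Or.inl ⟨e, he, rfl⟩), Sym2.mem_toFinset.2 hv⟩
    · push Not at h
      exact ⟨{v}, mem_ofMat.2 (Or.inr ⟨v, h, rfl⟩), mem_singleton_self v⟩
  · intro B hB
    rw [mem_ofMat] at hB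
    rcases hB with ⟨e, he, rfl⟩ | ⟨v, hv, rfl⟩
    · rw [Sym2.card_toFinset]; split_ifs <;> omega
    · simp

theorem intr_ofMat {J : Finset (Sym2 α)} (hJ : J ∈ Mat α) : intr (ofMat J) = J := by
  rw [mem_Mat] at hJ
  ext e
  rw [mem_intr]
  constructor
  · rintro ⟨B, hB, he⟩
    rw [mem_ofMat] at hB
    rcases hB with ⟨f, hf, rfl⟩ | ⟨v, hv, rfl⟩
    · have hd : ¬ f.IsDiag := (mem_pairs.1 (hJ.1 hf)).2
      rw [pairs_toFinset hd, mem_singleton] at he
      rw [he]; exact hf
    · rw [pairs_singleton] at he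
      simp at he
  · intro he
    have hd : ¬ e.IsDiag := (mem_pairs.1 (hJ.1 he)).2
    refine ⟨e.toFinset, mem_ofMat.2 (Or.inl ⟨e, he, rfl⟩), ?_⟩
    rw [pairs_toFinset hd, mem_singleton]

theorem toFinset_eq_block {π : Finset (Finset α)} (hπ : π ∈ sparts (univ : Finset α) 2)
    {B : Finset α} (hB : B ∈ π) {e : Sym2 α} (he : e ∈ pairs B) : e.toFinset = B := by
  rw [mem_sparts] at hπ
  apply Finset.eq_of_subset_of_card_le
  · intro v hv
    rw [Sym2.mem_toFinset] at hv
    exact (mem_pairs.1 he).1 v hv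
  · rw [Sym2.card_toFinset_of_not_isDiag e (mem_pairs.1 he).2]
    exact hπ.2 B hB

theorem intr_mem_Mat {π : Finset (Finset α)} (hπ : π ∈ sparts (univ : Finset α) 2) :
    intr π ∈ Mat α := by
  rw [mem_Mat]
  refine ⟨intr_subset (mem_sparts.1 hπ).1, ?_⟩
  intro e he e' he' hne
  obtain ⟨B, hB, he⟩ := mem_intr.1 he
  obtain ⟨B', hB', he'⟩ := mem_intr.1 he'
  have h1 := toFinset_eq_block hπ hB he
  have h2 := toFinset_eq_block hπ hB' he'
  rw [h1, h2]
  apply disj_of_mem (mem_sparts.1 hπ).1 hB hB'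
  rintro rfl
  apply hne
  have hd : ¬ e'.IsDiag := (mem_pairs.1 he').2
  have := pairs_toFinset hd
  rw [h2] at this
  rw [this, mem_singleton] at he
  exact he

theorem ofMat_intr {π : Finset (Finset α)} (hπ : π ∈ sparts (univ : Finset α) 2) :
    ofMat (intr π) = π := by
  have hp := (mem_sparts.1 hπ).1
  ext B
  rw [mem_ofMat]
  constructor
  · rintro (⟨e, he, rfl⟩ | ⟨v, hv, rfl⟩)
    · obtain ⟨B, hB, he⟩ := mem_intr.1 he
      rw [toFinset_eq_block hπ hB he]; exact hB
    · obtain ⟨B, hB, hvB⟩ := exists_block hp (mem_univ v)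
      have hB2 := (mem_sparts.1 hπ).2 B hB
      have : B = {v} := by
        rw [eq_singleton_iff_unique_mem]
        refine ⟨hvB, ?_⟩
        intro w hw
        by_contra hne
        have he : s(v, w) ∈ intr π :=
          mem_intr.2 ⟨B, hB, mk_mem_pairs.2 ⟨hvB, hw, fun h => hne h.symm⟩⟩
        exact hv _ he (Sym2.mem_mk_left v w)
      rw [← this]; exact hB
  · intro hB
    have hBn := ne_empty_of_mem hp hB
    have hB2 := (mem_sparts.1 hπ).2 B hB
    have hB1 := hBn.card_pos
    rcases Nat.lt_or_ge B.card 2 with h1 | h1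
    · have : B.card = 1 := by omega
      obtain ⟨v, rfl⟩ := card_eq_one.1 this
      right
      refine ⟨v, ?_, rfl⟩
      intro e he hve
      obtain ⟨B', hB', he⟩ := mem_intr.1 he
      have h3 := (mem_pairs.1 he).1 v hve
      have h4 := block_unique hp hB hB' (mem_singleton_self v) h3
      rw [← h4, pairs_singleton] at he
      simp at he
    · have : B.card = 2 := by omega
      obtain ⟨a, b, hab, rfl⟩ := card_eq_two.1 this
      left
      refine ⟨s(a, b), mem_intr.2 ⟨_, hB, mk_mem_pairs.2 ⟨by simp, by simp, hab⟩⟩, ?_⟩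
      rw [Sym2.toFinset_mk_eq]

theorem sum_matchings {M : Type*} [AddCommMonoid M] (F : Finset (Sym2 α) → M) :
    ∑ π ∈ sparts (univ : Finset α) 2, F (intr π) = ∑ J ∈ Mat α, F J := by
  refine Finset.sum_bij' (fun π _ => intr π) (fun J _ => ofMat J) ?_ ?_ ?_ ?_ ?_
  · intro π hπ; exact intr_mem_Mat hπ
  · intro J hJ; exact ofMat_mem hJ
  · intro π hπ; exact ofMat_intr hπ
  · intro J hJ; exact intr_ofMat hJ
  · intro π _; rfl

theorem card_intr_matching {π : Finset (Finset α)} (hπ : π ∈ sparts (univ : Finset α) 2) :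
    (intr π).card + π.card = Fintype.card α := by
  have hp := (mem_sparts.1 hπ).1
  rw [card_intr hp, ← card_univ, ← sum_card hp]
  have : π.card = ∑ B ∈ π, 1 := by simp
  rw [this, ← sum_add_distrib]
  refine sum_congr rfl (fun B hB => ?_)
  have hBn := (ne_empty_of_mem hp hB).card_pos
  have hB2 := (mem_sparts.1 hπ).2 B hB
  rcases Nat.lt_or_ge B.card 2 with h1 | h1
  · have : B.card = 1 := by omega
    rw [this]; rfl
  · have : B.card = 2 := by omega
    rw [this]; rfl

theorem two_mul_card_matching {π : Finset (Finset α)} (hπ : π ∈ sparts (univ : Finset α) 2) :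
    2 * (intr π).card ≤ Fintype.card α := by
  have hp := (mem_sparts.1 hπ).1
  rw [card_intr hp, ← card_univ, ← sum_card hp, mul_sum]
  refine sum_le_sum (fun B hB => ?_)
  have hBn := (ne_empty_of_mem hp hB).card_pos
  have hB2 := (mem_sparts.1 hπ).2 B hB
  rcases Nat.lt_or_ge B.card 2 with h1 | h1
  · have : B.card = 1 := by omega
    rw [this]; decide
  · have : B.card = 2 := by omega
    rw [this]; decide

theorem two_mul_card_Mat {J : Finset (Sym2 α)} (hJ : J ∈ Mat α) :
    2 * J.card ≤ Fintype.card α := by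
  have := two_mul_card_matching (ofMat_mem hJ)
  rwa [intr_ofMat hJ] at this

section Q
variable {ε : Type*} [DecidableEq ε]

theorem inner_sum {E0 J : Finset ε} (hJ : J ⊆ E0) {x κ a : ℝ} :
    ∑ J' ∈ E0.powerset, x ^ J'.card * (κ ^ (J ∩ J').card *
      a ^ ((J \ J').card + (J' \ J).card)) = (x * κ + a) ^ J.card * (x * a + 1) ^ (E0 \ J).card := by
  have h1 : ∀ J' ∈ E0.powerset, x ^ J'.card * (κ ^ (J ∩ J').card *
      a ^ ((J \ J').card + (J' \ J).card)) =
      ∏ e ∈ E0, (if e ∈ J' then (if e ∈ J then x * κ else x * a) else (if e ∈ J then a else 1)) := by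
    intro J' hJ'
    rw [mem_powerset] at hJ'
    have e1 : x ^ J'.card = ∏ e ∈ E0, (if e ∈ J' then x else 1) := by
      rw [← prod_extend hJ', prod_const]
    have e2 : κ ^ (J ∩ J').card = ∏ e ∈ E0, (if e ∈ J ∩ J' then κ else 1) := by
      rw [← prod_extend (inter_subset_left.trans hJ), prod_const]
    have e3 : a ^ (J \ J').card = ∏ e ∈ E0, (if e ∈ J \ J' then a else 1) := by
      rw [← prod_extend (sdiff_subset.trans hJ), prod_const]
    have e4 : a ^ (J' \ J).card = ∏ e ∈ E0, (if e ∈ J' \ J then a else 1) := by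
      rw [← prod_extend (sdiff_subset.trans hJ'), prod_const]
    rw [pow_add, e1, e2, e3, e4, ← prod_mul_distrib, ← prod_mul_distrib, ← prod_mul_distrib]
    refine prod_congr rfl (fun e _ => ?_)
    by_cases h1 : e ∈ J <;> by_cases h2 : e ∈ J' <;> simp [h1, h2]
  rw [sum_congr rfl h1, sum_powerset_prod E0 (fun e => if e ∈ J then x * κ else x * a)
    (fun e => if e ∈ J then a else 1), ← Finset.prod_sdiff hJ]
  have e1 : ∏ e ∈ E0 \ J, ((if e ∈ J then x * κ else x * a) + (if e ∈ J then a else 1)) =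
      (x * a + 1) ^ (E0 \ J).card := by
    rw [← prod_const]
    refine prod_congr rfl (fun e he => ?_)
    rw [if_neg (mem_sdiff.1 he).2, if_neg (mem_sdiff.1 he).2]
  have e2 : ∏ e ∈ J, ((if e ∈ J then x * κ else x * a) + (if e ∈ J then a else 1)) =
      (x * κ + a) ^ J.card := by
    rw [← prod_const]
    refine prod_congr rfl (fun e he => ?_)
    rw [if_pos he, if_pos he]
  rw [e1, e2, mul_comm]

theorem inner_sum_le {E0 J : Finset ε} (hJ : J ⊆ E0) {x κ a : ℝ} (hx : 0 ≤ x) (hκ : 0 ≤ κ)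
    (ha : 0 ≤ a) (P : Finset (Finset ε)) (hP : P ⊆ E0.powerset) :
    ∑ J' ∈ P, x ^ J'.card * (κ ^ (J ∩ J').card *
      a ^ ((J \ J').card + (J' \ J).card)) ≤ (x * κ + a) ^ J.card * (x * a + 1) ^ E0.card := by
  calc ∑ J' ∈ P, x ^ J'.card * (κ ^ (J ∩ J').card *
      a ^ ((J \ J').card + (J' \ J).card))
      ≤ ∑ J' ∈ E0.powerset, x ^ J'.card * (κ ^ (J ∩ J').card *
      a ^ ((J \ J').card + (J' \ J).card)) :=
        sum_le_sum_of_subset_of_nonneg hP (fun _ _ _ => by positivity)
    _ = (x * κ + a) ^ J.card * (x * a + 1) ^ (E0 \ J).card := inner_sum hJ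
    _ ≤ _ := by
        refine mul_le_mul_of_nonneg_left ?_ (by positivity)
        exact pow_le_pow_right₀ (by nlinarith [mul_nonneg hx ha]) (card_le_card sdiff_subset)

end Q

/-- double sum over matchings -/
theorem Q1_le {n : ℕ} (hn : Fintype.card α = n) {x κ a : ℝ} (hx : 0 ≤ x) (hκ : 0 ≤ κ)
    (ha : 0 ≤ a) (D : ℕ → ℝ) (hD : ∀ j, 0 ≤ D j) :
    ∑ J ∈ Mat α, ∑ J' ∈ Mat α, (x ^ J.card * D J.card) * (x ^ J'.card * D J'.card) *
      (κ ^ (J ∩ J').card * a ^ ((J \ J').card + (J' \ J).card)) ≤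
    (x * a + 1) ^ (n.choose 2) *
      ∑ j ∈ range (n / 2 + 1), ((n.choose 2).choose j : ℝ) * (x * (x * κ + a)) ^ j * D j ^ 2 := by
  classical
  have hE : (pairs (univ : Finset α)).card = n.choose 2 := by rw [card_pairs, card_univ, hn]
  have hMat : Mat α ⊆ (pairs (univ : Finset α)).powerset := filter_subset _ _
  -- symmetrise
  have h1 : ∑ J ∈ Mat α, ∑ J' ∈ Mat α, (x ^ J.card * D J.card) * (x ^ J'.card * D J'.card) *
      (κ ^ (J ∩ J').card * a ^ ((J \ J').card + (J' \ J).card)) ≤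
      ∑ J ∈ Mat α, ∑ J' ∈ Mat α, x ^ J.card * D J.card ^ 2 * (x ^ J'.card *
      (κ ^ (J ∩ J').card * a ^ ((J \ J').card + (J' \ J).card))) := by
    set T : Finset (Sym2 α) → Finset (Sym2 α) → ℝ := fun J J' =>
      x ^ J.card * x ^ J'.card * (κ ^ (J ∩ J').card * a ^ ((J \ J').card + (J' \ J).card))
      with hT
    have hTnn : ∀ J J', 0 ≤ T J J' := fun J J' => by rw [hT]; positivity
    have hTsymm : ∀ J J', T J J' = T J' J := by
      intro J J'
      rw [hT]; dsimp only
      rw [inter_comm, add_comm (J \ J').card, mul_comm (x ^ J.card)]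
    have e1 : ∑ J ∈ Mat α, ∑ J' ∈ Mat α, (x ^ J.card * D J.card) * (x ^ J'.card * D J'.card) *
      (κ ^ (J ∩ J').card * a ^ ((J \ J').card + (J' \ J).card)) =
        ∑ J ∈ Mat α, ∑ J' ∈ Mat α, D J.card * D J'.card * T J J' :=
      sum_congr rfl (fun J _ => sum_congr rfl (fun J' _ => by rw [hT]; ring))
    have e2 : ∑ J ∈ Mat α, ∑ J' ∈ Mat α, x ^ J.card * D J.card ^ 2 * (x ^ J'.card *
      (κ ^ (J ∩ J').card * a ^ ((J \ J').card + (J' \ J).card))) =
        ∑ J ∈ Mat α, ∑ J' ∈ Mat α, D J.card ^ 2 * T J J' :=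
      sum_congr rfl (fun J _ => sum_congr rfl (fun J' _ => by rw [hT]; ring))
    have e3 : ∑ J ∈ Mat α, ∑ J' ∈ Mat α, D J.card ^ 2 * T J J' =
        ∑ J ∈ Mat α, ∑ J' ∈ Mat α, D J'.card ^ 2 * T J J' := by
      rw [sum_comm]
      exact sum_congr rfl (fun J _ => sum_congr rfl (fun J' _ => by rw [hTsymm]))
    have e4 : 2 * ∑ J ∈ Mat α, ∑ J' ∈ Mat α, D J.card * D J'.card * T J J' ≤
        ∑ J ∈ Mat α, ∑ J' ∈ Mat α, D J.card ^ 2 * T J J' +
        ∑ J ∈ Mat α, ∑ J' ∈ Mat α, D J'.card ^ 2 * T J J' := by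
      rw [mul_sum, ← sum_add_distrib]
      refine sum_le_sum (fun J _ => ?_)
      rw [mul_sum, ← sum_add_distrib]
      refine sum_le_sum (fun J' _ => ?_)
      have := hTnn J J'
      nlinarith [sq_nonneg (D J.card - D J'.card)]
    rw [e1, e2]
    linarith
  refine h1.trans ?_
  have h2 : ∀ J ∈ Mat α, ∑ J' ∈ Mat α, x ^ J.card * D J.card ^ 2 * (x ^ J'.card *
      (κ ^ (J ∩ J').card * a ^ ((J \ J').card + (J' \ J).card))) ≤
      (x * a + 1) ^ (n.choose 2) * ((x * (x * κ + a)) ^ J.card * D J.card ^ 2) := by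
    intro J hJ
    rw [← mul_sum]
    have h3 := inner_sum_le (mem_Mat.1 hJ).1 hx hκ ha (Mat α) hMat
    rw [hE] at h3
    calc x ^ J.card * D J.card ^ 2 * ∑ J' ∈ Mat α, (x ^ J'.card *
        (κ ^ (J ∩ J').card * a ^ ((J \ J').card + (J' \ J).card)))
        ≤ x ^ J.card * D J.card ^ 2 * ((x * κ + a) ^ J.card * (x * a + 1) ^ (n.choose 2)) :=
          mul_le_mul_of_nonneg_left h3 (by positivity)
      _ = _ := by rw [mul_pow]; ring
  refine (sum_le_sum h2).trans ?_
  rw [← mul_sum]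
  refine mul_le_mul_of_nonneg_left ?_ (by positivity)
  -- group by cardinality
  have h4 : ∑ J ∈ Mat α, (x * (x * κ + a)) ^ J.card * D J.card ^ 2 ≤
      ∑ J ∈ (pairs (univ : Finset α)).powerset,
        (fun j => if j ≤ n / 2 then (x * (x * κ + a)) ^ j * D j ^ 2 else 0) J.card := by
    calc ∑ J ∈ Mat α, (x * (x * κ + a)) ^ J.card * D J.card ^ 2
        = ∑ J ∈ Mat α,
        (fun j => if j ≤ n / 2 then (x * (x * κ + a)) ^ j * D j ^ 2 else 0) J.card := by
          refine sum_congr rfl (fun J hJ => ?_)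
          have := two_mul_card_Mat hJ
          rw [hn] at this
          dsimp only
          rw [if_pos (by omega)]
      _ ≤ _ := sum_le_sum_of_subset_of_nonneg hMat (fun J _ _ => by
          dsimp only
          split_ifs
          · positivity
          · exact le_rfl)
  refine h4.trans ?_
  rw [Finset.sum_powerset_apply_card (fun j => if j ≤ n / 2 then
    (x * (x * κ + a)) ^ j * D j ^ 2 else 0), hE]
  calc ∑ m ∈ range (n.choose 2 + 1), (n.choose 2).choose m • (if m ≤ n / 2 then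
        (x * (x * κ + a)) ^ m * D m ^ 2 else 0)
      = ∑ m ∈ (range (n.choose 2 + 1)).filter (fun m => m ≤ n / 2),
        ((n.choose 2).choose m : ℝ) * ((x * (x * κ + a)) ^ m * D m ^ 2) := by
        rw [sum_filter]
        refine sum_congr rfl (fun m _ => ?_)
        rw [nsmul_eq_mul, mul_ite, mul_zero]
    _ ≤ ∑ m ∈ range (n / 2 + 1),
        ((n.choose 2).choose m : ℝ) * ((x * (x * κ + a)) ^ m * D m ^ 2) := by
        refine sum_le_sum_of_subset_of_nonneg ?_ (fun m _ _ => by positivity)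
        intro m hm
        rw [mem_filter] at hm
        rw [mem_range]; omega
    _ = _ := sum_congr rfl (fun m _ => by ring)

/-- adjacent edges in non-matchings -/
theorem exists_adj {J : Finset (Sym2 α)} (hJ : J ⊆ pairs (univ : Finset α)) (h : J ∉ Mat α) :
    ∃ p ∈ (univ : Finset (α × α × α)), s(p.1, p.2.1) ∈ J ∧ s(p.1, p.2.2) ∈ J ∧
      s(p.1, p.2.1) ≠ s(p.1, p.2.2) := by
  rw [mem_Mat] at h
  push Not at h
  obtain ⟨e, he, e', he', hne, hdj⟩ := h hJ
  rw [Finset.not_disjoint_iff] at hdj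
  obtain ⟨v, hv, hv'⟩ := hdj
  rw [Sym2.mem_toFinset] at hv hv'
  obtain ⟨a, rfl⟩ := hv
  obtain ⟨b, rfl⟩ := hv'
  exact ⟨(v, a, b), mem_univ _, he, he', hne⟩

/-- double sum over non-matchings -/
theorem Q2_le {n : ℕ} (hn : Fintype.card α = n) {x κ a : ℝ} (hx : 0 ≤ x) (hκ : 0 ≤ κ)
    (ha : 0 ≤ a) :
    ∑ J ∈ (pairs (univ : Finset α)).powerset \ Mat α,
      ∑ J' ∈ (pairs (univ : Finset α)).powerset \ Mat α, x ^ J.card * x ^ J'.card *
      (κ ^ (J ∩ J').card * a ^ ((J \ J').card + (J' \ J).card)) ≤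
    (x * a + 1) ^ (n.choose 2) * ((n : ℝ) ^ 3 * ((x * (x * κ + a)) ^ 2 *
      (x * (x * κ + a) + 1) ^ (n.choose 2))) := by
  classical
  have hE : (pairs (univ : Finset α)).card = n.choose 2 := by rw [card_pairs, card_univ, hn]
  set E0 := pairs (univ : Finset α) with hE0
  set y := x * (x * κ + a) with hy
  have hy0 : 0 ≤ y := by rw [hy]; positivity
  have h2 : ∀ J ∈ E0.powerset \ Mat α, ∑ J' ∈ E0.powerset \ Mat α, x ^ J.card * x ^ J'.card *
      (κ ^ (J ∩ J').card * a ^ ((J \ J').card + (J' \ J).card)) ≤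
      (x * a + 1) ^ (n.choose 2) * y ^ J.card := by
    intro J hJ
    rw [mem_sdiff, mem_powerset] at hJ
    have h3 := inner_sum_le hJ.1 hx hκ ha (E0.powerset \ Mat α) sdiff_subset
    rw [hE] at h3
    calc ∑ J' ∈ E0.powerset \ Mat α, x ^ J.card * x ^ J'.card *
        (κ ^ (J ∩ J').card * a ^ ((J \ J').card + (J' \ J).card))
        = x ^ J.card * ∑ J' ∈ E0.powerset \ Mat α, (x ^ J'.card *
        (κ ^ (J ∩ J').card * a ^ ((J \ J').card + (J' \ J).card))) := by
          rw [mul_sum]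
          exact sum_congr rfl (fun _ _ => by ring)
      _ ≤ x ^ J.card * ((x * κ + a) ^ J.card * (x * a + 1) ^ (n.choose 2)) :=
          mul_le_mul_of_nonneg_left h3 (by positivity)
      _ = _ := by rw [hy, mul_pow]; ring
  refine (sum_le_sum h2).trans ?_
  rw [← mul_sum]
  refine mul_le_mul_of_nonneg_left ?_ (by positivity)
  -- union bound over adjacent pairs
  have h5 : ∑ J ∈ E0.powerset \ Mat α, y ^ J.card ≤
      ∑ J ∈ E0.powerset, ∑ p ∈ (univ : Finset (α × α × α)),
        (if s(p.1, p.2.1) ∈ J ∧ s(p.1, p.2.2) ∈ J ∧ s(p.1, p.2.1) ≠ s(p.1, p.2.2) then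
          y ^ J.card else 0) := by
    calc ∑ J ∈ E0.powerset \ Mat α, y ^ J.card
        ≤ ∑ J ∈ E0.powerset \ Mat α, ∑ p ∈ (univ : Finset (α × α × α)),
        (if s(p.1, p.2.1) ∈ J ∧ s(p.1, p.2.2) ∈ J ∧ s(p.1, p.2.1) ≠ s(p.1, p.2.2) then
          y ^ J.card else 0) := by
          refine sum_le_sum (fun J hJ => ?_)
          rw [mem_sdiff, mem_powerset] at hJ
          obtain ⟨p, hp, hpp⟩ := exists_adj hJ.1 hJ.2
          refine le_trans (le_of_eq ?_) (single_le_sum
            (f := fun p : α × α × α => if s(p.1, p.2.1) ∈ J ∧ s(p.1, p.2.2) ∈ J ∧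
              s(p.1, p.2.1) ≠ s(p.1, p.2.2) then y ^ J.card else 0)
            (fun p _ => by split_ifs; exacts [by positivity, le_rfl]) hp)
          rw [if_pos hpp]
      _ ≤ _ := sum_le_sum_of_subset_of_nonneg sdiff_subset (fun J _ _ =>
          sum_nonneg (fun p _ => by split_ifs; exacts [by positivity, le_rfl]))
  refine h5.trans ?_
  rw [sum_comm]
  have h6 : ∀ p ∈ (univ : Finset (α × α × α)), ∑ J ∈ E0.powerset,
        (if s(p.1, p.2.1) ∈ J ∧ s(p.1, p.2.2) ∈ J ∧ s(p.1, p.2.1) ≠ s(p.1, p.2.2) then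
          y ^ J.card else 0) ≤ y ^ 2 * (y + 1) ^ (n.choose 2) := by
    intro p _
    set e := s(p.1, p.2.1) with he
    set e' := s(p.1, p.2.2) with he'
    rw [← sum_filter]
    calc ∑ J ∈ E0.powerset.filter (fun J => e ∈ J ∧ e' ∈ J ∧ e ≠ e'), y ^ J.card
        = ∑ J ∈ E0.powerset.filter (fun J => e ∈ J ∧ e' ∈ J ∧ e ≠ e'),
            y ^ 2 * y ^ ((J.erase e).erase e').card := by
          refine sum_congr rfl (fun J hJ => ?_)
          rw [mem_filter] at hJ
          obtain ⟨_, h1, h2, h3⟩ := hJ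
          have h4 : e' ∈ J.erase e := mem_erase.2 ⟨h3.symm, h2⟩
          have c1 := card_erase_of_mem h4
          have c2 := card_erase_of_mem h1
          have c3 : 0 < (J.erase e).card := Finset.card_pos.2 ⟨e', h4⟩
          have c4 : J.card = 2 + ((J.erase e).erase e').card := by omega
          rw [c4, pow_add]
      _ = ∑ J' ∈ (E0.powerset.filter (fun J => e ∈ J ∧ e' ∈ J ∧ e ≠ e')).image
            (fun J => (J.erase e).erase e'), y ^ 2 * y ^ J'.card := by
          rw [sum_image]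
          intro J hJ K hK heq
          have hJ := (mem_filter.1 (mem_coe.1 hJ)).2
          have hK := (mem_filter.1 (mem_coe.1 hK)).2
          dsimp only at heq
          have h1 : insert e (insert e' ((J.erase e).erase e')) = J := by
            rw [insert_erase (mem_erase.2 ⟨hJ.2.2.symm, hJ.2.1⟩), insert_erase hJ.1]
          have h2 : insert e (insert e' ((K.erase e).erase e')) = K := by
            rw [insert_erase (mem_erase.2 ⟨hK.2.2.symm, hK.2.1⟩), insert_erase hK.1]
          rw [← h1, ← h2, heq]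
      _ ≤ ∑ J' ∈ E0.powerset, y ^ 2 * y ^ J'.card := by
          refine sum_le_sum_of_subset_of_nonneg ?_ (fun _ _ _ => by positivity)
          intro J' hJ'
          rw [mem_image] at hJ'
          obtain ⟨J, hJ, rfl⟩ := hJ'
          rw [mem_filter, mem_powerset] at hJ
          rw [mem_powerset]
          exact ((erase_subset _ _).trans (erase_subset _ _)).trans hJ.1
      _ = y ^ 2 * (y + 1) ^ (n.choose 2) := by
          rw [← mul_sum]
          congr 1
          have := Finset.sum_pow_mul_eq_add_pow y 1 E0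
          rw [hE] at this
          rw [← this]
          exact sum_congr rfl (fun J _ => by rw [one_pow, mul_one])
  refine (sum_le_sum h6).trans ?_
  rw [sum_const, nsmul_eq_mul]
  have h7 : ((univ : Finset (α × α × α)).card : ℝ) = (n : ℝ) ^ 3 := by
    rw [card_univ, Fintype.card_prod, Fintype.card_prod, hn]; push_cast; ring
  rw [h7]

end RelRoots
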