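import Pool.Agent.Lib.MP_ccdac2_co.Second

/-!
Numeric estimates for the second moment bound.
-/

set_option linter.unusedSectionVars false
set_option linter.unusedSimpArgs false

namespace RelRoots

open Finset Filter

/-- the renewal condition -/
theorem renewal_cond {a : ℝ} (ha : 0 ≤ a) (ha1 : a ≤ 1 / 4) (k : ℕ) :
    ∑ b ∈ Icc 1 k, a ^ (b.choose 2) / ((b.factorial : ℝ) * (1 + a / 2 + a ^ 3) ^ b) ≤ 1 := by
  set X := 1 + a / 2 + a ^ 3 with hX
  have hX1 : 1 ≤ X := by rw [hX]; have : 0 ≤ a ^ 3 := by positivity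
                         linarith
  have hX2 : X ≤ 3 / 2 := by
    rw [hX]
    have : a ^ 3 ≤ (1 / 4) ^ 3 := pow_le_pow_left₀ ha ha1 3
    norm_num at this
    linarith
  have hX0 : 0 < X := by linarith
  -- tail
  have htail : ∑ b ∈ Icc 3 k, (1 : ℝ) / (b.factorial : ℝ) ≤ 1 / 4 := by
    have h1 := Real.sum_le_exp_of_nonneg (x := 1) zero_le_one (k + 3)
    have h2 : ∑ i ∈ range (k + 3), (1 : ℝ) ^ i / (i.factorial : ℝ) =
        ∑ i ∈ range 3, (1 : ℝ) ^ i / (i.factorial : ℝ) +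
        ∑ i ∈ Ico 3 (k + 3), (1 : ℝ) ^ i / (i.factorial : ℝ) := by
      rw [Finset.sum_range_add_sum_Ico _ (by omega)]
    have h3 : ∑ i ∈ range 3, (1 : ℝ) ^ i / (i.factorial : ℝ) = 5 / 2 := by
      simp [sum_range_succ, Nat.factorial]; norm_num
    have h4 : ∑ b ∈ Icc 3 k, (1 : ℝ) / (b.factorial : ℝ) ≤
        ∑ i ∈ Ico 3 (k + 3), (1 : ℝ) ^ i / (i.factorial : ℝ) := by
      have : ∑ b ∈ Icc 3 k, (1 : ℝ) / (b.factorial : ℝ) =
          ∑ b ∈ Icc 3 k, (1 : ℝ) ^ b / (b.factorial : ℝ) := by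
        refine sum_congr rfl (fun b _ => by rw [one_pow])
      rw [this]
      refine sum_le_sum_of_subset_of_nonneg ?_ (fun _ _ _ => by positivity)
      intro b hb
      rw [mem_Icc] at hb
      rw [mem_Ico]; omega
    have h5 := Real.exp_one_lt_d9
    rw [h2, h3] at h1
    linarith
  have hbound : ∑ b ∈ Icc 1 k, a ^ (b.choose 2) / ((b.factorial : ℝ) * X ^ b) ≤
      1 / X + a / (2 * X ^ 2) + ∑ b ∈ Icc 3 k, a ^ 3 * (1 / (b.factorial : ℝ)) := by
    calc ∑ b ∈ Icc 1 k, a ^ (b.choose 2) / ((b.factorial : ℝ) * X ^ b)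
        ≤ ∑ b ∈ insert 1 (insert 2 (Icc 3 k)), a ^ (b.choose 2) / ((b.factorial : ℝ) * X ^ b) := by
          refine sum_le_sum_of_subset_of_nonneg ?_ (fun _ _ _ => by positivity)
          intro b hb
          rw [mem_Icc] at hb
          rw [mem_insert, mem_insert, mem_Icc]
          omega
      _ = 1 / X + (a / (2 * X ^ 2) +
          ∑ b ∈ Icc 3 k, a ^ (b.choose 2) / ((b.factorial : ℝ) * X ^ b)) := by
          rw [sum_insert, sum_insert]
          · norm_num [Nat.choose, Nat.factorial]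
          · rw [mem_Icc]; omega
          · rw [mem_insert, mem_Icc]; omega
      _ ≤ 1 / X + (a / (2 * X ^ 2) + ∑ b ∈ Icc 3 k, a ^ 3 * (1 / (b.factorial : ℝ))) := by
          refine add_le_add le_rfl (add_le_add le_rfl (sum_le_sum (fun b hb => ?_)))
          rw [mem_Icc] at hb
          have e1 : a ^ (b.choose 2) ≤ a ^ 3 := by
            refine pow_le_pow_of_le_one ha (by linarith) ?_
            calc 3 = Nat.choose 3 2 := rfl
              _ ≤ _ := Nat.choose_le_choose 2 hb.1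
          have e2 : (1 : ℝ) ≤ X ^ b := one_le_pow₀ hX1
          have e3 : (0 : ℝ) < (b.factorial : ℝ) := by positivity
          rw [mul_one_div]
          refine div_le_div₀ (by positivity) e1 e3 ?_
          nlinarith
      _ = _ := by ring
  refine hbound.trans ?_
  rw [← mul_sum]
  have h6 : a ^ 3 * ∑ b ∈ Icc 3 k, (1 : ℝ) / (b.factorial : ℝ) ≤ a ^ 3 * (1 / 4) :=
    mul_le_mul_of_nonneg_left htail (by positivity)
  have h7 : 1 / X + a / (2 * X ^ 2) + a ^ 3 * (1 / 4) ≤ 1 := by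
    have h8 : 1 / X + a / (2 * X ^ 2) + a ^ 3 * (1 / 4) =
        (X + a / 2 + a ^ 3 / 4 * X ^ 2) / X ^ 2 := by field_simp
    rw [h8, div_le_one (by positivity)]
    have h9 : X ^ 2 = X + X * (a / 2 + a ^ 3) := by rw [hX]; ring
    have h10 : X * (a / 2 + a ^ 3) ≥ a / 2 + a ^ 3 := by
      have : 0 ≤ a / 2 + a ^ 3 := by positivity
      nlinarith
    have h11 : a ^ 3 / 4 * X ^ 2 ≤ a ^ 3 := by
      have : X ^ 2 ≤ 4 := by nlinarith
      have h3 : 0 ≤ a ^ 3 := by positivity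
      nlinarith
    linarith
  linarith

/-- generic bound for the matching sum -/
theorem S1_le {n N J0 : ℕ} (hn : 1 ≤ n) {y z : ℝ} (hy : 0 ≤ y) (hz : (N : ℝ) * y ≤ z)
    (hJ : (J0 + 1) ^ 2 ≤ n) :
    ∑ j ∈ range (n / 2 + 1), (N.choose j : ℝ) * y ^ j * Dj n j ^ 2 ≤
      Real.exp z * (4 * ((J0 : ℝ) + 1) ^ 4 / (n : ℝ) ^ 2) +
        Real.exp 1 * (1 / 2) ^ J0 * Real.exp (6 * z) := by
  have hn0 : (0 : ℝ) < n := by exact_mod_cast hn
  have hz0 : 0 ≤ z := le_trans (by positivity) hz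
  have hterm : ∀ j ∈ range (n / 2 + 1), (N.choose j : ℝ) * y ^ j * Dj n j ^ 2 ≤
      z ^ j / (j.factorial : ℝ) * (4 * ((J0 : ℝ) + 1) ^ 4 / (n : ℝ) ^ 2) +
      Real.exp 1 * (1 / 2) ^ J0 * ((6 * z) ^ j / (j.factorial : ℝ)) := by
    intro j hj
    rw [mem_range] at hj
    have hj2 : 2 * j ≤ n := by omega
    have e1 : (N.choose j : ℝ) * y ^ j ≤ z ^ j / (j.factorial : ℝ) := by
      calc (N.choose j : ℝ) * y ^ j ≤ ((N : ℝ) ^ j / (j.factorial : ℝ)) * y ^ j := by
            refine mul_le_mul_of_nonneg_right ?_ (by positivity)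
            exact Nat.choose_le_pow_div j N
        _ = ((N : ℝ) * y) ^ j / (j.factorial : ℝ) := by rw [mul_pow]; ring
        _ ≤ _ := by
            refine div_le_div_of_nonneg_right ?_ (by positivity)
            exact pow_le_pow_left₀ (by positivity) hz j
    have hD0 := Dj_nonneg hj2
    have hD1 := Dj_le hj2
    have hzj : 0 ≤ z ^ j / (j.factorial : ℝ) := by positivity
    rcases Nat.lt_or_ge J0 j with hlt | hge
    · -- large j
      have e2 : Dj n j ^ 2 ≤ Real.exp ((j : ℝ) + 1) := by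
        have e3 : Dj n j ≤ Real.exp (((j : ℝ) + 1) / 2) := by
          have : (j : ℝ) * (j + 1) / n ≤ ((j : ℝ) + 1) / 2 := by
            rw [div_le_div_iff₀ hn0 (by norm_num)]
            have : 2 * (j : ℝ) ≤ n := by exact_mod_cast hj2
            have hj0 : (0 : ℝ) ≤ j := Nat.cast_nonneg j
            nlinarith
          have := Real.exp_le_exp.2 this
          linarith
        calc Dj n j ^ 2 ≤ (Real.exp (((j : ℝ) + 1) / 2)) ^ 2 := pow_le_pow_left₀ hD0 e3 2
          _ = Real.exp ((j : ℝ) + 1) := by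
              rw [← Real.exp_nat_mul]; congr 1; push_cast; ring
      have e4 : z ^ j / (j.factorial : ℝ) * Real.exp ((j : ℝ) + 1) ≤
          Real.exp 1 * (1 / 2) ^ J0 * ((6 * z) ^ j / (j.factorial : ℝ)) := by
        have e5 : Real.exp ((j : ℝ) + 1) = Real.exp 1 * (Real.exp 1) ^ j := by
          rw [← Real.exp_nat_mul, ← Real.exp_add]; congr 1; ring
        have e6 : (Real.exp 1) ^ j ≤ (1 / 2) ^ J0 * 6 ^ j := by
          have h3 : Real.exp 1 ≤ 3 := by have := Real.exp_one_lt_d9; linarith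
          calc (Real.exp 1) ^ j ≤ 3 ^ j := pow_le_pow_left₀ (Real.exp_pos 1).le h3 j
            _ = (1 / 2) ^ j * 6 ^ j := by rw [← mul_pow]; norm_num
            _ ≤ (1 / 2) ^ J0 * 6 ^ j := by
                refine mul_le_mul_of_nonneg_right ?_ (by positivity)
                exact pow_le_pow_of_le_one (by norm_num) (by norm_num) hlt.le
        rw [e5, mul_pow]
        calc z ^ j / (j.factorial : ℝ) * (Real.exp 1 * Real.exp 1 ^ j)
            = Real.exp 1 * (z ^ j / (j.factorial : ℝ)) * Real.exp 1 ^ j := by ring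
          _ ≤ Real.exp 1 * (z ^ j / (j.factorial : ℝ)) * ((1 / 2) ^ J0 * 6 ^ j) :=
              mul_le_mul_of_nonneg_left e6 (by positivity)
          _ = _ := by ring
      have e7 : 0 ≤ z ^ j / (j.factorial : ℝ) * (4 * ((J0 : ℝ) + 1) ^ 4 / (n : ℝ) ^ 2) := by
        positivity
      calc (N.choose j : ℝ) * y ^ j * Dj n j ^ 2 ≤
          z ^ j / (j.factorial : ℝ) * Real.exp ((j : ℝ) + 1) :=
            mul_le_mul e1 e2 (by positivity) hzj
        _ ≤ _ := by linarith
    · -- small j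
      have e2 : Dj n j ^ 2 ≤ 4 * ((J0 : ℝ) + 1) ^ 4 / (n : ℝ) ^ 2 := by
        have hJ' : ((J0 : ℝ) + 1) ^ 2 ≤ n := by exact_mod_cast hJ
        have hjJ : (j : ℝ) ≤ J0 := by exact_mod_cast hge
        have hj0 : (0 : ℝ) ≤ j := Nat.cast_nonneg j
        have e3 : (j : ℝ) * (j + 1) ≤ ((J0 : ℝ) + 1) ^ 2 := by nlinarith
        have e4 : (j : ℝ) * (j + 1) / n ≤ 1 := by
          rw [div_le_one hn0]; linarith
        have e5 : 0 ≤ (j : ℝ) * (j + 1) / n := by positivity
        have e6 : Real.exp ((j : ℝ) * (j + 1) / n) - 1 ≤ 2 * ((j : ℝ) * (j + 1) / n) := by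
          have := Real.abs_exp_sub_one_le (x := (j : ℝ) * (j + 1) / n)
            (by rw [abs_of_nonneg e5]; exact e4)
          rw [abs_of_nonneg e5] at this
          exact (le_abs_self _).trans this
        have e7 : Dj n j ≤ 2 * (((J0 : ℝ) + 1) ^ 2 / n) := by
          refine (hD1.trans e6).trans ?_
          refine mul_le_mul_of_nonneg_left ?_ (by norm_num)
          exact div_le_div_of_nonneg_right e3 hn0.le
        calc Dj n j ^ 2 ≤ (2 * (((J0 : ℝ) + 1) ^ 2 / n)) ^ 2 := pow_le_pow_left₀ hD0 e7 2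
          _ = _ := by ring
      have e8 : 0 ≤ Real.exp 1 * (1 / 2) ^ J0 * ((6 * z) ^ j / (j.factorial : ℝ)) := by
        have := Real.exp_pos 1; positivity
      calc (N.choose j : ℝ) * y ^ j * Dj n j ^ 2 ≤
          z ^ j / (j.factorial : ℝ) * (4 * ((J0 : ℝ) + 1) ^ 4 / (n : ℝ) ^ 2) :=
            mul_le_mul e1 e2 (by positivity) hzj
        _ ≤ _ := by linarith
  refine (sum_le_sum hterm).trans ?_
  rw [sum_add_distrib, ← sum_mul, ← mul_sum]
  have s1 := Real.sum_le_exp_of_nonneg hz0 (n / 2 + 1)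
  have s2 := Real.sum_le_exp_of_nonneg (x := 6 * z) (by positivity) (n / 2 + 1)
  refine add_le_add ?_ ?_
  · exact mul_le_mul_of_nonneg_right s1 (by positivity)
  · exact mul_le_mul_of_nonneg_left s2 (by have := Real.exp_pos 1; positivity)

/-- bound for `lam3` -/
theorem lam3_le {n : ℕ} (hn : 2 ≤ n) {t L : ℝ} (hL : L = Real.log n) (ht0 : 0 ≤ t)
    (ht : t ≤ 6 * L) (hq : 36 * Real.exp (-(47 / 50) * L) ≤ 1 / 2) :
    lam3 n (Real.exp (t / n)) (n / 50) ≤ 10368 * Real.exp (-(41 / 50) * L) := by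
  have hn0 : (0 : ℝ) < n := by exact_mod_cast (by omega : 0 < n)
  have hn2 : (2 : ℝ) ≤ n := by exact_mod_cast hn
  have hnL : (n : ℝ) = Real.exp L := by rw [hL, Real.exp_log hn0]
  have hL0 : 0 ≤ L := by linarith
  set q := 36 * Real.exp (-(47 / 50) * L) with hqdef
  have hq0 : 0 < q := by rw [hqdef]; positivity
  have hterm : ∀ b ∈ (range (n + 1)).filter (fun b => 3 ≤ b ∧ b ≤ n / 50),
      (n.choose b : ℝ) * ((Real.exp (t / n)) ^ (b.choose 2) *
        (9 / ((n : ℝ) - 1) ^ 2) ^ (b - 1) * 4) ≤ (1 / 9) * Real.exp (2 * L) * q ^ b := by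
    intro b hb
    rw [mem_filter] at hb
    obtain ⟨_, hb3, hb50⟩ := hb
    have hbn : 50 * (b : ℝ) ≤ n := by exact_mod_cast (by omega : 50 * b ≤ n)
    have hb0 : (0 : ℝ) ≤ b := Nat.cast_nonneg b
    have e1 : (n.choose b : ℝ) ≤ Real.exp (L * b) := by
      calc (n.choose b : ℝ) ≤ (n : ℝ) ^ b := by
            exact_mod_cast Nat.choose_le_pow n b
        _ = Real.exp (L * b) := by rw [hnL, ← Real.exp_nat_mul]; congr 1; ring
    have e2 : (Real.exp (t / n)) ^ (b.choose 2) ≤ Real.exp (3 / 50 * L * b) := by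
      rw [← Real.exp_nat_mul]
      refine Real.exp_le_exp.2 ?_
      have f1 : ((b.choose 2 : ℕ) : ℝ) ≤ (b : ℝ) * b / 2 := by
        rw [Nat.cast_choose_two]; nlinarith
      have f2 : ((b.choose 2 : ℕ) : ℝ) * (t / n) ≤ ((b : ℝ) * b / 2) * (6 * L / n) := by
        refine mul_le_mul f1 ?_ (by positivity) (by positivity)
        exact div_le_div_of_nonneg_right ht hn0.le
      refine f2.trans ?_
      rw [mul_div_assoc', div_le_iff₀ hn0]
      have f3 : 0 ≤ L * b := by positivity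
      nlinarith
    have e3 : (9 / ((n : ℝ) - 1) ^ 2) ^ (b - 1) ≤ (36 * Real.exp (-2 * L)) ^ (b - 1) := by
      refine pow_le_pow_left₀ (by positivity) ?_ _
      have f1 : (n : ℝ) / 2 ≤ (n : ℝ) - 1 := by linarith
      have f2 : ((n : ℝ) / 2) ^ 2 ≤ ((n : ℝ) - 1) ^ 2 := pow_le_pow_left₀ (by positivity) f1 2
      have f3 : Real.exp (-2 * L) = 1 / (n : ℝ) ^ 2 := by
        rw [hnL, ← Real.exp_nat_mul, one_div, ← Real.exp_neg]; congr 1; push_cast; ring
      rw [f3]
      calc 9 / ((n : ℝ) - 1) ^ 2 ≤ 9 / ((n : ℝ) / 2) ^ 2 :=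
            div_le_div_of_nonneg_left (by norm_num) (by positivity) f2
        _ = _ := by field_simp; ring
    have e4 : (36 * Real.exp (-2 * L)) ^ (b - 1) * 36 = 36 ^ b * Real.exp (2 * L) *
        Real.exp (-2 * L * b) := by
      have hb1 : b = (b - 1) + 1 := by omega
      have f1 : Real.exp (2 * L) * Real.exp (-2 * L * b) = Real.exp (-2 * L) ^ (b - 1) := by
        rw [← Real.exp_add, ← Real.exp_nat_mul]
        congr 1
        have : ((b - 1 : ℕ) : ℝ) = (b : ℝ) - 1 := by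
          rw [Nat.cast_sub (by omega)]; simp
        rw [this]; ring
      rw [mul_assoc (36 ^ b : ℝ), f1, mul_pow]
      conv_rhs => rw [hb1, pow_succ]
      have : b - 1 + 1 - 1 = b - 1 := by omega
      rw [this]; ring
    have e5 : Real.exp (L * b) * Real.exp (3 / 50 * L * b) * Real.exp (-2 * L * b) =
        Real.exp (-(47 / 50) * L) ^ b := by
      rw [← Real.exp_add, ← Real.exp_add, ← Real.exp_nat_mul]; congr 1; ring
    calc (n.choose b : ℝ) * ((Real.exp (t / n)) ^ (b.choose 2) *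
        (9 / ((n : ℝ) - 1) ^ 2) ^ (b - 1) * 4)
        ≤ Real.exp (L * b) * (Real.exp (3 / 50 * L * b) *
          (36 * Real.exp (-2 * L)) ^ (b - 1) * 4) := by gcongr
      _ = (1 / 9) * (Real.exp (L * b) * Real.exp (3 / 50 * L * b) *
          ((36 * Real.exp (-2 * L)) ^ (b - 1) * 36)) := by ring
      _ = (1 / 9) * Real.exp (2 * L) * (36 ^ b * (Real.exp (L * b) * Real.exp (3 / 50 * L * b) *
          Real.exp (-2 * L * b))) := by rw [e4]; ring
      _ = _ := by rw [e5, hqdef, mul_pow]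
  unfold lam3
  refine (sum_le_sum hterm).trans ?_
  rw [← mul_sum]
  have hgeom : ∑ b ∈ (range (n + 1)).filter (fun b => 3 ≤ b ∧ b ≤ n / 50), q ^ b ≤ 2 * q ^ 3 := by
    calc ∑ b ∈ (range (n + 1)).filter (fun b => 3 ≤ b ∧ b ≤ n / 50), q ^ b
        ≤ ∑ b ∈ (range (n + 1)).image (fun i => i + 3), q ^ b := by
          refine sum_le_sum_of_subset_of_nonneg ?_ (fun _ _ _ => by positivity)
          intro b hb
          rw [mem_filter, mem_range] at hb
          rw [mem_image]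
          exact ⟨b - 3, mem_range.2 (by omega), by omega⟩
      _ = ∑ i ∈ range (n + 1), q ^ (i + 3) := by
          rw [sum_image]
          intro i _ j _ h
          simpa using h
      _ ≤ ∑ i ∈ range (n + 1), q ^ 3 * (1 / 2) ^ i := by
          refine sum_le_sum (fun i _ => ?_)
          rw [pow_add, mul_comm]
          refine mul_le_mul_of_nonneg_left ?_ (by positivity)
          exact pow_le_pow_left₀ hq0.le hq i
      _ = q ^ 3 * ∑ i ∈ range (n + 1), (1 / 2 : ℝ) ^ i := by rw [mul_sum]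
      _ ≤ q ^ 3 * 2 := mul_le_mul_of_nonneg_left (sum_geometric_two_le _) (by positivity)
      _ = _ := by ring
  calc (1 / 9) * Real.exp (2 * L) *
      ∑ b ∈ (range (n + 1)).filter (fun b => 3 ≤ b ∧ b ≤ n / 50), q ^ b
      ≤ (1 / 9) * Real.exp (2 * L) * (2 * q ^ 3) :=
        mul_le_mul_of_nonneg_left hgeom (by positivity)
    _ = (1 / 9) * 2 * 36 ^ 3 * (Real.exp (2 * L) * Real.exp (-(47 / 50) * L) ^ 3) := by
        rw [hqdef]; ring
    _ = 10368 * Real.exp (-(41 / 50) * L) := by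
        rw [← Real.exp_nat_mul, ← Real.exp_add]
        have : 2 * L + (3 : ℕ) * (-(47 / 50) * L) = -(41 / 50) * L := by push_cast; ring
        rw [this]; norm_num

end RelRoots
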