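import Pool.Agent.Lib.MP_ccdac2_co.Num

/-!
The second moment is at most `exp (t/2) * n^(-7/10)`.
-/

set_option linter.unusedSectionVars false
set_option linter.unusedSimpArgs false

namespace RelRoots

open Finset Filter

theorem ev_poly (C : ℝ) (k : ℕ) {c : ℝ} (hc : 0 < c) :
    ∀ᶠ L : ℝ in atTop, C * L ^ k ≤ Real.exp (c * L) := by
  have h1 := isLittleO_pow_exp_pos_mul_atTop k hc
  have h2 := h1.bound (c := 1 / (|C| + 1)) (by positivity)
  filter_upwards [h2, eventually_ge_atTop 0] with L hL hL0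
  rw [Real.norm_of_nonneg (by positivity), Real.norm_of_nonneg (Real.exp_pos _).le] at hL
  have hC : C ≤ |C| + 1 := by linarith [le_abs_self C]
  have hpos : 0 < |C| + 1 := by positivity
  calc C * L ^ k ≤ (|C| + 1) * L ^ k := mul_le_mul_of_nonneg_right hC (by positivity)
    _ ≤ (|C| + 1) * (1 / (|C| + 1) * Real.exp (c * L)) :=
        mul_le_mul_of_nonneg_left hL hpos.le
    _ = _ := by field_simp

theorem ev_mul_exp (C : ℝ) (k : ℕ) {c d : ℝ} (hcd : d < c) :
    ∀ᶠ L : ℝ in atTop, C * L ^ k * Real.exp (-c * L) ≤ Real.exp (-d * L) := by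
  filter_upwards [ev_poly C k (sub_pos.2 hcd)] with L hL
  calc C * L ^ k * Real.exp (-c * L) ≤ Real.exp ((c - d) * L) * Real.exp (-c * L) :=
        mul_le_mul_of_nonneg_right hL (Real.exp_pos _).le
    _ = _ := by rw [← Real.exp_add]; congr 1; ring

/-- the error function in terms of `L = log n` -/
noncomputable def hh (L : ℝ) : ℝ :=
  3 * (Real.exp 1 * (4 * (21 * L) ^ 4 * Real.exp (-2 * L) + Real.exp 6 * Real.exp (-(11/2) * L)) +
    Real.exp 1 * ((4 * L) ^ 2 * Real.exp (-1 * L)) +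
    2 * Real.exp 20 * (10368 * Real.exp (-(41 / 50) * L) + (6 * L) ^ 4 * Real.exp (-2 * L)))

theorem hh_le : ∀ᶠ L : ℝ in atTop, hh L ≤ Real.exp (-(7/10) * L) := by
  have h1 := ev_mul_exp (5 * (3 * Real.exp 1 * (4 * 21 ^ 4))) 4 (c := 2) (d := 7/10) (by norm_num)
  have h2 := ev_mul_exp (5 * (3 * Real.exp 1 * Real.exp 6)) 0 (c := 11/2) (d := 7/10)
    (by norm_num)
  have h3 := ev_mul_exp (5 * (3 * Real.exp 1 * 16)) 2 (c := 1) (d := 7/10) (by norm_num)
  have h4 := ev_mul_exp (5 * (3 * (2 * Real.exp 20) * 10368)) 0 (c := 41/50) (d := 7/10)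
    (by norm_num)
  have h5 := ev_mul_exp (5 * (3 * (2 * Real.exp 20) * 6 ^ 4)) 4 (c := 2) (d := 7/10)
    (by norm_num)
  filter_upwards [h1, h2, h3, h4, h5] with L h1 h2 h3 h4 h5
  unfold hh
  have e : 3 * (Real.exp 1 * (4 * (21 * L) ^ 4 * Real.exp (-2 * L) +
      Real.exp 6 * Real.exp (-(11/2) * L)) +
    Real.exp 1 * ((4 * L) ^ 2 * Real.exp (-1 * L)) +
    2 * Real.exp 20 * (10368 * Real.exp (-(41 / 50) * L) + (6 * L) ^ 4 * Real.exp (-2 * L))) =
    (1 / 5) * (5 * (3 * Real.exp 1 * (4 * 21 ^ 4)) * L ^ 4 * Real.exp (-2 * L) +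
      5 * (3 * Real.exp 1 * Real.exp 6) * L ^ 0 * Real.exp (-(11/2) * L) +
      5 * (3 * Real.exp 1 * 16) * L ^ 2 * Real.exp (-1 * L) +
      5 * (3 * (2 * Real.exp 20) * 10368) * L ^ 0 * Real.exp (-(41/50) * L) +
      5 * (3 * (2 * Real.exp 20) * 6 ^ 4) * L ^ 4 * Real.exp (-2 * L)) := by ring
  rw [e]
  linarith

theorem tendsto_logn : Tendsto (fun n : ℕ => Real.log (n : ℝ)) atTop atTop :=
  Real.tendsto_log_atTop.comp tendsto_natCast_atTop_atTop

/-- all the small technical conditions that hold for large `n` -/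
structure Tech (n : ℕ) : Prop where
  n2 : 100 ≤ n
  L2 : 2 ≤ Real.log n
  small : 6 * Real.log n / n ≤ 1 / 2
  small3 : (6 * Real.log n) ^ 3 / (4 * (n : ℝ) ^ 2) ≤ 1
  q : 36 * Real.exp (-(47 / 50) * Real.log n) ≤ 1 / 2
  lam : 10368 * Real.exp (-(41 / 50) * Real.log n) ≤ 1
  J0 : (20 * Real.log n + 3) ^ 2 ≤ n
  hh : hh (Real.log n) ≤ Real.exp (-(7/10) * Real.log n)

theorem ev_tech : ∀ᶠ n : ℕ in atTop, Tech n := by
  have t := tendsto_logn
  have e1 := t.eventually (eventually_ge_atTop (2 : ℝ))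
  have e2 := t.eventually (ev_poly 12 1 (c := 1) one_pos)
  have e3 := t.eventually (ev_poly (6 ^ 3) 3 (c := 2) two_pos)
  have e4 := t.eventually (ev_poly 72 0 (c := 47/50) (by norm_num))
  have e5 := t.eventually (ev_poly 10368 0 (c := 41/50) (by norm_num))
  have e6 := t.eventually (ev_poly (23 ^ 2) 2 (c := 1) one_pos)
  have e7 := t.eventually hh_le
  filter_upwards [e1, e2, e3, e4, e5, e6, e7, eventually_ge_atTop 100] with
    n e1 e2 e3 e4 e5 e6 e7 hn
  have hn0 : (0 : ℝ) < n := by exact_mod_cast (by omega : 0 < n)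
  have hexp : Real.exp (Real.log n) = n := Real.exp_log hn0
  have hexp1 : Real.exp (1 * Real.log n) = n := by rw [one_mul, hexp]
  have hexp2 : Real.exp (2 * Real.log n) = (n : ℝ) ^ 2 := by
    rw [show 2 * Real.log n = ((2 : ℕ) : ℝ) * Real.log n by norm_num, Real.exp_nat_mul, hexp]
  refine ⟨hn, e1, ?_, ?_, ?_, ?_, ?_, e7⟩
  · rw [hexp1, pow_one] at e2
    rw [div_le_iff₀ hn0]; linarith
  · rw [hexp2] at e3
    rw [div_le_one (by positivity), mul_pow]
    have : (0:ℝ) ≤ (n : ℝ) ^ 2 := by positivity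
    linarith
  · rw [pow_zero, mul_one] at e4
    have h : Real.exp (-(47 / 50) * Real.log n) = (Real.exp (47 / 50 * Real.log n))⁻¹ := by
      rw [← Real.exp_neg]; congr 1; ring
    rw [h, ← div_eq_mul_inv, div_le_iff₀ (Real.exp_pos _)]
    linarith
  · rw [pow_zero, mul_one] at e5
    have h : Real.exp (-(41 / 50) * Real.log n) = (Real.exp (41 / 50 * Real.log n))⁻¹ := by
      rw [← Real.exp_neg]; congr 1; ring
    rw [h, ← div_eq_mul_inv, div_le_one (Real.exp_pos _)]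
    exact e5
  · rw [hexp1] at e6
    refine le_trans ?_ e6
    rw [← mul_pow]
    refine pow_le_pow_left₀ (by linarith) ?_ 2
    linarith

theorem choose_two_le (n : ℕ) : ((n.choose 2 : ℕ) : ℝ) ≤ (n : ℝ) ^ 2 / 2 := by
  rw [Nat.cast_choose_two]
  have : (0:ℝ) ≤ n := Nat.cast_nonneg n
  nlinarith

theorem one_add_pow_le {x : ℝ} (hx : 0 ≤ x) (N : ℕ) : (x + 1) ^ N ≤ Real.exp (N * x) := by
  rw [Real.exp_nat_mul]
  exact pow_le_pow_left₀ (by linarith) (Real.add_one_le_exp x) N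

/-- main numeric bound -/
theorem num_bound {n : ℕ} (T : Tech n) {t : ℝ} (ht0 : 0 ≤ t) (ht : t ≤ 5 * Real.log n + 2) :
    3 * ((1 / (n : ℝ) * (t / (2 * n)) + 1) ^ (n.choose 2) *
        ∑ j ∈ range (n / 2 + 1), ((n.choose 2).choose j : ℝ) *
          (1 / (n : ℝ) * (1 / (n : ℝ) * Real.exp (t / n) + t / (2 * n))) ^ j * Dj n j ^ 2 +
      (1 / (n : ℝ) * (t / (2 * n)) + 1) ^ (n.choose 2) * ((n : ℝ) ^ 3 *
        ((1 / (n : ℝ) * (1 / (n : ℝ) * Real.exp (t / n) + t / (2 * n))) ^ 2 *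
          (1 / (n : ℝ) * (1 / (n : ℝ) * Real.exp (t / n) + t / (2 * n)) + 1) ^ (n.choose 2))) +
      2 * (1 + t / (2 * n) / 2 + (t / (2 * n)) ^ 3) ^ (2 * n) *
        Real.exp (9 * Real.exp (t / n) + lam3 n (Real.exp (t / n)) (n / 50)) *
        (lam3 n (Real.exp (t / n)) (n / 50) + 16 * (n : ℝ) ^ 2 * (t / (2 * n)) ^ 4)) ≤
    Real.exp (t / 2) * Real.exp (-(7/10) * Real.log n) := by
  set L := Real.log n with hLdef
  have hn0 : (0 : ℝ) < n := by exact_mod_cast (by have := T.n2; omega : 0 < n)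
  have hL2 : 2 ≤ L := T.L2
  have ht6 : t ≤ 6 * L := by linarith
  set a := t / (2 * (n : ℝ)) with ha
  have ha0 : 0 ≤ a := by rw [ha]; positivity
  have hna : (n : ℝ) * a = t / 2 := by rw [ha]; field_simp
  set κ := Real.exp (t / n) with hκ
  have hκ2 : κ ≤ 2 := by
    have h1 : t / n ≤ 1 / 2 := by
      refine le_trans ?_ T.small
      exact div_le_div_of_nonneg_right ht6 hn0.le
    calc κ ≤ Real.exp (1 / 2) := Real.exp_le_exp.2 h1
      _ ≤ 2 := by
        have h2 : Real.exp (1/2) ^ 2 = Real.exp 1 := by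
          rw [← Real.exp_nat_mul]; norm_num
        have h3 := Real.exp_one_lt_d9
        have h4 := Real.exp_pos (1/2 : ℝ)
        nlinarith
  have hκ0 : 0 < κ := Real.exp_pos _
  set y := 1 / (n : ℝ) * (1 / (n : ℝ) * κ + a) with hy
  have hy0 : 0 ≤ y := by rw [hy]; positivity
  set z := 1 + t / 4 with hz
  have hN := choose_two_le n
  have hNy : ((n.choose 2 : ℕ) : ℝ) * y ≤ z := by
    calc ((n.choose 2 : ℕ) : ℝ) * y ≤ ((n : ℝ) ^ 2 / 2) * y := mul_le_mul_of_nonneg_right hN hy0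
      _ = κ / 2 + (n : ℝ) * a / 2 := by rw [hy]; field_simp
      _ ≤ z := by rw [hna, hz]; linarith
  -- first factor
  have hP1 : (1 / (n : ℝ) * a + 1) ^ (n.choose 2) ≤ Real.exp (t / 4) := by
    refine (one_add_pow_le (by positivity) _).trans (Real.exp_le_exp.2 ?_)
    calc ((n.choose 2 : ℕ) : ℝ) * (1 / (n : ℝ) * a) ≤ ((n : ℝ) ^ 2 / 2) * (1 / (n : ℝ) * a) :=
          mul_le_mul_of_nonneg_right hN (by positivity)
      _ = (n : ℝ) * a / 2 := by field_simp
      _ = t / 4 := by rw [hna]; ring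
  have hP1' : 0 ≤ (1 / (n : ℝ) * a + 1) ^ (n.choose 2) := by positivity
  have hexpn : Real.exp (-2 * L) = 1 / (n : ℝ) ^ 2 := by
    have : (n : ℝ) = Real.exp L := by rw [hLdef, Real.exp_log hn0]
    rw [this, ← Real.exp_nat_mul, one_div, ← Real.exp_neg]; congr 1; push_cast; ring
  have hexpn1 : Real.exp (-1 * L) = 1 / (n : ℝ) := by
    have : (n : ℝ) = Real.exp L := by rw [hLdef, Real.exp_log hn0]
    rw [this, one_div, ← Real.exp_neg]; congr 1; ring
  have hprod : Real.exp (t / 4) * Real.exp z = Real.exp (t / 2) * Real.exp 1 := by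
    rw [← Real.exp_add, ← Real.exp_add, hz]; congr 1; ring
  -- Q1
  set J0 := ⌈20 * L⌉₊ with hJ0
  have hJ0l : 20 * L ≤ J0 := Nat.le_ceil _
  have hJ0u : (J0 : ℝ) ≤ 20 * L + 1 := (Nat.ceil_lt_add_one (by linarith)).le
  have hJ1 : (J0 + 1) ^ 2 ≤ n := by
    have h1 : (((J0 + 1) ^ 2 : ℕ) : ℝ) ≤ n := by
      refine le_trans ?_ T.J0
      push_cast
      exact pow_le_pow_left₀ (by positivity) (by linarith) 2
    exact_mod_cast h1
  have hS := S1_le (n := n) (N := n.choose 2) (J0 := J0) (by have := T.n2; omega) hy0 hNy hJ1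
  have hS' : Real.exp z * (4 * ((J0 : ℝ) + 1) ^ 4 / (n : ℝ) ^ 2) +
        Real.exp 1 * (1 / 2) ^ J0 * Real.exp (6 * z) ≤
      Real.exp z * (4 * (21 * L) ^ 4 * Real.exp (-2 * L) +
        Real.exp 6 * Real.exp (-(11/2) * L)) := by
    have f1 : 4 * ((J0 : ℝ) + 1) ^ 4 / (n : ℝ) ^ 2 ≤ 4 * (21 * L) ^ 4 * Real.exp (-2 * L) := by
      rw [hexpn, mul_one_div]
      refine div_le_div_of_nonneg_right ?_ (by positivity)
      refine mul_le_mul_of_nonneg_left ?_ (by norm_num)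
      exact pow_le_pow_left₀ (by positivity) (by linarith) 4
    have f2 : (1 / 2 : ℝ) ^ J0 ≤ Real.exp (-13 * L) := by
      have g1 : (1 / 2 : ℝ) ^ J0 = Real.exp (-(J0 : ℝ) * Real.log 2) := by
        have : (1 / 2 : ℝ) = Real.exp (-Real.log 2) := by
          rw [Real.exp_neg, Real.exp_log two_pos, one_div]
        rw [this, ← Real.exp_nat_mul]; congr 1; ring
      rw [g1]
      refine Real.exp_le_exp.2 ?_
      have g2 := Real.log_two_gt_d9
      nlinarith
    have f3 : Real.exp 1 * (1 / 2) ^ J0 * Real.exp (6 * z) ≤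
        Real.exp z * (Real.exp 6 * Real.exp (-(11/2) * L)) := by
      calc Real.exp 1 * (1 / 2) ^ J0 * Real.exp (6 * z)
          ≤ Real.exp 1 * Real.exp (-13 * L) * Real.exp (6 * z) := by
            refine mul_le_mul_of_nonneg_right ?_ (Real.exp_pos _).le
            exact mul_le_mul_of_nonneg_left f2 (Real.exp_pos _).le
        _ = Real.exp (1 + -13 * L + 6 * z) := by rw [Real.exp_add, Real.exp_add]
        _ ≤ Real.exp (z + (6 + -(11/2) * L)) := by
            refine Real.exp_le_exp.2 ?_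
            rw [hz]; linarith
        _ = _ := by rw [Real.exp_add z, Real.exp_add 6]
    calc _ ≤ Real.exp z * (4 * (21 * L) ^ 4 * Real.exp (-2 * L)) +
        Real.exp z * (Real.exp 6 * Real.exp (-(11/2) * L)) :=
          add_le_add (mul_le_mul_of_nonneg_left f1 (Real.exp_pos _).le) f3
      _ = _ := by ring
  have hQ1 : (1 / (n : ℝ) * a + 1) ^ (n.choose 2) *
        ∑ j ∈ range (n / 2 + 1), ((n.choose 2).choose j : ℝ) * y ^ j * Dj n j ^ 2 ≤
      Real.exp (t / 2) * (Real.exp 1 * (4 * (21 * L) ^ 4 * Real.exp (-2 * L) +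
        Real.exp 6 * Real.exp (-(11/2) * L))) := by
    calc _ ≤ Real.exp (t / 4) * (Real.exp z * (4 * (21 * L) ^ 4 * Real.exp (-2 * L) +
        Real.exp 6 * Real.exp (-(11/2) * L))) :=
          mul_le_mul hP1 (hS.trans hS')
            (sum_nonneg (fun j _ => by positivity)) (Real.exp_pos _).le
      _ = (Real.exp (t / 4) * Real.exp z) * (4 * (21 * L) ^ 4 * Real.exp (-2 * L) +
        Real.exp 6 * Real.exp (-(11/2) * L)) := by ring
      _ = _ := by rw [hprod]; ring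
  -- Q2
  have hQ2 : (1 / (n : ℝ) * a + 1) ^ (n.choose 2) * ((n : ℝ) ^ 3 *
        (y ^ 2 * (y + 1) ^ (n.choose 2))) ≤
      Real.exp (t / 2) * (Real.exp 1 * ((4 * L) ^ 2 * Real.exp (-1 * L))) := by
    have f1 : (y + 1) ^ (n.choose 2) ≤ Real.exp z :=
      (one_add_pow_le hy0 _).trans (Real.exp_le_exp.2 hNy)
    have f2 : (n : ℝ) ^ 3 * y ^ 2 ≤ (4 * L) ^ 2 * Real.exp (-1 * L) := by
      have g1 : (n : ℝ) ^ 3 * y ^ 2 = (κ + (n : ℝ) * a) ^ 2 / n := by
        rw [hy]; field_simp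
      rw [g1, hna, hexpn1, mul_one_div]
      refine div_le_div_of_nonneg_right ?_ hn0.le
      refine pow_le_pow_left₀ (by positivity) ?_ 2
      linarith
    calc _ ≤ Real.exp (t / 4) * ((n : ℝ) ^ 3 * (y ^ 2 * Real.exp z)) := by
          refine mul_le_mul hP1 ?_ (by positivity) (Real.exp_pos _).le
          refine mul_le_mul_of_nonneg_left ?_ (by positivity)
          exact mul_le_mul_of_nonneg_left f1 (by positivity)
      _ = (Real.exp (t / 4) * Real.exp z) * ((n : ℝ) ^ 3 * y ^ 2) := by ring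
      _ ≤ (Real.exp (t / 4) * Real.exp z) * ((4 * L) ^ 2 * Real.exp (-1 * L)) :=
          mul_le_mul_of_nonneg_left f2 (by positivity)
      _ = _ := by rw [hprod]; ring
  -- Q3
  set lam := lam3 n κ (n / 50) with hlam
  have hlam0 : 0 ≤ lam := lam3_nonneg hκ0.le _
  have hlam1 : lam ≤ 10368 * Real.exp (-(41 / 50) * L) :=
    lam3_le (by have := T.n2; omega) hLdef ht0 ht6 T.q
  have hlam2 : lam ≤ 1 := hlam1.trans T.lam
  have hQ3 : 2 * (1 + a / 2 + a ^ 3) ^ (2 * n) *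
        Real.exp (9 * κ + lam) * (lam + 16 * (n : ℝ) ^ 2 * a ^ 4) ≤
      Real.exp (t / 2) * (2 * Real.exp 20 * (10368 * Real.exp (-(41 / 50) * L) +
        (6 * L) ^ 4 * Real.exp (-2 * L))) := by
    have f1 : (1 + a / 2 + a ^ 3) ^ (2 * n) ≤ Real.exp (t / 2 + 1) := by
      have : (1 + a / 2 + a ^ 3) = (a / 2 + a ^ 3) + 1 := by ring
      rw [this]
      refine (one_add_pow_le (by positivity) _).trans (Real.exp_le_exp.2 ?_)
      have g1 : ((2 * n : ℕ) : ℝ) * (a / 2 + a ^ 3) = (n : ℝ) * a + t ^ 3 / (4 * (n : ℝ) ^ 2) := by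
        push_cast
        rw [ha]; field_simp; ring
      rw [g1, hna]
      have g2 : t ^ 3 / (4 * (n : ℝ) ^ 2) ≤ 1 := by
        refine le_trans ?_ T.small3
        refine div_le_div_of_nonneg_right ?_ (by positivity)
        exact pow_le_pow_left₀ ht0 ht6 3
      linarith
    have f2 : Real.exp (9 * κ + lam) ≤ Real.exp 19 := Real.exp_le_exp.2 (by linarith)
    have f3 : 16 * (n : ℝ) ^ 2 * a ^ 4 ≤ (6 * L) ^ 4 * Real.exp (-2 * L) := by
      have g1 : 16 * (n : ℝ) ^ 2 * a ^ 4 = t ^ 4 / (n : ℝ) ^ 2 := by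
        rw [ha]; field_simp; ring
      rw [g1, hexpn, mul_one_div]
      refine div_le_div_of_nonneg_right ?_ (by positivity)
      exact pow_le_pow_left₀ ht0 ht6 4
    have hX0 : 0 ≤ (1 + a / 2 + a ^ 3) ^ (2 * n) := by positivity
    calc _ ≤ 2 * Real.exp (t / 2 + 1) * Real.exp 19 *
        (10368 * Real.exp (-(41 / 50) * L) + (6 * L) ^ 4 * Real.exp (-2 * L)) := by
          refine mul_le_mul ?_ (add_le_add hlam1 f3) (by positivity) (by positivity)
          refine mul_le_mul ?_ f2 (Real.exp_pos _).le (by positivity)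
          linarith
      _ = _ := by
          have : Real.exp (t / 2 + 1) * Real.exp 19 = Real.exp (t / 2) * Real.exp 20 := by
            rw [← Real.exp_add, ← Real.exp_add]; congr 1; ring
          calc _ = 2 * (Real.exp (t / 2 + 1) * Real.exp 19) *
            (10368 * Real.exp (-(41 / 50) * L) + (6 * L) ^ 4 * Real.exp (-2 * L)) := by ring
            _ = _ := by rw [this]; ring
  have hfin := T.hh
  rw [← hLdef] at hfin
  calc _ ≤ 3 * (Real.exp (t / 2) * (Real.exp 1 * (4 * (21 * L) ^ 4 * Real.exp (-2 * L) +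
        Real.exp 6 * Real.exp (-(11/2) * L))) +
        Real.exp (t / 2) * (Real.exp 1 * ((4 * L) ^ 2 * Real.exp (-1 * L))) +
        Real.exp (t / 2) * (2 * Real.exp 20 * (10368 * Real.exp (-(41 / 50) * L) +
        (6 * L) ^ 4 * Real.exp (-2 * L)))) := by
        refine mul_le_mul_of_nonneg_left ?_ (by norm_num)
        exact add_le_add (add_le_add hQ1 hQ2) hQ3
    _ = Real.exp (t / 2) * hh L := by unfold hh; ring
    _ ≤ _ := mul_le_mul_of_nonneg_left hfin (Real.exp_pos _).le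

/-- the second moment estimate -/
theorem second_final {n : ℕ} (T : Tech n) {t : ℝ} (ht0 : 0 ≤ t) (ht : t ≤ 5 * Real.log n + 2)
    {u : ℂ} (hu : ‖1 - u‖ ≤ t / n) :
    Ex (pairs (univ : Finset (Fin n))) (fun E => ‖Gs (n / 50) n u E - Fp n u E‖ ^ 2) ≤
      Real.exp (t / 2) * Real.exp (-(7/10) * Real.log n) := by
  have hn0 : (0 : ℝ) < n := by exact_mod_cast (by have := T.n2; omega : 0 < n)
  have ht6 : t ≤ 6 * Real.log n := by have := T.L2; linarith
  have ha4 : t / (2 * n) ≤ 1 / 4 := by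
    have h1 : t / n ≤ 1 / 2 :=
      le_trans (div_le_div_of_nonneg_right ht6 hn0.le) T.small
    have : t / (2 * n) = t / n / 2 := by field_simp
    rw [this]; linarith
  have ha0 : 0 ≤ t / (2 * (n : ℝ)) := by positivity
  refine le_trans (second_X (α := Fin n) (Fintype.card_fin n) (by have := T.n2; omega)
    (a := t / (2 * n)) (κ := Real.exp (t / n))
    (X := 1 + t / (2 * n) / 2 + (t / (2 * n)) ^ 3) ?_ (by linarith) ?_ ?_
    (renewal_cond ha0 ha4) (by have := T.n2; omega)) (num_bound T ht0 ht)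
  · have : t / (2 * (n : ℝ)) = t / n / 2 := by field_simp
    rw [this]; linarith
  · have h1 : ‖u‖ ≤ 1 + t / n := by
      calc ‖u‖ = ‖1 - (1 - u)‖ := by congr 1; ring
        _ ≤ ‖(1 : ℂ)‖ + ‖1 - u‖ := norm_sub_le _ _
        _ ≤ _ := by rw [norm_one]; linarith
    have h2 : 0 ≤ t / n := by positivity
    have h3 := Real.quadratic_le_exp_of_nonneg h2
    have h4 : ‖u‖ ^ 2 ≤ (1 + t / n) ^ 2 := pow_le_pow_left₀ (norm_nonneg _) h1 2
    nlinarith
  · have : 0 ≤ (t / (2 * (n : ℝ))) ^ 3 := by positivity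
    linarith

end RelRoots
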