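import Pool.Agent.Lib.MP_ccdac2_co.Assembly
import Pool.Agent.Lib.MP_ccdac2_co.Conn

/-!
The reliability polynomial of an edge set, its real zeros.
-/

set_option linter.unusedSectionVars false
set_option linter.unusedSimpArgs false

namespace RelRoots

open Finset Filter

open Classical in
/-- the reliability polynomial of the graph on `Fin n` with edge set `E` -/
noncomputable def relE (n : ℕ) (E : Finset (Sym2 (Fin n))) (q : ℝ) : ℝ :=
  ∑ A ∈ E.powerset.filter (Conn univ), (1 - q) ^ A.card * q ^ (E.card - A.card)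

/-- edge variables -/
noncomputable def xv {n : ℕ} (E : Finset (Sym2 (Fin n))) (q : ℝ) (e : Sym2 (Fin n)) : ℝ :=
  if e ∈ E then 1 / q - 1 else 0

theorem relE_eq_cs {n : ℕ} {E : Finset (Sym2 (Fin n))} (hE : E ⊆ pairs univ) {q : ℝ}
    (hq : q ≠ 0) : relE n E q = q ^ E.card * cs (xv E q) univ := by
  classical
  unfold relE cs
  rw [mul_sum]
  have hsub : E.powerset.filter (Conn univ) ⊆
      (pairs (univ : Finset (Fin n))).powerset.filter (Conn univ) := by
    intro A hA
    rw [mem_filter, mem_powerset] at hA ⊢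
    exact ⟨hA.1.trans hE, hA.2⟩
  symm
  rw [← sum_subset hsub]
  · refine sum_congr rfl (fun A hA => ?_)
    rw [mem_filter, mem_powerset] at hA
    have h1 : ∏ e ∈ A, xv E q e = (1 / q - 1) ^ A.card := by
      rw [← prod_const]
      refine prod_congr rfl (fun e he => ?_)
      unfold xv
      rw [if_pos (hA.1 he)]
    have h2 : E.card = A.card + (E.card - A.card) := by
      have := card_le_card hA.1; omega
    have h3 : q ^ E.card = q ^ A.card * q ^ (E.card - A.card) := by
      rw [← pow_add, ← h2]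
    rw [h1, h3]
    have h4 : (1 - q) ^ A.card = q ^ A.card * (1 / q - 1) ^ A.card := by
      rw [← mul_pow]; congr 1; field_simp
    rw [h4]; ring
  · intro A hA hA'
    rw [mem_filter, mem_powerset] at hA
    have h1 : ¬ A ⊆ E := by
      intro hc
      exact hA' (mem_filter.2 ⟨mem_powerset.2 hc, hA.2⟩)
    obtain ⟨e, he, heE⟩ := not_subset.1 h1
    have h2 : ∏ e ∈ A, xv E q e = 0 := by
      refine prod_eq_zero he ?_
      unfold xv
      rw [if_neg heE]
    rw [h2, mul_zero]

theorem sgn_aux {n k : ℕ} (hk : 1 ≤ k) (hkn : k ≤ n) :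
    ((mob k : ℤ) : ℝ) = (-1) ^ (n - 1) * ((-1) ^ (n - k) * ((k - 1).factorial : ℝ)) := by
  unfold mob
  push_cast
  rw [← mul_assoc, ← pow_add]
  congr 1
  have h1 : n - 1 + (n - k) = 2 * (n - k) + (k - 1) := by omega
  rw [h1, pow_add, pow_mul, neg_one_sq, one_pow, one_mul]

/-- relation with the alternating sum -/
theorem cs_eq_Hr {n : ℕ} (hn : 0 < n) {E : Finset (Sym2 (Fin n))} {u : ℝ} (hu : 0 < u) :
    cs (xv E (-1 / u)) univ = (-1) ^ (n - 1) * Hr n u E := by
  have hne : Nonempty (Fin n) := ⟨⟨0, hn⟩⟩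
  rw [cs_eq_sum_parts _ univ_nonempty]
  unfold Hr
  rw [mul_sum]
  refine sum_congr rfl (fun π hπ => ?_)
  have h1 : 1 ≤ π.card := card_pos univ_nonempty hπ
  have h2 : π.card ≤ n := by
    have := card_le hπ
    rwa [card_univ, Fintype.card_fin] at this
  have h3 : ∏ e ∈ intr π, (1 + xv E (-1 / u) e) = (-u) ^ (E ∩ intr π).card := by
    have h4 : ∀ e ∈ intr π, (1 + xv E (-1 / u) e) = if e ∈ E then -u else 1 := by
      intro e _
      unfold xv
      split_ifs
      · field_simp; ring
      · ring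
    rw [prod_congr rfl h4, prod_ite, prod_const_one, mul_one, prod_const]
    congr 2
    ext e; simp [and_comm]
  rw [h3, sgn_aux h1 h2]
  unfold trm
  ring

theorem conn_mono {n : ℕ} {A B : Finset (Sym2 (Fin n))} (h : A ⊆ B) {T : Finset (Fin n)}
    (hA : Conn T A) : Conn T B :=
  ⟨hA.1, fun u hu w hw => reach_mono h (hA.2 u hu w hw)⟩

theorem relE_of_not_conn {n : ℕ} {E : Finset (Sym2 (Fin n))} (h : ¬ Conn univ E) (q : ℝ) :
    relE n E q = 0 := by
  classical
  unfold relE
  rw [filter_false_of_mem, sum_empty]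
  intro A hA hc
  exact h (conn_mono (mem_powerset.1 hA) hc)

theorem relE_pos_of_mem {n : ℕ} {E : Finset (Sym2 (Fin n))} (h : Conn univ E) {q : ℝ}
    (h0 : 0 ≤ q) (h1 : q < 1) : 0 < relE n E q := by
  classical
  unfold relE
  refine sum_pos' (fun A _ => ?_) ⟨E, ?_, ?_⟩
  · exact mul_nonneg (pow_nonneg (by linarith) _) (pow_nonneg h0 _)
  · exact mem_filter.2 ⟨mem_powerset_self _, h⟩
  · rw [Nat.sub_self, pow_zero, mul_one]
    exact pow_pos (by linarith) _

/-- sign outside `[-1,1]` -/
theorem sign_out {n : ℕ} {E : Finset (Sym2 (Fin n))} (hE : E ⊆ pairs univ) (h : Conn univ E)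
    {q : ℝ} (hq : 1 < |q|) : 0 < (-1 : ℝ) ^ (n - 1) * cs (xv E q) univ := by
  classical
  have hq0 : q ≠ 0 := by
    rintro rfl; simp at hq; linarith
  have hy : |1 / q| < 1 := by
    rw [abs_div, abs_one, div_lt_one (by linarith)]; exact hq
  have hy0 : 1 / q - 1 ≠ 0 := by
    intro hc
    have : 1 / q = 1 := by linarith
    rw [this, abs_one] at hy
    exact lt_irrefl _ hy
  have hy' := abs_lt.1 hy
  have key := cs_sign_pos (xv E q) (fun e => by
    unfold xv
    split_ifs
    · constructor <;> linarith [hy'.1, hy'.2]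
    · norm_num) (S := univ) (by
      have : (pairs (univ : Finset (Fin n))).filter (fun e => xv E q e ≠ 0) = E := by
        ext e
        rw [mem_filter]
        unfold xv
        constructor
        · rintro ⟨_, h2⟩
          by_contra hc
          rw [if_neg hc] at h2
          exact h2 rfl
        · intro he
          rw [if_pos he]
          exact ⟨hE he, hy0⟩
      rwa [this])
  rwa [card_univ, Fintype.card_fin] at key

/-- graphs of odd corank have a real root different from 1 -/
theorem odd_root {n : ℕ} {E : Finset (Sym2 (Fin n))} (hE : E ⊆ pairs univ)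
    (hpar : ¬ Even (n - 1 + E.card)) : ∃ q : ℝ, q ≠ 1 ∧ relE n E q = 0 := by
  classical
  by_cases hc : Conn univ E
  · have h0 : 0 < relE n E 0 := relE_pos_of_mem hc le_rfl one_pos
    have h2 : relE n E (-2) < 0 := by
      have h3 := sign_out hE hc (q := -2) (by norm_num)
      rw [relE_eq_cs hE (by norm_num)]
      have h4 : (-2 : ℝ) ^ E.card = (-1) ^ E.card * 2 ^ E.card := by
        rw [← mul_pow]; norm_num
      rw [h4]
      have h5 : (-1 : ℝ) ^ (n - 1 + E.card) = -1 := (Nat.not_even_iff_odd.1 hpar).neg_one_pow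
      rw [pow_add] at h5
      have h6 : ((-1 : ℝ) ^ (n - 1)) * (-1) ^ (n - 1) = 1 := by
        rw [← mul_pow]; norm_num
      have h7 : (-1 : ℝ) ^ E.card = -(-1) ^ (n - 1) := by
        calc (-1 : ℝ) ^ E.card = ((-1 : ℝ) ^ (n - 1)) * (-1) ^ (n - 1) * (-1) ^ E.card := by
              rw [h6, one_mul]
          _ = (-1 : ℝ) ^ (n - 1) * ((-1) ^ (n - 1) * (-1) ^ E.card) := by ring
          _ = _ := by rw [h5]; ring
      rw [h7]
      have h8 : (0 : ℝ) < 2 ^ E.card := by positivity
      nlinarith [mul_pos h8 h3]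
    have hcont : Continuous (relE n E) := by
      unfold relE
      refine continuous_finsetSum _ (fun A _ => ?_)
      exact ((continuous_const.sub continuous_id).pow _).mul (continuous_id.pow _)
    have hiv := intermediate_value_Icc (a := (-2 : ℝ)) (b := 0) (by norm_num)
      (f := relE n E) hcont.continuousOn
    obtain ⟨q, hq, hq0⟩ := hiv (show (0 : ℝ) ∈ Set.Icc (relE n E (-2)) (relE n E 0) from
      ⟨h2.le, h0.le⟩)
    exact ⟨q, by linarith [hq.2], hq0⟩
  · exact ⟨0, by norm_num, relE_of_not_conn hc 0⟩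

/-- no root outside the bad events -/
theorem no_root {n : ℕ} (H : Tech2 n) {E : Finset (Sym2 (Fin n))} (hE : E ⊆ pairs univ)
    (hpar : Even (n - 1 + E.card)) (h1 : ¬ Bad1 n E) (h2 : ¬ Bad2 n E) (h3 : ¬ Bad3 n E)
    (h4 : ¬ Bad4 n E) (h5 : ¬ Bad5 n E) (h6 : ¬ Bad6 n E) {q : ℝ} (hq : q ≠ 1) :
    relE n E q ≠ 0 := by
  classical
  have hn2 := H.T.n2
  have hH : ∀ u : ℝ, 1 ≤ u → 0 < Hr n u E := fun u hu => H_pos H hE hpar h1 h2 h3 h4 h5 h6 hu
  have hcsne : ∀ u : ℝ, 1 ≤ u → cs (xv E (-1 / u)) univ ≠ 0 := by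
    intro u hu
    rw [cs_eq_Hr (by omega) (by linarith)]
    exact mul_ne_zero (pow_ne_zero _ (by norm_num)) (hH u hu).ne'
  have hconn : Conn univ E := by
    by_contra hc
    have h7 := relE_of_not_conn hc (-1 / 1)
    rw [relE_eq_cs hE (by norm_num)] at h7
    rcases mul_eq_zero.1 h7 with h8 | h8
    · exact absurd h8 (pow_ne_zero _ (by norm_num))
    · exact hcsne 1 le_rfl h8
  rcases le_or_gt 0 q with h0 | h0
  · rcases lt_or_gt_of_ne hq with hlt | hgt
    · exact (relE_pos_of_mem hconn h0 hlt).ne'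
    · have h7 := sign_out hE hconn (q := q) (by rw [abs_of_nonneg h0]; exact hgt)
      rw [relE_eq_cs hE (by linarith)]
      refine mul_ne_zero (pow_ne_zero _ (by linarith)) ?_
      intro hc
      rw [hc, mul_zero] at h7
      exact lt_irrefl _ h7
  · rcases le_or_gt (-1) q with h9 | h9
    · have hu : 1 ≤ -1 / q := by
        rw [neg_div, ← div_neg, le_div_iff₀ (by linarith)]; linarith
      have hqu : -1 / (-1 / q) = q := by
        field_simp
      have h10 := hcsne _ hu
      rw [hqu] at h10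
      rw [relE_eq_cs hE h0.ne]
      exact mul_ne_zero (pow_ne_zero _ h0.ne) h10
    · have h7 := sign_out hE hconn (q := q) (by rw [abs_of_neg h0]; linarith)
      rw [relE_eq_cs hE h0.ne]
      refine mul_ne_zero (pow_ne_zero _ h0.ne) ?_
      intro hc
      rw [hc, mul_zero] at h7
      exact lt_irrefl _ h7

end RelRoots
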