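import Pool.Agent.Lib.MP_ccdac2_co.Count3
import Pool.Agent.Lib.MP_ccdac2_co.Moments

/-!
The contribution of the partitions with a block of size at least three (all blocks at most `bm`).
-/

set_option linter.unusedSectionVars false
set_option linter.unusedSimpArgs false

namespace RelRoots

open Finset

theorem desc_bound : ∀ j N : ℕ, j ≤ N →
    (N : ℝ) ^ j * ((N - j).factorial : ℝ) ≤ 3 ^ j * (N.factorial : ℝ) := by
  intro j
  induction j with
  | zero => intro N _; simp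
  | succ j ih =>
    intro N hN
    obtain ⟨M, rfl⟩ : ∃ M, N = M + 1 := ⟨N - 1, by omega⟩
    have h1 := ih M (by omega)
    have h2 : ((M + 1 : ℕ) : ℝ) ^ j ≤ 3 * (M : ℝ) ^ j := by
      rcases Nat.eq_zero_or_pos M with h0 | hM
      · have : j = 0 := by omega
        subst this; norm_num
      · have hM' : (0 : ℝ) < M := by exact_mod_cast hM
        have e1 : ((M + 1 : ℕ) : ℝ) = (1 + 1 / (M : ℝ)) * M := by
          push_cast; field_simp
        rw [e1, mul_pow]
        refine mul_le_mul_of_nonneg_right ?_ (by positivity)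
        calc (1 + 1 / (M : ℝ)) ^ j ≤ (1 + 1 / (M : ℝ)) ^ M :=
              pow_le_pow_right₀ (by
                have : (0:ℝ) ≤ 1 / M := by positivity
                linarith) (by omega)
          _ ≤ (Real.exp (1 / (M : ℝ))) ^ M := by
              refine pow_le_pow_left₀ (by positivity) ?_ _
              have := Real.add_one_le_exp (1 / (M : ℝ))
              linarith
          _ = Real.exp 1 := by
              rw [← Real.exp_nat_mul]; congr 1; field_simp
          _ ≤ 3 := by have := Real.exp_one_lt_d9; linarith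
    have e2 : M + 1 - (j + 1) = M - j := by omega
    rw [e2, pow_succ, Nat.factorial_succ]
    have hf : (0 : ℝ) ≤ ((M - j).factorial : ℝ) := by positivity
    have hM1 : (0 : ℝ) ≤ ((M + 1 : ℕ) : ℝ) := by positivity
    calc ((M + 1 : ℕ) : ℝ) ^ j * ((M + 1 : ℕ) : ℝ) * ((M - j).factorial : ℝ)
        ≤ (3 * (M : ℝ) ^ j) * ((M + 1 : ℕ) : ℝ) * ((M - j).factorial : ℝ) := by gcongr
      _ = 3 * ((M + 1 : ℕ) : ℝ) * ((M : ℝ) ^ j * ((M - j).factorial : ℝ)) := by ring
      _ ≤ 3 * ((M + 1 : ℕ) : ℝ) * (3 ^ j * (M.factorial : ℝ)) := by gcongr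
      _ = _ := by push_cast; ring

variable {α : Type*} [DecidableEq α] [Fintype α]

/-- normalised coefficient -/
noncomputable def cf (n k : ℕ) : ℝ := ((k - 1).factorial : ℝ) / ((n - 1).factorial : ℝ)

theorem cf_nonneg (n k : ℕ) : 0 ≤ cf n k := by unfold cf; positivity

theorem cf_sq_le {n k : ℕ} (hk : 1 ≤ k) (hkn : k ≤ n) (hn : 2 ≤ n) :
    cf n k ^ 2 ≤ (9 / ((n : ℝ) - 1) ^ 2) ^ (n - k) := by
  have h1 := desc_bound (n - k) (n - 1) (by omega)
  have e1 : n - 1 - (n - k) = k - 1 := by omega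
  rw [e1] at h1
  have hn1 : (0 : ℝ) < (n : ℝ) - 1 := by
    have : (2 : ℝ) ≤ n := by exact_mod_cast hn
    linarith
  have e2 : ((n - 1 : ℕ) : ℝ) = (n : ℝ) - 1 := by
    rw [Nat.cast_sub (by omega)]; simp
  rw [e2] at h1
  have h2 : cf n k ≤ (3 / ((n : ℝ) - 1)) ^ (n - k) := by
    unfold cf
    rw [div_pow, div_le_div_iff₀ (by positivity) (by positivity)]
    linarith
  calc cf n k ^ 2 ≤ ((3 / ((n : ℝ) - 1)) ^ (n - k)) ^ 2 :=
        pow_le_pow_left₀ (cf_nonneg _ _) h2 2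
    _ = _ := by
      rw [← pow_mul, mul_comm, pow_mul]
      congr 1
      rw [div_pow]; norm_num

/-- block weight -/
noncomputable def gw (n : ℕ) (κ : ℝ) (B : Finset α) : ℝ :=
  κ ^ (B.card.choose 2) * (9 / ((n : ℝ) - 1) ^ 2) ^ (B.card - 1) * (if 3 ≤ B.card then 4 else 1)

theorem gw_nonneg {n : ℕ} {κ : ℝ} (hκ : 0 ≤ κ) (B : Finset α) : 0 ≤ gw n κ B := by
  unfold gw
  split_ifs <;> positivity

/-- the numeric sum over blocks of size at least 3 -/
noncomputable def lam3 (n : ℕ) (κ : ℝ) (bm : ℕ) : ℝ :=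
  ∑ b ∈ (range (n + 1)).filter (fun b => 3 ≤ b ∧ b ≤ bm),
    (n.choose b : ℝ) * (κ ^ (b.choose 2) * (9 / ((n : ℝ) - 1) ^ 2) ^ (b - 1) * 4)

theorem lam3_nonneg {n : ℕ} {κ : ℝ} (hκ : 0 ≤ κ) (bm : ℕ) : 0 ≤ lam3 n κ bm := by
  unfold lam3
  exact sum_nonneg (fun b _ => by positivity)

theorem sum_gw3 {n : ℕ} (hn : Fintype.card α = n) (κ : ℝ) (bm : ℕ) :
    ∑ B ∈ (univ : Finset α).powerset.filter (fun B => 3 ≤ B.card ∧ B.card ≤ bm), gw n κ B =
      lam3 n κ bm := by
  rw [sum_filter]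
  have h1 : ∀ B ∈ (univ : Finset α).powerset,
      (if 3 ≤ B.card ∧ B.card ≤ bm then gw n κ B else 0) =
      (fun b : ℕ => if 3 ≤ b ∧ b ≤ bm then
        κ ^ (b.choose 2) * (9 / ((n : ℝ) - 1) ^ 2) ^ (b - 1) * 4 else 0) B.card := by
    intro B _
    dsimp only
    unfold gw
    split_ifs with h h'
    · rfl
    · exact absurd h.1 h'
    · rfl
  rw [sum_congr rfl h1, Finset.sum_powerset_apply_card (fun b : ℕ => if 3 ≤ b ∧ b ≤ bm then
        κ ^ (b.choose 2) * (9 / ((n : ℝ) - 1) ^ 2) ^ (b - 1) * 4 else 0), card_univ, hn]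
  unfold lam3
  rw [sum_filter]
  refine sum_congr rfl (fun b _ => ?_)
  rw [nsmul_eq_mul, mul_ite, mul_zero]

theorem sum_gw2 {n : ℕ} (hn : Fintype.card α = n) (hn2 : 2 ≤ n) {κ : ℝ} (hκ : 0 ≤ κ) (bm : ℕ) :
    ∑ B ∈ (univ : Finset α).powerset.filter (fun B => 2 ≤ B.card ∧ B.card ≤ bm), gw n κ B ≤
      9 * κ + lam3 n κ bm := by
  rw [← sum_gw3 hn κ bm]
  have h1 : ∑ B ∈ (univ : Finset α).powerset.filter (fun B => 2 ≤ B.card ∧ B.card ≤ bm),
      gw n κ B ≤
      ∑ B ∈ (univ : Finset α).powerset.filter (fun B => B.card = 2), gw n κ B +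
      ∑ B ∈ (univ : Finset α).powerset.filter (fun B => 3 ≤ B.card ∧ B.card ≤ bm), gw n κ B := by
    rw [sum_filter, sum_filter, sum_filter, ← sum_add_distrib]
    refine sum_le_sum (fun B _ => ?_)
    have := gw_nonneg (n := n) hκ B
    by_cases h2 : B.card = 2
    · rw [if_pos h2, if_neg (c := 3 ≤ B.card ∧ B.card ≤ bm) (by omega), add_zero]
      split_ifs <;> linarith
    · rw [if_neg (c := B.card = 2) h2, zero_add]
      by_cases h3 : 3 ≤ B.card ∧ B.card ≤ bm
      · rw [if_pos h3]; split_ifs <;> linarith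
      · rw [if_neg h3, if_neg (by omega)]
  refine h1.trans (add_le_add ?_ le_rfl)
  have h2 : (univ : Finset α).powerset.filter (fun B => B.card = 2) =
      (univ : Finset α).powersetCard 2 := by
    ext B
    rw [mem_filter, mem_powersetCard, mem_powerset]
  have hn1 : (1 : ℝ) ≤ (n : ℝ) - 1 := by
    have : (2 : ℝ) ≤ n := by exact_mod_cast hn2
    linarith
  have h3 : ∀ B ∈ (univ : Finset α).powersetCard 2, gw n κ B = κ * (9 / ((n : ℝ) - 1) ^ 2) := by
    intro B hB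
    rw [mem_powersetCard] at hB
    unfold gw
    rw [hB.2]
    norm_num
  rw [h2, sum_congr rfl h3, sum_const, card_powersetCard, card_univ, hn, nsmul_eq_mul]
  have h4 : (n.choose 2 : ℝ) ≤ ((n : ℝ) - 1) ^ 2 := by
    have h5 : (n.choose 2 : ℝ) = n * (n - 1) / 2 := by
      rw [Nat.cast_choose_two]
    rw [h5]; nlinarith
  have hpos : (0 : ℝ) < ((n : ℝ) - 1) ^ 2 := by positivity
  calc (n.choose 2 : ℝ) * (κ * (9 / ((n : ℝ) - 1) ^ 2))
      ≤ ((n : ℝ) - 1) ^ 2 * (κ * (9 / ((n : ℝ) - 1) ^ 2)) :=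
        mul_le_mul_of_nonneg_right h4 (by positivity)
    _ = 9 * κ := by field_simp

/-- the weight of a partition is bounded by the product of the block weights -/
theorem weight_le {n : ℕ} (hn : Fintype.card α = n) (hn2 : 2 ≤ n) {κ : ℝ} (hκ : 0 ≤ κ)
    {ρ : Finset (Finset α)} (hρ : ρ ∈ parts (univ : Finset α)) :
    κ ^ (intr ρ).card * cf n ρ.card ^ 2 * 4 ^ (ρ.filter (fun P => 3 ≤ P.card)).card ≤
      ∏ B ∈ ρ.filter (fun B => 2 ≤ B.card), gw n κ B := by
  classical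
  have hne : (univ : Finset α).Nonempty := by
    rw [← Finset.card_pos, card_univ, hn]; omega
  have hk1 : 1 ≤ ρ.card := card_pos hne hρ
  have hkn : ρ.card ≤ n := by rw [← hn, ← card_univ]; exact card_le hρ
  have hc := cf_sq_le hk1 hkn hn2
  -- rewrite the product
  have h1 : ∏ B ∈ ρ.filter (fun B => 2 ≤ B.card), gw n κ B =
      κ ^ (intr ρ).card * (9 / ((n : ℝ) - 1) ^ 2) ^ (n - ρ.card) *
        4 ^ (ρ.filter (fun P => 3 ≤ P.card)).card := by
    have e0 : ∏ B ∈ ρ.filter (fun B => 2 ≤ B.card), gw n κ B = ∏ B ∈ ρ, gw n κ B := by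
      rw [prod_filter]
      refine prod_congr rfl (fun B hB => ?_)
      split_ifs with h
      · rfl
      · have := (ne_empty_of_mem hρ hB).card_pos
        have hB1 : B.card = 1 := by omega
        unfold gw
        rw [hB1]; norm_num
    rw [e0]
    unfold gw
    rw [prod_mul_distrib, prod_mul_distrib, prod_pow_eq_pow_sum, prod_pow_eq_pow_sum,
      card_intr hρ]
    have e1 : ∑ B ∈ ρ, (B.card - 1) = n - ρ.card := by
      have h2 := sum_card hρ
      rw [card_univ, hn] at h2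
      have h3 : ∑ B ∈ ρ, (B.card - 1) + ∑ B ∈ ρ, 1 = ∑ B ∈ ρ, B.card := by
        rw [← sum_add_distrib]
        refine sum_congr rfl (fun B hB => ?_)
        have := (ne_empty_of_mem hρ hB).card_pos
        omega
      rw [sum_const, smul_eq_mul, mul_one] at h3
      omega
    rw [e1]
    congr 1
    rw [← prod_filter, prod_const]
  rw [h1]
  have h4 : (0 : ℝ) ≤ κ ^ (intr ρ).card := by positivity
  have h5 : (0 : ℝ) ≤ 4 ^ (ρ.filter (fun P => 3 ≤ P.card)).card := by positivity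
  exact mul_le_mul_of_nonneg_right (mul_le_mul_of_nonneg_left hc h4) h5

theorem sq_le_four_pow (m : ℕ) : (m : ℝ) ^ 2 ≤ 4 ^ m := by
  have h1 : m ≤ 2 ^ m := Nat.lt_two_pow_self.le
  have h2 : (m : ℝ) ≤ 2 ^ m := by exact_mod_cast h1
  calc (m : ℝ) ^ 2 ≤ (2 ^ m) ^ 2 := pow_le_pow_left₀ (Nat.cast_nonneg _) h2 2
    _ = 4 ^ m := by rw [← pow_mul, mul_comm, pow_mul]; norm_num

theorem Q3_le {n : ℕ} (hn : Fintype.card α = n) (hn2 : 2 ≤ n) {a κ X : ℝ} (ha : 0 ≤ a)
    (ha1 : a ≤ 1) (hκ : 0 ≤ κ) (hX : 1 ≤ X)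
    (h : ∀ k, ∑ b ∈ Icc 1 k, a ^ (b.choose 2) / ((b.factorial : ℝ) * X ^ b) ≤ 1) (bm : ℕ) :
    ∑ π ∈ sparts3 (univ : Finset α) bm, ∑ σ ∈ sparts3 (univ : Finset α) bm, cf n π.card * cf n σ.card *
        (κ ^ (intr π ∩ intr σ).card * a ^ ((intr π \ intr σ).card + (intr σ \ intr π).card)) ≤
      2 * X ^ (2 * n) * Real.exp (9 * κ + lam3 n κ bm) *
        (lam3 n κ bm + 16 * (n : ℝ) ^ 2 * a ^ 4) := by
  have hne : (univ : Finset α).Nonempty := by
    rw [← Finset.card_pos, card_univ, hn]; omega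
  have h1 := meet_sum (S := (univ : Finset α)) (sparts3 (univ : Finset α) bm)
    (fun π hπ => (mem_sparts3.1 hπ).1.1)
    (fun π => cf n π.card) (fun π => cf_nonneg _ _) ha hκ bm
    (fun π hπ => (mem_sparts3.1 hπ).1.2)
  refine h1.trans ?_
  set R := sparts (univ : Finset α) bm with hR
  -- bound the inner sum
  have h2 : ∀ ρ ∈ R, (∑ π ∈ (sparts3 (univ : Finset α) bm).filter (Fine ρ), cf n π.card *
        a ^ ((intr π).card - (intr ρ).card)) ≤
      cf n ρ.card * X ^ n * (((ρ.filter (fun P => 3 ≤ P.card)).card : ℝ) + 4 * n * a ^ 2) := by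
    intro ρ hρ
    rw [hR, mem_sparts] at hρ
    have hρn : ρ.Nonempty := Finset.card_pos.1 (card_pos hne hρ.1)
    have hkn : ρ.card ≤ n := by rw [← hn, ← card_univ]; exact card_le hρ.1
    have hbU : ρ.biUnion id = univ := (mem_parts.1 hρ.1).2.2
    have e1 : ∑ π ∈ (sparts3 (univ : Finset α) bm).filter (Fine ρ), cf n π.card *
        a ^ ((intr π).card - (intr ρ).card) ≤
        ∑ π ∈ (coarse ρ).filter (fun σ => ∃ C ∈ σ, 3 ≤ C.card), cf n π.card *
        a ^ ((intr π).card - (intr ρ).card) := by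
      refine sum_le_sum_of_subset_of_nonneg ?_
        (fun π _ _ => mul_nonneg (cf_nonneg _ _) (by positivity))
      intro π hπ
      rw [mem_filter, mem_sparts3] at hπ
      rw [mem_filter, mem_coarse, hbU]
      exact ⟨⟨hπ.1.1.1, hπ.2⟩, hπ.1.2⟩
    refine e1.trans ?_
    have e2 := big_coarse_le ha ha1 hX h hρ.1 hρn
    have hfpos : (0 : ℝ) < ((n - 1).factorial : ℝ) := by positivity
    have e3 : ∑ π ∈ (coarse ρ).filter (fun σ => ∃ C ∈ σ, 3 ≤ C.card), cf n π.card *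
        a ^ ((intr π).card - (intr ρ).card) =
        (∑ π ∈ (coarse ρ).filter (fun σ => ∃ C ∈ σ, 3 ≤ C.card),
          ((π.card - 1).factorial : ℝ) * a ^ ((intr π).card - (intr ρ).card)) /
          ((n - 1).factorial : ℝ) := by
      rw [sum_div]
      refine sum_congr rfl (fun π _ => ?_)
      unfold cf; ring
    rw [e3, div_le_iff₀ hfpos]
    refine e2.trans ?_
    have e4 : cf n ρ.card * ((n - 1).factorial : ℝ) = ((ρ.card - 1).factorial : ℝ) := by
      unfold cf; field_simp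
    have e5 : X ^ ρ.card ≤ X ^ n := pow_le_pow_right₀ hX hkn
    have e6 : ((ρ.filter (fun P => 2 ≤ P.card)).card : ℝ) ≤ n := by
      exact_mod_cast (card_filter_le _ _).trans hkn
    have e7 : (ρ.card : ℝ) ≤ n := by exact_mod_cast hkn
    have e8 : a ^ 3 ≤ a ^ 2 := pow_le_pow_of_le_one ha ha1 (by norm_num)
    have e9 : ((ρ.filter (fun P => 2 ≤ P.card)).card : ℝ) * a ^ 2 + 3 * ρ.card * a ^ 3 ≤
        4 * n * a ^ 2 := by
      have f1 : ((ρ.filter (fun P => 2 ≤ P.card)).card : ℝ) * a ^ 2 ≤ n * a ^ 2 :=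
        mul_le_mul_of_nonneg_right e6 (by positivity)
      have f2 : 3 * (ρ.card : ℝ) * a ^ 3 ≤ 3 * n * a ^ 2 := by
        have : (ρ.card : ℝ) * a ^ 3 ≤ n * a ^ 2 :=
          mul_le_mul e7 e8 (by positivity) (by positivity)
        linarith
      linarith
    calc ((ρ.card - 1).factorial : ℝ) * X ^ ρ.card *
        (((ρ.filter (fun P => 3 ≤ P.card)).card : ℝ) +
          ((ρ.filter (fun P => 2 ≤ P.card)).card : ℝ) * a ^ 2 + 3 * ρ.card * a ^ 3)
        ≤ ((ρ.card - 1).factorial : ℝ) * X ^ n *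
        (((ρ.filter (fun P => 3 ≤ P.card)).card : ℝ) + 4 * n * a ^ 2) := by
          refine mul_le_mul (mul_le_mul_of_nonneg_left e5 (by positivity)) (by linarith)
            (by positivity) (by positivity)
      _ = _ := by rw [← e4]; ring
  have h3 : ∀ ρ ∈ R, κ ^ (intr ρ).card *
        (∑ π ∈ (sparts3 (univ : Finset α) bm).filter (Fine ρ), cf n π.card *
        a ^ ((intr π).card - (intr ρ).card)) ^ 2 ≤
      2 * X ^ (2 * n) * ((κ ^ (intr ρ).card * cf n ρ.card ^ 2) *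
        ((ρ.filter (fun P => 3 ≤ P.card)).card : ℝ) ^ 2) +
      2 * X ^ (2 * n) * (16 * (n : ℝ) ^ 2 * a ^ 4) * (κ ^ (intr ρ).card * cf n ρ.card ^ 2) := by
    intro ρ hρ
    have e1 : (∑ π ∈ (sparts3 (univ : Finset α) bm).filter (Fine ρ), cf n π.card *
        a ^ ((intr π).card - (intr ρ).card)) ^ 2 ≤
        (cf n ρ.card * X ^ n *
          (((ρ.filter (fun P => 3 ≤ P.card)).card : ℝ) + 4 * n * a ^ 2)) ^ 2 := by
      refine pow_le_pow_left₀ ?_ (h2 ρ hρ) 2
      exact sum_nonneg (fun π _ => mul_nonneg (cf_nonneg _ _) (by positivity))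
    have e2 : (((ρ.filter (fun P => 3 ≤ P.card)).card : ℝ) + 4 * n * a ^ 2) ^ 2 ≤
        2 * ((ρ.filter (fun P => 3 ≤ P.card)).card : ℝ) ^ 2 + 2 * (16 * (n : ℝ) ^ 2 * a ^ 4) := by
      nlinarith [sq_nonneg (((ρ.filter (fun P => 3 ≤ P.card)).card : ℝ) - 4 * n * a ^ 2)]
    have e3 : (0:ℝ) ≤ κ ^ (intr ρ).card := by positivity
    have e4 : (0:ℝ) ≤ κ ^ (intr ρ).card * cf n ρ.card ^ 2 * X ^ (2 * n) := by positivity
    calc κ ^ (intr ρ).card * (∑ π ∈ (sparts3 (univ : Finset α) bm).filter (Fine ρ), cf n π.card *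
        a ^ ((intr π).card - (intr ρ).card)) ^ 2 ≤ κ ^ (intr ρ).card * (cf n ρ.card * X ^ n *
          (((ρ.filter (fun P => 3 ≤ P.card)).card : ℝ) + 4 * n * a ^ 2)) ^ 2 :=
          mul_le_mul_of_nonneg_left e1 e3
      _ = (κ ^ (intr ρ).card * cf n ρ.card ^ 2 * X ^ (2 * n)) *
          (((ρ.filter (fun P => 3 ≤ P.card)).card : ℝ) + 4 * n * a ^ 2) ^ 2 := by ring
      _ ≤ (κ ^ (intr ρ).card * cf n ρ.card ^ 2 * X ^ (2 * n)) *
          (2 * ((ρ.filter (fun P => 3 ≤ P.card)).card : ℝ) ^ 2 +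
            2 * (16 * (n : ℝ) ^ 2 * a ^ 4)) := mul_le_mul_of_nonneg_left e2 e4
      _ = _ := by ring
  refine (sum_le_sum h3).trans ?_
  rw [sum_add_distrib, ← mul_sum, ← mul_sum]
  -- sum of weights
  have hg : ∀ B : Finset α, 0 ≤ gw n κ B := fun B => gw_nonneg hκ B
  have s1 : ∑ ρ ∈ R, κ ^ (intr ρ).card * cf n ρ.card ^ 2 ≤
      Real.exp (9 * κ + lam3 n κ bm) := by
    calc ∑ ρ ∈ R, κ ^ (intr ρ).card * cf n ρ.card ^ 2
        ≤ ∑ ρ ∈ R, ∏ B ∈ ρ.filter (fun B => 2 ≤ B.card), gw n κ B := by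
          refine sum_le_sum (fun ρ hρ => ?_)
          refine le_trans ?_ (weight_le hn hn2 hκ (mem_sparts.1 hρ).1)
          have e1 : (1:ℝ) ≤ 4 ^ (ρ.filter (fun P => 3 ≤ P.card)).card :=
            one_le_pow₀ (by norm_num)
          have e2 : 0 ≤ κ ^ (intr ρ).card * cf n ρ.card ^ 2 := by positivity
          nlinarith
      _ ≤ _ := (nonsing_sum (gw n κ) hg bm).trans
          (Real.exp_le_exp.2 (sum_gw2 hn hn2 hκ bm))
  have s2 : ∑ ρ ∈ R, (κ ^ (intr ρ).card * cf n ρ.card ^ 2) *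
        ((ρ.filter (fun P => 3 ≤ P.card)).card : ℝ) ^ 2 ≤
      lam3 n κ bm * Real.exp (9 * κ + lam3 n κ bm) := by
    calc ∑ ρ ∈ R, (κ ^ (intr ρ).card * cf n ρ.card ^ 2) *
        ((ρ.filter (fun P => 3 ≤ P.card)).card : ℝ) ^ 2
        ≤ ∑ ρ ∈ sparts3 (univ : Finset α) bm,
            ∏ B ∈ ρ.filter (fun B => 2 ≤ B.card), gw n κ B := by
          unfold sparts3
          rw [hR, sum_filter]
          refine sum_le_sum (fun ρ hρ => ?_)
          rw [mem_sparts] at hρ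
          split_ifs with h3
          · refine le_trans ?_ (weight_le hn hn2 hκ hρ.1)
            exact mul_le_mul_of_nonneg_left (sq_le_four_pow _) (by positivity)
          · have : ρ.filter (fun P => 3 ≤ P.card) = ∅ := by
              rw [filter_eq_empty_iff]
              intro B hB hB3
              exact h3 ⟨B, hB, hB3⟩
            rw [this]; simp
      _ ≤ _ := by
          refine (nonsing_sum3 (gw n κ) hg bm).trans ?_
          rw [sum_gw3 hn]
          exact mul_le_mul_of_nonneg_left (Real.exp_le_exp.2 (sum_gw2 hn hn2 hκ bm))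
            (lam3_nonneg hκ bm)
  have hX2 : (0:ℝ) ≤ 2 * X ^ (2 * n) := by positivity
  calc _ ≤ 2 * X ^ (2 * n) * (lam3 n κ bm * Real.exp (9 * κ + lam3 n κ bm)) +
      2 * X ^ (2 * n) * (16 * (n : ℝ) ^ 2 * a ^ 4) * Real.exp (9 * κ + lam3 n κ bm) :=
        add_le_add (mul_le_mul_of_nonneg_left s2 hX2)
          (mul_le_mul_of_nonneg_left s1 (by positivity))
    _ = _ := by ring

end RelRoots
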