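import Pool.Agent.Lib.MP_ccdac2_co.Match

/-!
Second moment of the difference between the sum over partitions with small blocks and the product.
-/

set_option linter.unusedSectionVars false
set_option linter.unusedSimpArgs false

namespace RelRoots

open Finset

variable {α : Type*} [DecidableEq α] [Fintype α]

/-- sum over partitions with blocks at most `bm` -/
noncomputable def Gs (bm n : ℕ) (u : ℂ) (E : Finset (Sym2 α)) : ℂ :=
  ∑ π ∈ sparts (univ : Finset α) bm,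
    ((((-1 : ℝ) ^ (n - π.card) * cf n π.card : ℝ)) : ℂ) * ∏ e ∈ intr π, wt u E e

/-- comparison product -/
noncomputable def Fp (n : ℕ) (u : ℂ) (E : Finset (Sym2 α)) : ℂ :=
  ∏ e ∈ pairs (univ : Finset α), (1 + ((-1 / (n : ℝ) : ℝ) : ℂ) * wt u E e)

theorem Fp_eq (n : ℕ) (u : ℂ) (E : Finset (Sym2 α)) :
    Fp n u E = ∑ J ∈ (pairs (univ : Finset α)).powerset,
      (((-1 / (n : ℝ)) ^ J.card : ℝ) : ℂ) * ∏ e ∈ J, wt u E e := by
  unfold Fp
  rw [prod_one_add]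
  refine sum_congr rfl (fun J _ => ?_)
  rw [prod_mul_distrib, prod_const]
  push_cast
  rfl

theorem cf_desc (n j : ℕ) (hj : j + 1 ≤ n) (hj2 : 2 ≤ n - j) :
    cf n (n - (j + 1)) = cf n (n - j) / ((n : ℝ) - (j + 1)) := by
  unfold cf
  have h1 : n - j - 1 = (n - (j + 1) - 1) + 1 := by omega
  have h2 : (n - (j + 1) - 1 + 1 : ℕ) = n - (j + 1) := by omega
  rw [h1, Nat.factorial_succ, h2]
  have h3 : (0 : ℝ) < (n : ℝ) - (j + 1) := by
    have : ((j + 2 : ℕ) : ℝ) ≤ n := by exact_mod_cast (by omega : j + 2 ≤ n)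
    push_cast at this; linarith
  have h4 : ((n - (j + 1) : ℕ) : ℝ) = (n : ℝ) - (j + 1) := by
    rw [Nat.cast_sub hj]; push_cast; ring
  push_cast
  rw [h4]
  have h5 : ((n - 1).factorial : ℝ) ≠ 0 := by positivity
  field_simp

/-- relative error of the coefficients -/
noncomputable def Dj (n j : ℕ) : ℝ := (n : ℝ) ^ j * cf n (n - j) - 1

theorem cf_n (n : ℕ) : cf n n = 1 := by
  unfold cf
  have : ((n - 1).factorial : ℝ) ≠ 0 := by positivity
  field_simp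

theorem Dj_bounds (n : ℕ) : ∀ j : ℕ, 2 * j ≤ n →
    1 ≤ (n : ℝ) ^ j * cf n (n - j) ∧ (n : ℝ) ^ j * cf n (n - j) ≤
      Real.exp ((j : ℝ) * (j + 1) / n) := by
  intro j
  induction j with
  | zero => intro _; simp [cf_n]
  | succ j ih =>
    intro hj
    obtain ⟨h1, h2⟩ := ih (by omega)
    have hn0 : (0 : ℝ) < n := by exact_mod_cast (by omega : 0 < n)
    have hjn : (2 * ((j : ℝ) + 1)) ≤ n := by exact_mod_cast hj
    have h3 : (0 : ℝ) < (n : ℝ) - (j + 1) := by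
      have : (0:ℝ) ≤ j := Nat.cast_nonneg j
      linarith
    rcases Nat.lt_or_ge (n - j) 2 with hlt | hge
    · have hn1 : n - j = 1 := by omega
      have : j = 0 := by omega
      subst this
      omega
    rw [cf_desc n j (by omega) hge]
    have e1 : (n : ℝ) ^ (j + 1) * (cf n (n - j) / ((n : ℝ) - (j + 1))) =
        ((n : ℝ) ^ j * cf n (n - j)) * ((n : ℝ) / ((n : ℝ) - (j + 1))) := by
      rw [pow_succ]; field_simp
    rw [e1]
    have h4 : (1 : ℝ) ≤ (n : ℝ) / ((n : ℝ) - (j + 1)) := by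
      rw [le_div_iff₀ h3]
      have : (0:ℝ) ≤ j := Nat.cast_nonneg j
      linarith
    have h5 : (n : ℝ) / ((n : ℝ) - (j + 1)) ≤ Real.exp (2 * (j + 1) / n) := by
      refine le_trans ?_ (Real.add_one_le_exp _)
      rw [div_le_iff₀ h3]
      have : 2 * ((j : ℝ) + 1) / n + 1 = (2 * (j + 1) + n) / n := by field_simp
      rw [this, div_mul_eq_mul_div, le_div_iff₀ hn0]
      have hj0 : (0:ℝ) ≤ j := Nat.cast_nonneg j
      nlinarith
    constructor
    · nlinarith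
    · calc ((n : ℝ) ^ j * cf n (n - j)) * ((n : ℝ) / ((n : ℝ) - (j + 1)))
          ≤ Real.exp ((j : ℝ) * (j + 1) / n) * Real.exp (2 * (j + 1) / n) :=
            mul_le_mul h2 h5 (by positivity) (Real.exp_pos _).le
        _ = _ := by
            rw [← Real.exp_add]
            congr 1
            push_cast
            field_simp
            ring

theorem Dj_nonneg {n j : ℕ} (hj : 2 * j ≤ n) : 0 ≤ Dj n j := by
  unfold Dj; linarith [(Dj_bounds n j hj).1]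

theorem Dj_le {n j : ℕ} (hj : 2 * j ≤ n) : Dj n j ≤ Real.exp ((j : ℝ) * (j + 1) / n) - 1 := by
  unfold Dj; linarith [(Dj_bounds n j hj).2]

/-- splitting the partitions -/
theorem sum_split {bm : ℕ} (hbm : 2 ≤ bm) (F : Finset (Finset α) → ℂ) :
    ∑ π ∈ sparts (univ : Finset α) bm, F π =
      ∑ π ∈ sparts (univ : Finset α) 2, F π + ∑ π ∈ sparts3 (univ : Finset α) bm, F π := by
  unfold sparts3
  rw [← Finset.sum_filter_add_sum_filter_not (sparts (univ : Finset α) bm)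
    (fun ρ => ∃ B ∈ ρ, 3 ≤ B.card), add_comm]
  congr 1
  refine sum_congr ?_ (fun _ _ => rfl)
  ext π
  rw [mem_filter, mem_sparts, mem_sparts]
  push Not
  constructor
  · rintro ⟨⟨h1, h2⟩, h3⟩
    exact ⟨h1, fun B hB => by have := h3 B hB; omega⟩
  · rintro ⟨h1, h2⟩
    exact ⟨⟨h1, fun B hB => (h2 B hB).trans hbm⟩, fun B hB => by have := h2 B hB; omega⟩

theorem X_eq {n : ℕ} (hn : Fintype.card α = n) (hn2 : 1 ≤ n) {bm : ℕ} (hbm : 2 ≤ bm) (u : ℂ)
    (E : Finset (Sym2 α)) :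
    Gs bm n u E - Fp n u E =
      ∑ J ∈ Mat α, (((-1 : ℝ) ^ J.card * ((1 / (n : ℝ)) ^ J.card * Dj n J.card) : ℝ) : ℂ) *
        ∏ e ∈ J, wt u E e +
      ∑ J ∈ (pairs (univ : Finset α)).powerset \ Mat α,
        ((-(-1 / (n : ℝ)) ^ J.card : ℝ) : ℂ) * ∏ e ∈ J, wt u E e +
      ∑ π ∈ sparts3 (univ : Finset α) bm,
        ((((-1 : ℝ) ^ (n - π.card) * cf n π.card : ℝ)) : ℂ) * ∏ e ∈ intr π, wt u E e := by
  have hn0 : (n : ℝ) ≠ 0 := by
    have : (1 : ℝ) ≤ n := by exact_mod_cast hn2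
    linarith
  unfold Gs
  rw [sum_split hbm, Fp_eq]
  have e1 : ∑ π ∈ sparts (univ : Finset α) 2,
      ((((-1 : ℝ) ^ (n - π.card) * cf n π.card : ℝ)) : ℂ) * ∏ e ∈ intr π, wt u E e =
      ∑ J ∈ Mat α, ((((-1 : ℝ) ^ J.card * cf n (n - J.card) : ℝ)) : ℂ) * ∏ e ∈ J, wt u E e := by
    rw [← sum_matchings (fun J => ((((-1 : ℝ) ^ J.card * cf n (n - J.card) : ℝ)) : ℂ) *
      ∏ e ∈ J, wt u E e)]
    refine sum_congr rfl (fun π hπ => ?_)
    have h1 := card_intr_matching hπ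
    rw [hn] at h1
    have h2 : n - π.card = (intr π).card := by omega
    have h3 : n - (intr π).card = π.card := by omega
    rw [h2, h3]
  have hsub : Mat α ⊆ (pairs (univ : Finset α)).powerset := filter_subset _ _
  rw [e1, ← Finset.sum_sdiff hsub]
  have e2 : ∑ J ∈ Mat α, (((-1 : ℝ) ^ J.card * ((1 / (n : ℝ)) ^ J.card * Dj n J.card) : ℝ) : ℂ) *
        ∏ e ∈ J, wt u E e =
      ∑ J ∈ Mat α, ((((-1 : ℝ) ^ J.card * cf n (n - J.card) : ℝ)) : ℂ) * ∏ e ∈ J, wt u E e -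
      ∑ J ∈ Mat α, (((-1 / (n : ℝ)) ^ J.card : ℝ) : ℂ) * ∏ e ∈ J, wt u E e := by
    rw [← sum_sub_distrib]
    refine sum_congr rfl (fun J _ => ?_)
    rw [← sub_mul]
    congr 1
    rw [← Complex.ofReal_sub]
    congr 1
    unfold Dj
    rw [mul_sub, ← mul_assoc, ← mul_pow, one_div, inv_mul_cancel₀ hn0, one_pow, one_mul,
      mul_sub, mul_one, ← mul_pow]
    congr 2
  have e3 : ∑ J ∈ (pairs (univ : Finset α)).powerset \ Mat α,
        ((-(-1 / (n : ℝ)) ^ J.card : ℝ) : ℂ) * ∏ e ∈ J, wt u E e =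
      - ∑ J ∈ (pairs (univ : Finset α)).powerset \ Mat α,
        (((-1 / (n : ℝ)) ^ J.card : ℝ) : ℂ) * ∏ e ∈ J, wt u E e := by
    rw [← sum_neg_distrib]
    refine sum_congr rfl (fun J _ => ?_)
    push_cast; ring
  rw [e2, e3]
  ring

theorem sq_three (x y z : ℂ) : ‖x + y + z‖ ^ 2 ≤ 3 * (‖x‖ ^ 2 + ‖y‖ ^ 2 + ‖z‖ ^ 2) := by
  have h1 : ‖x + y + z‖ ≤ ‖x‖ + ‖y‖ + ‖z‖ :=
    (norm_add_le _ _).trans (add_le_add (norm_add_le _ _) le_rfl)
  calc ‖x + y + z‖ ^ 2 ≤ (‖x‖ + ‖y‖ + ‖z‖) ^ 2 := pow_le_pow_left₀ (norm_nonneg _) h1 2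
    _ ≤ _ := by
      nlinarith [sq_nonneg (‖x‖ - ‖y‖), sq_nonneg (‖y‖ - ‖z‖), sq_nonneg (‖x‖ - ‖z‖)]

/-- bound for the second moment -/
theorem second_X {n : ℕ} (hn : Fintype.card α = n) (hn2 : 2 ≤ n) {u : ℂ} {a κ X : ℝ}
    (ha : ‖1 - u‖ / 2 ≤ a) (ha1 : a ≤ 1) (hκ : (1 + ‖u‖ ^ 2) / 2 ≤ κ) (hX : 1 ≤ X)
    (h : ∀ k, ∑ b ∈ Icc 1 k, a ^ (b.choose 2) / ((b.factorial : ℝ) * X ^ b) ≤ 1)
    {bm : ℕ} (hbm : 2 ≤ bm) :
    Ex (pairs (univ : Finset α)) (fun E => ‖Gs bm n u E - Fp n u E‖ ^ 2) ≤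
      3 * ((1 / (n : ℝ) * a + 1) ^ (n.choose 2) *
        ∑ j ∈ range (n / 2 + 1), ((n.choose 2).choose j : ℝ) *
          (1 / (n : ℝ) * (1 / (n : ℝ) * κ + a)) ^ j * Dj n j ^ 2 +
      (1 / (n : ℝ) * a + 1) ^ (n.choose 2) * ((n : ℝ) ^ 3 *
        ((1 / (n : ℝ) * (1 / (n : ℝ) * κ + a)) ^ 2 *
          (1 / (n : ℝ) * (1 / (n : ℝ) * κ + a) + 1) ^ (n.choose 2))) +
      2 * X ^ (2 * n) * Real.exp (9 * κ + lam3 n κ bm) *
        (lam3 n κ bm + 16 * (n : ℝ) ^ 2 * a ^ 4)) := by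
  have ha0 : 0 ≤ a := le_trans (by positivity) ha
  have hκ0 : 0 ≤ κ := le_trans (by positivity) hκ
  have hx : (0 : ℝ) ≤ 1 / n := by positivity
  -- the three pieces
  set X1 : Finset (Sym2 α) → ℂ := fun E => ∑ J ∈ Mat α,
    (((-1 : ℝ) ^ J.card * ((1 / (n : ℝ)) ^ J.card * Dj n J.card) : ℝ) : ℂ) *
        ∏ e ∈ J, wt u E e with hX1
  set X2 : Finset (Sym2 α) → ℂ := fun E => ∑ J ∈ (pairs (univ : Finset α)).powerset \ Mat α,
        ((-(-1 / (n : ℝ)) ^ J.card : ℝ) : ℂ) * ∏ e ∈ J, wt u E e with hX2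
  set X3 : Finset (Sym2 α) → ℂ := fun E => ∑ π ∈ sparts3 (univ : Finset α) bm,
        ((((-1 : ℝ) ^ (n - π.card) * cf n π.card : ℝ)) : ℂ) * ∏ e ∈ intr π, wt u E e with hX3
  have h0 : Ex (pairs (univ : Finset α)) (fun E => ‖Gs bm n u E - Fp n u E‖ ^ 2) ≤
      3 * (Ex (pairs (univ : Finset α)) (fun E => ‖X1 E‖ ^ 2) +
        Ex (pairs (univ : Finset α)) (fun E => ‖X2 E‖ ^ 2) +
        Ex (pairs (univ : Finset α)) (fun E => ‖X3 E‖ ^ 2)) := by
    rw [← Ex_add, ← Ex_add, ← Ex_const_mul]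
    refine Ex_mono (fun E _ => ?_)
    rw [X_eq hn (by omega) hbm]
    exact sq_three _ _ _
  refine h0.trans ?_
  refine mul_le_mul_of_nonneg_left ?_ (by norm_num)
  refine add_le_add (add_le_add ?_ ?_) ?_
  · refine (second_moment (Mat α) (fun J => J) (fun J hJ => (mem_Mat.1 hJ).1)
      (fun J => (-1 : ℝ) ^ J.card * ((1 / (n : ℝ)) ^ J.card * Dj n J.card)) u ha hκ).trans ?_
    refine le_trans (le_of_eq ?_) ((Q1_le hn hx hκ0 ha0 (fun j => |Dj n j|)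
      (fun j => abs_nonneg _)).trans (le_of_eq ?_))
    · refine sum_congr rfl (fun J _ => sum_congr rfl (fun J' _ => ?_))
      rw [abs_mul, abs_mul, abs_mul, abs_mul, abs_pow, abs_pow, abs_pow, abs_pow, abs_neg,
        abs_one, one_pow, one_pow, one_mul, one_mul, abs_of_nonneg hx]
    · congr 1
      exact sum_congr rfl (fun j _ => by rw [sq_abs])
  · refine (second_moment ((pairs (univ : Finset α)).powerset \ Mat α) (fun J => J)
      (fun J hJ => by rw [mem_sdiff, mem_powerset] at hJ; exact hJ.1)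
      (fun J => -(-1 / (n : ℝ)) ^ J.card) u ha hκ).trans ?_
    refine le_trans (le_of_eq ?_) (Q2_le hn hx hκ0 ha0)
    refine sum_congr rfl (fun J _ => sum_congr rfl (fun J' _ => ?_))
    have : |(-1 : ℝ) / n| = 1 / n := by rw [abs_div, abs_neg, abs_one, Nat.abs_cast]
    rw [abs_neg, abs_neg, abs_pow, abs_pow, this]
  · refine (second_moment (sparts3 (univ : Finset α) bm) (fun π => intr π)
      (fun π hπ => intr_subset (mem_sparts3.1 hπ).1.1)
      (fun π => (-1 : ℝ) ^ (n - π.card) * cf n π.card) u ha hκ).trans ?_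
    refine le_trans (le_of_eq ?_) (Q3_le hn hn2 ha0 ha1 hκ0 hX h bm)
    refine sum_congr rfl (fun π _ => sum_congr rfl (fun σ _ => ?_))
    rw [abs_mul, abs_mul, abs_pow, abs_pow, abs_neg, abs_one, one_pow, one_pow, one_mul, one_mul,
      abs_of_nonneg (cf_nonneg _ _), abs_of_nonneg (cf_nonneg _ _)]

end RelRoots
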